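import Mathlib
import Pool.Agent.Lib.MP_bf61d2_nt.Trim.Artin.H.DefsH
import Pool.Agent.Lib.MP_bf61d2_nt.Trim.Artin.L.StmtsL63
import Pool.Agent.Lib.MP_bf61d2_nt.Trim.Artin.L.T1M73
import Pool.Agent.Lib.MP_bf61d2_nt.Trim.Artin.R.DefsR
import Pool.Agent.Lib.MP_bf61d2_nt.Trim.Artin.T.DefsT84
import Pool.Agent.Lib.MP_bf61d2_nt.Trim.Joint.Main
import Pool.Agent.Lib.MP_bf61d2_nt.Trim.Places
import Pool.Agent.Lib.MP_bf61d2_nt.Trim.PrimeSum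
import Pool.Agent.Lib.MP_bf61d2_nt.Trim.Structure
import Pool.Agent.Lib.MP_bf61d2_nt.Trim.Zeta.ClassSum
import Pool.Agent.Lib.MP_bf61d2_nt.Trim.Zeta.Lattice
import Pool.Agent.Lib.MP_bf61d2_nt.Trim.Zeta.Unfold

set_option autoImplicit false

/-!
UNIF (MP_bf61d2_nt): the repulsion with constants that depend only on the degree of the number
field. Definitions and the statements of the modules, as propositions.
-/

namespace NumberField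
end NumberField

namespace Pool.Agent.Lib.MP_bf61d2_nt.Zeta
end Pool.Agent.Lib.MP_bf61d2_nt.Zeta

namespace Pool.Agent.Lib.MP_bf61d2_nt.Artin.Ray

open NumberField NumberField.mixedEmbedding NumberField.Units NumberField.InfinitePlace

open NumberField.mixedEmbedding.fundamentalCone NumberField.Units.dirichletUnitTheorem

open IsDedekindDomain Module MeasureTheory

open Pool.Agent.Lib.MP_bf61d2_nt.Zeta

open scoped Classical nonZeroDivisors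

universe u v

section Defs

variable {K : Type u} [Field K] [NumberField K]

/-- The coordinates at all places of a point of the log space, divided by the multiplicities. -/
noncomputable def ex (y : logSpace K) (w : InfinitePlace K) : ℝ :=
  if h : w ≠ w₀ then y ⟨w, h⟩ / w.mult
  else -(∑ w' : {w : InfinitePlace K // w ≠ w₀}, y w') / w.mult

/-- The automorphism of the mixed space that multiplies by `exp (-ex y w)` at the place `w`. -/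
noncomputable def scl (y : logSpace K) : mixedSpace K ≃ₗ[ℝ] mixedSpace K :=
  LinearEquiv.prodCongr
    (LinearEquiv.piCongrRight fun w : {w : InfinitePlace K // w.IsReal} =>
      LinearEquiv.smulOfNeZero ℝ ℝ (Real.exp (-(ex y w.1))) (Real.exp_ne_zero _))
    (LinearEquiv.piCongrRight fun w : {w : InfinitePlace K // w.IsComplex} =>
      LinearEquiv.smulOfNeZero ℝ ℂ (Real.exp (-(ex y w.1))) (Real.exp_ne_zero _))

/-- The function `Phi (logMap x) N(x)^(-s)`. -/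
noncomputable def hP (Phi : logSpace K → ℝ) (s : ℂ) (x : mixedSpace K) : ℂ :=
  if mixedEmbedding.norm x = 0 then 0 else
    (Phi (logMap x) : ℂ) * Complex.exp (-(s * (Real.log (mixedEmbedding.norm x) : ℂ)))

/-- The function `hP` with the character of type `(a, b)` on one orthant. -/
noncomputable def hTP (Phi : logSpace K → ℝ) (a : TA K) (b : TB K) (σ : SG K) (s : ℂ)
    (x : mixedSpace K) : ℂ :=
  lamX a b x * if sgn x = σ then hP Phi s x else 0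

/-- A bump: bounded by `V`, Lipschitz with constant `V`, supported in the ball of radius `2`
around `y₀`. -/
def IsBump (Phi : logSpace K → ℝ) (V : ℝ) (y₀ : logSpace K) : Prop :=
  (∀ z, |Phi z| ≤ V) ∧ (∀ z z', |Phi z - Phi z'| ≤ V * ‖z - z'‖) ∧
    ∀ z, Phi z ≠ 0 → ‖z - y₀‖ ≤ 2

/-- The absolute value of the discriminant. -/
noncomputable def dK (K : Type u) [Field K] [NumberField K] : ℝ := |(discr K : ℝ)|

end Defs

/-- The abscissa of the continuation. -/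
noncomputable def gU (n : ℕ) : ℝ := 1 - 1 / (2 * n)

/-- The abscissa for the bounds. -/
noncomputable def gV (n : ℕ) : ℝ := 1 - 1 / (4 * n)

/-- LIRU: linear independence over the reals. -/
def StLIRU (K : Type u) [Field K] [NumberField K] : Prop :=
  ∀ (n : ℕ) (τ : Fin n → 𝓞 K), LinearIndependent ℚ (fun i => (τ i : K)) →
    LinearIndependent ℝ (fun i => mixedEmbedding K (τ i : K))

/-- REPR: representatives of the ideal classes. -/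
def StREPR (n : ℕ) : Prop := ∃ A : ℝ, 1 ≤ A ∧
  ∀ (K : Type u) [Field K] [NumberField K], finrank ℚ K = n →
  ∀ C : ClassGroup (𝓞 K), ∃ J : (Ideal (𝓞 K))⁰, ClassGroup.mk0 J = C ∧
    (Ideal.absNorm (J : Ideal (𝓞 K)) : ℝ) ≤ A * dK K

/-- LIPU: the Lipschitz estimate, uniform in the field. -/
def StLIPU (n : ℕ) : Prop := ∃ C : ℝ, 1 ≤ C ∧
  ∀ (K : Type u) [Field K] [NumberField K], finrank ℚ K = n →
  ∀ Phi : logSpace K → ℝ, IsBump Phi 1 0 →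
  ∀ c R : ℝ, 1 ≤ c → 1 ≤ R → ∀ x y : mixedSpace K, mixedEmbedding.norm x ≠ 0 →
    mixedEmbedding.norm y ≠ 0 → ‖x - y‖ ≤ c → C * (c * R) ≤ ‖x‖ →
    ∀ (a : TA K) (b : TB K) (σ : SG K) (s : ℂ), gU n ≤ s.re → sz a b * (1 + ‖s‖) ≤ R →
      ‖hTP Phi a b σ s y - hTP Phi a b σ s x‖ ≤ C * (c * R) * ‖x‖ ^ (-(n + 1 / 2) : ℝ)

/-- PACK: separated points. -/
def StPACK (n : ℕ) : Prop := ∃ C : ℝ, 1 ≤ C ∧
  ∀ (K : Type u) [Field K] [NumberField K], finrank ℚ K = n →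
  ∀ S : Finset (mixedSpace K), (∀ x ∈ S, ∀ y ∈ S, x ≠ y → 1 ≤ ‖x - y‖) →
    (∀ r : ℝ, 1 ≤ r → (∀ x ∈ S, ‖x‖ ≤ r) → (S.card : ℝ) ≤ C * r ^ n) ∧
    ((∀ x ∈ S, 1 ≤ ‖x‖) → ∑ x ∈ S, ‖x‖ ^ (-(n + 1 / 2) : ℝ) ≤ C)

/-- LCOS: the sum over one coset. -/
def StLCOS (n : ℕ) : Prop := ∃ (A : ℝ) (k : ℕ), 1 ≤ A ∧
  ∀ (K : Type u) [Field K] [NumberField K], finrank ℚ K = n →
  ∀ Phi : logSpace K → ℝ, IsBump Phi 1 0 →
  ∀ b : Basis (Fin n) ℝ (mixedSpace K), ∀ ρ : ℝ, 1 ≤ ρ → (∀ i, ‖b i‖ ≤ ρ) →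
    (∀ z : Fin n → ℤ, z ≠ 0 → 1 ≤ mixedEmbedding.norm (pt b z)) →
    ∀ x₀ : mixedSpace K, ‖x₀‖ ≤ n * ρ →
    (∀ z : Fin n → ℤ, x₀ + pt b z ≠ 0 → 1 ≤ mixedEmbedding.norm (x₀ + pt b z)) →
    ∀ (α : TA K) (β : TB K), ∑ w, β w = 0 → ∀ σ : SG K,
    (∀ s : ℂ, 1 < s.re → Summable fun z : Fin n → ℤ => hTP Phi α β σ s (x₀ + pt b z)) ∧
    ∃ H : ℂ → ℂ, DifferentiableOn ℂ H {s | gU n < s.re} ∧
      (∀ s : ℂ, 1 < s.re → H s = (s - 1) * ∑' z : Fin n → ℤ, hTP Phi α β σ s (x₀ + pt b z)) ∧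
      ∀ s : ℂ, gV n ≤ s.re → s.re ≤ 2 → ‖H s‖ ≤ A * (ρ * (sz α β * (1 + |s.im|))) ^ k

/-- LATU: the lattice sums, uniform in the field and the lattice. -/
def StLATU (n : ℕ) : Prop := ∃ (A : ℝ) (k : ℕ), 1 ≤ A ∧
  ∀ (K : Type u) [Field K] [NumberField K], finrank ℚ K = n →
  ∀ (ι : Type u) [Fintype ι] (b : Basis ι ℝ (mixedSpace K)),
    (∀ a : ι → ℤ, a ≠ 0 → 1 ≤ mixedEmbedding.norm (pt b a)) →
    ∀ (Phi : logSpace K → ℝ) (V : ℝ) (y₀ : logSpace K), IsBump Phi V y₀ →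
    ∀ v : Fin n → (ι → ℤ), LinearIndependent ℝ (fun i => pt b (v i)) →
    ∀ ρ : ℝ, 1 ≤ ρ → (∀ i w, normAtPlace w (pt b (v i)) ≤ ρ * Real.exp (ex y₀ w)) →
    ∀ (α : TA K) (β : TB K), ∑ w, β w = 0 →
    ∀ P : SG K → (ι → ℤ) → ℂ, (∀ σ a, ‖P σ a‖ ≤ 1) → (∀ σ a i, P σ (a + v i) = P σ a) →
    ∃ H : ℂ → ℂ, DifferentiableOn ℂ H {s | gU n < s.re} ∧
      (∀ s : ℂ, 1 < s.re → H s = (s - 1) *
        ∑' a : ι → ℤ, P (sgn (pt b a)) a * lamX α β (pt b a) * hP Phi s (pt b a)) ∧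
      ∀ s : ℂ, gV n ≤ s.re → s.re ≤ 2 →
        ‖H s‖ ≤ V * (A * (ρ * (sz α β * (1 + |s.im|))) ^ k)

/-- UNFU: unfolding by a finite sum of bumps. -/
def StUNFU (K : Type u) [Field K] [NumberField K] : Prop :=
  ∃ (N : ℕ) (Phi : Fin N → logSpace K → ℝ) (V : Fin N → ℝ) (y : Fin N → logSpace K),
  (∀ j, IsBump (Phi j) (V j) (y j)) ∧ ∑ j, V j ≤ 2 * regulator K ∧
  ∀ F : Ideal (𝓞 K) → ℂ, (∀ I, ‖F I‖ ≤ 1) →
  ∀ (J : ClassGroup (𝓞 K) → (Ideal (𝓞 K))⁰), (∀ C, ClassGroup.mk0 (J C) = C⁻¹) →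
  ∀ (ι : ClassGroup (𝓞 K) → Type u) [∀ C, Fintype (ι C)]
    (b : ∀ C, Basis (ι C) ℝ (mixedSpace K)), (∀ C, IsBasisOf (J C) (b C)) →
  ∀ W : ∀ C, (ι C → ℤ) → ℂ, (∀ C (a : ι C → ℤ) (α : 𝓞 K) (I : Ideal (𝓞 K)), α ≠ 0 →
    mixedEmbedding K (α : K) = pt (b C) a → Ideal.span {α} = (J C : Ideal (𝓞 K)) * I →
    W C a = F I) →
  ∀ s : ℂ, 1 < s.re → LI F s =
    ∑ C, (torsionOrder K * en s (Ideal.absNorm (J C : Ideal (𝓞 K))))⁻¹ *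
      ∑ j, ∑' a : ι C → ℤ, W C a * hP (Phi j) s (pt (b C) a)

/-- HRU: the class number and the regulator. -/
def StHRU (n : ℕ) : Prop := ∃ (A : ℝ) (k : ℕ), 1 ≤ A ∧
  ∀ (K : Type u) [Field K] [NumberField K], finrank ℚ K = n →
    (classNumber K : ℝ) * regulator K ≤ A * dK K ^ k

/-- GROWU: the continuation and the growth, uniform in the field. -/
def StGROWU (n : ℕ) : Prop := ∃ (η A : ℝ) (k : ℕ), 0 < η ∧ η < 1 ∧ 1 ≤ A ∧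
  ∀ (K : Type u) [Field K] [NumberField K], finrank ℚ K = n →
  ∀ (𝔪 : Ideal (𝓞 K)), 𝔪 ≠ ⊥ → ∀ (a : TA K) (b : TB K) (ψ : Ideal (𝓞 K) →*₀ ℂ), IsHe 𝔪 a b ψ →
    ∃ H : ℂ → ℂ, DifferentiableOn ℂ H {s | 1 - η < s.re} ∧
    (∀ s : ℂ, 1 < s.re → H s = (s - 1) * LI (ψ : Ideal (𝓞 K) → ℂ) s) ∧
    ∀ s : ℂ, 1 - η < s.re → s.re < 2 →
      ‖H s‖ ≤ A * (dK K * (Ideal.absNorm 𝔪 * (sz a b * (1 + |s.im|)))) ^ k

/-- WLU: the weights, uniform in the field. -/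
def StWLU (n : ℕ) : Prop := ∀ c : ℝ, 0 < c → ∃ C : ℝ, 0 ≤ C ∧
  ∀ (K : Type u) [Field K] [NumberField K], finrank ℚ K = n →
    ∑' v : HeightOneSpectrum (𝓞 K), wp (1 + c) v ≤ C ∧
    ∑' v : HeightOneSpectrum (𝓞 K), wl c v ≤ C ∧ |sqC K| ≤ C

/-- WL1U: the trivial bound of the weights. -/
def StWL1U (n : ℕ) : Prop := ∃ C : ℝ, 1 ≤ C ∧
  ∀ (K : Type u) [Field K] [NumberField K], finrank ℚ K = n → ∀ δ : ℝ, 0 < δ → δ ≤ 1 →
    ∑' v : HeightOneSpectrum (𝓞 K), wl δ v ≤ C / δ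

/-- PSLU: the logarithmic derivative and the prime sum. -/
def StPSLU (n : ℕ) : Prop := ∃ C : ℝ, 0 ≤ C ∧
  ∀ (K : Type u) [Field K] [NumberField K], finrank ℚ K = n →
  ∀ ψ : Ideal (𝓞 K) →*₀ ℂ, (∀ I, ‖ψ I‖ ≤ 1) →
  ∀ s : ℂ, 1 < s.re → LI (ψ : Ideal (𝓞 K) → ℂ) s ≠ 0 ∧
    DifferentiableAt ℂ (LI (ψ : Ideal (𝓞 K) → ℂ)) s ∧
    ‖logDeriv (LI (ψ : Ideal (𝓞 K) → ℂ)) s + PSL ψ (s.re - 1) s.im‖ ≤ C

/-- ONELU: the one sided bound, uniform in the field. -/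
def StONELU (n : ℕ) : Prop := ∃ A : ℝ, 0 ≤ A ∧
  ∀ (K : Type u) [Field K] [NumberField K], finrank ℚ K = n →
  ∀ (𝔪 : Ideal (𝓞 K)) (Z : ℕ) (ψ : Ideal (𝓞 K) →*₀ ℂ),
  IsHk 𝔪 Z ψ → ∀ x u : ℝ, 0 < x → x ≤ 1 →
    (PSL ψ x u).re ≤ x / (x ^ 2 + u ^ 2) + A * Real.log (dK K * (Z * (|u| + 20))) ∧
    (BD ψ → (PSL ψ x u).re ≤ A * Real.log (dK K * (Z * (|u| + 20))))

/-- DLU: the sum of the weights. -/
def StDLU (n : ℕ) : Prop := ∃ A : ℝ, 0 ≤ A ∧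
  ∀ (K : Type u) [Field K] [NumberField K], finrank ℚ K = n →
  ∀ δ : ℝ, 0 < δ → δ ≤ 1 →
  ∑' v : HeightOneSpectrum (𝓞 K), wl δ v ≤ 1 / δ + A * Real.log (20 * dK K)

/-- LELOGU: the logarithmic derivative of the twisted L-function of `E`. -/
def StLELOGU (n : ℕ) : Prop := ∃ A : ℝ, 0 ≤ A ∧
  ∀ (K : Type u) [Field K] [NumberField K], finrank ℚ K = n →
  ∀ (E : WeierstrassCurve K)
  (f : HeightOneSpectrum (𝓞 K) → ℂ), (∀ v, ‖f v‖ ≤ 1) → ∀ δ t : ℝ, 0 < δ →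
    LE E f ((3 / 2 + δ : ℝ) + t * Complex.I) ≠ 0 ∧
    DifferentiableAt ℂ (LE E f) ((3 / 2 + δ : ℝ) + t * Complex.I) ∧
    ‖logDeriv (LE E f) ((3 / 2 + δ : ℝ) + t * Complex.I) +
      CRL (fun v => cc E v) f δ t‖ ≤ A

/-- SCTWLU: the quadratic twist `E_d`. -/
def StSCTWLU (n : ℕ) : Prop := ∃ A : ℝ, 0 ≤ A ∧
  ∀ (K : Type u) [Field K] [NumberField K], finrank ℚ K = n →
  ∀ (E : WeierstrassCurve K) (d : ℕ), 0 < d →
  ∀ f : HeightOneSpectrum (𝓞 K) → ℂ, (∀ v, ‖f v‖ ≤ 1) → ∀ δ t : ℝ, 0 < δ →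
    ‖CRL (fun v => cc (qt E (d : K)) v) f δ t -
      CRL (fun v => cc E v) (fun v => f v * (js d (nm v) : ℂ)) δ t‖ ≤ A * Real.log (20 * d)

/-- T1U: the second moment of the traces. -/
def StT1U (n : ℕ) : Prop := ∃ C : ℝ, 1 ≤ C ∧
  ∀ (K : Type u) [Field K] [NumberField K], finrank ℚ K = n →
  ∀ (E : WeierstrassCurve K) (δ : ℝ), 0 < δ → δ ≤ 1 →
    ∑' v : HeightOneSpectrum (𝓞 K), wl δ v * cc E v ^ 2 ≤ T1 E δ ∧
    T1 E δ ≤ 4 / δ + C * Real.log (20 * dK K) ∧ T1 E δ ≤ C / δ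

end Pool.Agent.Lib.MP_bf61d2_nt.Artin.Ray
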