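import Mathlib
import Pool.Agent.Lib.MP_bf61d2_nt.Trim.Artin.L.StmtsL63
import Pool.Agent.Lib.MP_bf61d2_nt.Trim.Artin.U2.CST36
import Pool.Agent.Lib.MP_bf61d2_nt.Trim.Artin.UK.StmtsU84
import Pool.Agent.Lib.MP_bf61d2_nt.Trim.Places
import Pool.Agent.Lib.MP_bf61d2_nt.Trim.PrimeSum

set_option autoImplicit false

/-!
UNIF (MP_bf61d2_nt): the modules CSTU, WLU, PSLU, LELOGU, SCTWLU.
-/

namespace NumberField
end NumberField

namespace Pool.Agent.Lib.MP_bf61d2_nt.Artin.Ray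

open NumberField IsDedekindDomain Module

universe u

lemma wp_le_pr36 {K : Type u} [Field K] [NumberField K] {c : ℝ} (hc : 0 < c)
    (v : HeightOneSpectrum (𝓞 K)) : wp (1 + c) v ≤ (pr v : ℝ) ^ (-(1 + c)) := by
  have hp : (0 : ℝ) < pr v := by exact_mod_cast (pr_prime v).pos
  have h2 : (pr v : ℝ) ≤ nm v := by exact_mod_cast pr_le_nm v
  exact Real.rpow_le_rpow_of_nonpos hp h2 (by linarith)

/-- The sum of the weights, with a bound in the degree. -/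
lemma tsum_wp_unif36 {n : ℕ} {K : Type u} [Field K] [NumberField K] (hn : finrank ℚ K = n)
    {c : ℝ} (hc : 0 < c) : ∑' v : HeightOneSpectrum (𝓞 K), wp (1 + c) v ≤
      n * ∑' m : ℕ, (m : ℝ) ^ (-(1 + c)) := by
  have hs : Summable fun m : ℕ => (m : ℝ) ^ (-(1 + c)) :=
    Real.summable_nat_rpow.mpr (by linarith)
  have h0 : ∀ m : ℕ, 0 ≤ (m : ℝ) ^ (-(1 + c)) := fun m => by positivity
  have hsp := summable_pr (K := K) (h := fun m : ℕ => (m : ℝ) ^ (-(1 + c))) h0 hs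
  have hle := (summable_wp (K := K) (by linarith : 1 < 1 + c)).tsum_le_tsum
    (fun v => wp_le_pr36 hc v) hsp
  refine hle.trans ?_
  rw [← hn]
  exact tsum_pr_le36 K (h := fun m : ℕ => (m : ℝ) ^ (-(1 + c))) h0 hs

/-- WLU: the weights. -/
theorem stWLU (n : ℕ) : StWLU.{u} n := by
  intro c hc
  have hZ : ∀ x : ℝ, 0 ≤ ∑' m : ℕ, (m : ℝ) ^ (-(1 + x)) := fun x =>
    tsum_nonneg fun m => by positivity
  have hZ2 : (0 : ℝ) ≤ ∑' m : ℕ, 1 / (m : ℝ) ^ 2 := tsum_nonneg fun m => by positivity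
  refine ⟨n * ∑' m : ℕ, (m : ℝ) ^ (-(1 + c)) + 2 / c * (n * ∑' m : ℕ, (m : ℝ) ^ (-(1 + c / 2))) +
    n * ∑' m : ℕ, 1 / (m : ℝ) ^ 2, by have := hZ c; have := hZ (c / 2); positivity, ?_⟩
  intro K _ _ hn
  have a1 : 0 ≤ (n : ℝ) * ∑' m : ℕ, (m : ℝ) ^ (-(1 + c)) := by have := hZ c; positivity
  have a2 : 0 ≤ 2 / c * (n * ∑' m : ℕ, (m : ℝ) ^ (-(1 + c / 2))) := by
    have := hZ (c / 2); positivity
  have a3 : 0 ≤ (n : ℝ) * ∑' m : ℕ, 1 / (m : ℝ) ^ 2 := by positivity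
  refine ⟨?_, ?_, ?_⟩
  · have := tsum_wp_unif36 hn hc
    linarith
  · have h1 := (summable_wl (K := K) hc).tsum_le_tsum (fun v => wl_le hc v)
      ((summable_wp (K := K) (by linarith : 1 < 1 + c / 2)).mul_left _)
    rw [tsum_mul_left] at h1
    have h2 := tsum_wp_unif36 hn (by positivity : 0 < c / 2)
    have h3 : 2 / c * ∑' v : HeightOneSpectrum (𝓞 K), wp (1 + c / 2) v ≤
        2 / c * (n * ∑' m : ℕ, (m : ℝ) ^ (-(1 + c / 2))) :=
      mul_le_mul_of_nonneg_left h2 (by positivity)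
    linarith
  · have h0 : 0 ≤ sqC K := tsum_nonneg fun v => by positivity
    have h1 : sqC K ≤ n * ∑' m : ℕ, 1 / (m : ℝ) ^ 2 := by
      rw [← hn]
      exact tsum_pr_le36 K (h := fun m : ℕ => 1 / (m : ℝ) ^ 2) (fun m => by positivity)
        (Real.summable_one_div_nat_pow.mpr (by norm_num))
    rw [abs_of_nonneg h0]
    linarith

/-- PSLU. -/
theorem stPSLU (n : ℕ) : StPSLU.{u} n := psl_unif36 n

/-- LELOGU. -/
theorem stLELOGU (n : ℕ) : StLELOGU.{u} n := lelog_unif36 n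

/-- SCTWLU. -/
theorem stSCTWLU (n : ℕ) : StSCTWLU.{u} n := sctwl_unif36 n

end Pool.Agent.Lib.MP_bf61d2_nt.Artin.Ray
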