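import Mathlib
import Pool.Agent.Lib.MP_bf61d2_nt.Trim.Analytic
import Pool.Agent.Lib.MP_bf61d2_nt.Trim.Artin.Defs63
import Pool.Agent.Lib.MP_bf61d2_nt.Trim.Artin.R.DefsR
import Pool.Agent.Lib.MP_bf61d2_nt.Trim.Artin.R.LOGR84
import Pool.Agent.Lib.MP_bf61d2_nt.Trim.Artin.T.LTX84
import Pool.Agent.Lib.MP_bf61d2_nt.Trim.Artin.T7
import Pool.Agent.Lib.MP_bf61d2_nt.Trim.Artin.U.U2x14
import Pool.Agent.Lib.MP_bf61d2_nt.Trim.Artin.U2.CST36
import Pool.Agent.Lib.MP_bf61d2_nt.Trim.Line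
import Pool.Agent.Lib.MP_bf61d2_nt.Trim.LocalCurve
import Pool.Agent.Lib.MP_bf61d2_nt.Trim.Places
import Pool.Agent.Lib.MP_bf61d2_nt.Trim.PrimeCos
import Pool.Agent.Lib.MP_bf61d2_nt.Trim.PrimeSum
import Pool.Agent.Lib.MP_bf61d2_nt.Trim.Structure

set_option autoImplicit false

/-!
UNIF (MP_bf61d2_nt), module INTLU: the integrated form, with constants that depend only on the degree
of the field.
-/

namespace NumberField
end NumberField

namespace Pool.Agent.Lib.MP_bf61d2_nt.Zeta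
end Pool.Agent.Lib.MP_bf61d2_nt.Zeta

namespace Pool.Agent.Lib.MP_bf61d2_nt.Artin.Ray

open NumberField IsDedekindDomain Filter Topology Module

open Pool.Agent.Lib.MP_bf61d2_nt.Zeta

open scoped Classical

universe u

/-- The sum over the primes. -/
lemma primes_le88 : ∃ C : ℝ, 0 ≤ C ∧ ∀ x : ℝ, 0 < x → x ≤ 1 →
    ∑' p : Nat.Primes, ((p : ℕ) : ℝ) ^ (-(1 + x)) ≤ Real.log (1 / x) + C := by
  obtain ⟨C₀, hC₀, h⟩ := PC_zero
  rw [eventually_nhdsWithin_iff, Metric.eventually_nhds_iff] at h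
  obtain ⟨ε, hε, h⟩ := h
  have hPC : ∀ x : ℝ, PC (1 + x) 0 = ∑' p : Nat.Primes, ((p : ℕ) : ℝ) ^ (-(1 + x)) := by
    intro x
    rw [PC]
    exact tsum_congr fun p => by simp
  set x₀ : ℝ := min (ε / 2) 1 with hx₀
  have hx₀0 : 0 < x₀ := by rw [hx₀]; positivity
  have hx₀1 : x₀ ≤ 1 := min_le_right _ _
  have hx₀ε : x₀ < ε := lt_of_le_of_lt (min_le_left _ _) (by linarith)
  have key : ∀ x : ℝ, 0 < x → x ≤ x₀ →
      ∑' p : Nat.Primes, ((p : ℕ) : ℝ) ^ (-(1 + x)) ≤ Real.log (1 / x) + C₀ := by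
    intro x hx hx1
    have h1 := h (y := 1 + x) (by
      rw [Real.dist_eq, add_sub_cancel_left, abs_of_pos hx]
      linarith) (show (1 : ℝ) < 1 + x by linarith)
    rw [hPC, add_sub_cancel_left] at h1
    have h2 := (abs_le.mp h1).2
    linarith
  refine ⟨C₀ + Real.log (1 / x₀), by
    have : 0 ≤ Real.log (1 / x₀) := Real.log_nonneg (by
      rw [le_div_iff₀ hx₀0]; linarith)
    positivity, fun x hx hx1 => ?_⟩
  have h3 : 0 ≤ Real.log (1 / x₀) := Real.log_nonneg (by rw [le_div_iff₀ hx₀0]; linarith)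
  rcases le_or_gt x x₀ with h1 | h1
  · have := key x hx h1
    linarith
  · have h2 := key x₀ hx₀0 le_rfl
    have h4 : ∑' p : Nat.Primes, ((p : ℕ) : ℝ) ^ (-(1 + x)) ≤
        ∑' p : Nat.Primes, ((p : ℕ) : ℝ) ^ (-(1 + x₀)) := by
      refine (summable_primes (by linarith)).tsum_le_tsum (fun p => ?_)
        (summable_primes (by linarith))
      exact Real.rpow_le_rpow_of_exponent_le (by exact_mod_cast p.prop.one_le) (by linarith)
    have h5 : 0 ≤ Real.log (1 / x) := Real.log_nonneg (by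
      rw [le_div_iff₀ hx]; linarith)
    linarith

/-- The sum over the places. -/
lemma PS_le88 : ∃ C : ℝ, 0 ≤ C ∧ ∀ (K : Type u) [Field K] [NumberField K], ∀ x : ℝ,
    0 < x → x ≤ 1 → PS K (1 + x) ≤ finrank ℚ K * (Real.log (1 / x) + C) := by
  obtain ⟨C, hC, h⟩ := primes_le88
  refine ⟨C, hC, fun K _ _ x hx hx1 => ?_⟩
  set f : ℕ → ℝ := fun m => (m : ℝ) ^ (-(1 + x)) with hf
  set e : ℕ → ℝ := Set.indicator {p : ℕ | p.Prime} f with he
  have he0 : ∀ m, 0 ≤ e m := fun m => Set.indicator_nonneg (fun m _ => by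
    rw [hf]; positivity) m
  have hes : Summable e := by
    have h1 := (summable_primes (show 1 < 1 + x by linarith))
    exact summable_subtype_iff_indicator.mp h1
  have h1 := tsum_pr_le36 K he0 hes
  have h2 : ∑' m, e m = ∑' p : Nat.Primes, ((p : ℕ) : ℝ) ^ (-(1 + x)) := by
    rw [he, ← tsum_subtype]
    rfl
  rw [h2] at h1
  have h3 : PS K (1 + x) ≤ ∑' v : HeightOneSpectrum (𝓞 K), e (pr v) := by
    rw [PS]
    refine (summable_wp (K := K) (by linarith)).tsum_le_tsum (fun v => ?_) (summable_pr he0 hes)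
    have hp : (0 : ℝ) < pr v := by exact_mod_cast (pr_prime v).pos
    have h4 : (pr v : ℝ) ≤ nm v := by exact_mod_cast pr_le_nm v
    rw [he, Set.indicator_of_mem (show pr v ∈ {p : ℕ | p.Prime} from pr_prime v), hf, wp]
    exact Real.rpow_le_rpow_of_nonpos hp h4 (by linarith)
  exact h3.trans (h1.trans (mul_le_mul_of_nonneg_left (h x hx hx1) (Nat.cast_nonneg _)))

/-- The trivial bound, uniform in the field. -/
lemma norm_CR_le88 : ∃ A : ℝ, 0 ≤ A ∧ ∀ (K : Type u) [Field K] [NumberField K],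
    ∀ (c : HeightOneSpectrum (𝓞 K) → ℝ), (∀ v, |c v| ≤ 2) →
    ∀ (f : HeightOneSpectrum (𝓞 K) → ℂ), (∀ v, ‖f v‖ ≤ 1) → ∀ x u : ℝ, 0 < x → x ≤ 1 →
      ‖CR c f x u‖ ≤ 2 * finrank ℚ K * (Real.log (1 / x) + A) := by
  obtain ⟨C, hC, hPS⟩ := PS_le88
  refine ⟨C, hC, fun K _ _ c hc f hf x u hx hx1 => ?_⟩
  have hσ : 1 < 1 + x := by linarith
  have h1 : ‖CR c f x u‖ ≤ 2 * PS K (1 + x) := by
    rw [CR, SC]
    refine (tsum_of_norm_bounded ((summable_wp (K := K) hσ).mul_left 2).hasSum fun v => ?_).trans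
      (le_of_eq tsum_mul_left)
    rw [norm_mul, norm_mul, Complex.norm_real, Complex.norm_real, Real.norm_eq_abs,
      Real.norm_eq_abs, abs_of_pos (wp_pos _ v), mul_comm (2 : ℝ)]
    refine mul_le_mul_of_nonneg_left ?_ (wp_pos _ v).le
    have h2 : ‖f v * ph u (nm v)‖ ≤ 1 := by
      rw [norm_mul, U214.norm_ph, mul_one]
      exact hf v
    calc |c v| * ‖f v * ph u (nm v)‖ ≤ 2 * 1 :=
          mul_le_mul (hc v) h2 (norm_nonneg _) (by norm_num)
      _ = 2 := by norm_num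
  have h3 := hPS K x hx hx1
  have e : 2 * (finrank ℚ K : ℝ) * (Real.log (1 / x) + C) =
      2 * (finrank ℚ K * (Real.log (1 / x) + C)) := by ring
  rw [e]
  linarith

/-- The constant of LOGR, uniform in the field. -/
lemma RB_le88 : ∃ A : ℝ, 0 ≤ A ∧ ∀ (K : Type u) [Field K] [NumberField K],
    RB K ≤ finrank ℚ K * A := by
  have h1 : Summable fun n : ℕ => 150 / (n : ℝ) ^ 2 := by
    have := (Real.summable_one_div_nat_pow.mpr (by norm_num : 1 < 2)).mul_left 150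
    refine this.congr fun n => by ring
  refine ⟨∑' n : ℕ, 150 / (n : ℝ) ^ 2, tsum_nonneg fun n => by positivity, fun K _ _ => ?_⟩
  exact tsum_pr_le36 K (h := fun n : ℕ => 150 / (n : ℝ) ^ 2) (fun n => by positivity) h1

/-- LOGR with its constant. -/
theorem logr_cst88 (K : Type u) [Field K] [NumberField K] (E : WeierstrassCurve K)
    (f : HeightOneSpectrum (𝓞 K) → ℂ) (hf : ∀ v, ‖f v‖ ≤ 1) (δ t : ℝ) (hδ : 0 < δ) :
    |Real.log ‖LE E f ((3 / 2 + δ : ℝ) + t * Complex.I)‖ -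
      (CR (fun v => cc E v) f δ t).re| ≤ RB K := by
  have e0 : (((3 / 2 + δ : ℝ) : ℂ) + t * Complex.I).re = 3 / 2 + δ := by simp
  have h0 := LOGR84.hasProd E hf (s := ((3 / 2 + δ : ℝ) : ℂ) + t * Complex.I)
    (by rw [e0]; linarith)
  set s : ℂ := ((3 / 2 + δ : ℝ) : ℂ) + t * Complex.I with hs
  have hre : s.re = 3 / 2 + δ := e0
  have h1 : 3 / 2 < s.re := by rw [hre]; linarith
  rw [LE, h0.tprod_eq, Complex.norm_exp, Real.log_exp, ← Complex.sub_re]
  refine (Complex.abs_re_le_norm _).trans ?_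
  have hsl : Summable fun v : HeightOneSpectrum (𝓞 K) =>
      -Complex.log (1 - LTX84.zw E v (f v) s) :=
    Summable.of_norm_bounded ((summable_xi E h1).mul_left 14) fun v =>
      LTX84.norm_lam_le E v (hf v) h1.le
  have hterm : ∀ v : HeightOneSpectrum (𝓞 K),
      (wp (1 + δ) v : ℂ) * ((cc E v : ℂ) * (f v * ph t (nm v))) =
        cc E v * (f v * (nm v : ℂ) ^ (-(s - 1 / 2))) := by
    intro v
    rw [hs, cpow_eq_ph]
    ring
  have hs2 : Summable fun v : HeightOneSpectrum (𝓞 K) =>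
      (wp (1 + δ) v : ℂ) * ((cc E v : ℂ) * (f v * ph t (nm v))) := by
    refine Summable.of_norm_bounded ((summable_wp (K := K) (by linarith : 1 < 1 + δ)).mul_left 2)
      fun v => ?_
    rw [norm_mul, norm_mul, norm_mul, norm_ph, mul_one, Complex.norm_real, Complex.norm_real,
      Real.norm_eq_abs, Real.norm_eq_abs, abs_of_pos (wp_pos _ v)]
    have h3 : |cc E v| * ‖f v‖ ≤ 2 * 1 :=
      mul_le_mul (abs_cc_le E v) (hf v) (norm_nonneg _) (by norm_num)
    have := wp_pos (1 + δ) v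
    nlinarith
  rw [CR, SC, ← hsl.tsum_sub hs2]
  refine tsum_of_norm_bounded summable_bound.hasSum fun v => ?_
  rw [hterm v]
  exact LTX84.norm_rho_le E v (hf v) h1.le

end Pool.Agent.Lib.MP_bf61d2_nt.Artin.Ray
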