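import Mathlib
import Pool.Agent.Lib.MP_bf61d2_nt.Trim.Artin.Defs63
import Pool.Agent.Lib.MP_bf61d2_nt.Trim.Artin.L.StmtsL63
import Pool.Agent.Lib.MP_bf61d2_nt.Trim.Artin.T.LT73
import Pool.Agent.Lib.MP_bf61d2_nt.Trim.Artin.UK.StmtsU84
import Pool.Agent.Lib.MP_bf61d2_nt.Trim.Places

set_option autoImplicit false

/-!
UNIF (MP_bf61d2_nt), module MAINLU: the main theorem at one scale, with constants that depend only on
the degree of the field.
-/

namespace NumberField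
end NumberField

namespace Pool.Agent.Lib.MP_bf61d2_nt.Artin.Ray

open NumberField IsDedekindDomain

open scoped Classical

universe u

/-- The final estimate. -/
lemma final_real88 {r L T CT C₃ X Y B D S₁ S₂ : ℝ} (hr : 0 < r) (hL : 1 ≤ L)
    (hT0 : 0 ≤ T) (hT : T ≤ CT / r) (hCT : 0 ≤ CT) (hC₃ : 0 ≤ C₃) (hB : 0 ≤ B)
    (hD : 0 ≤ D) (hS₁ : 0 ≤ S₁) (hS₂ : 0 ≤ S₂)
    (hX : X ^ 2 ≤ T * (1 / r * S₂ + C₃ * L * S₁ ^ 2)) (hXD : X ≤ D / r * S₁)
    (hYX : Y ≤ X + B * L * S₁) (hYD : Y ≤ D / r * S₁) (hY0 : 0 ≤ Y) :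
    Y ^ 2 ≤ T / r * S₂ + (C₃ * CT + 2 * D * B + B ^ 2 + D ^ 2) * L / r * S₁ ^ 2 := by
  have hSS : 0 ≤ S₁ ^ 2 := sq_nonneg _
  have hLr : 0 ≤ L / r := by positivity
  have hTr : 0 ≤ T / r * S₂ := by positivity
  rcases le_or_gt L (1 / r) with h | h
  · have h1 : Y ^ 2 ≤ (X + B * L * S₁) ^ 2 := pow_le_pow_left₀ hY0 hYX 2
    have h3 : T * (C₃ * L * S₁ ^ 2) ≤ CT / r * (C₃ * L * S₁ ^ 2) :=
      mul_le_mul_of_nonneg_right hT (by positivity)
    have h4 : X * (B * L * S₁) ≤ D / r * S₁ * (B * L * S₁) :=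
      mul_le_mul_of_nonneg_right hXD (by positivity)
    have h5 : (B * L * S₁) ^ 2 ≤ B ^ 2 * (L * (1 / r)) * S₁ ^ 2 := by
      have : (B * L * S₁) ^ 2 = B ^ 2 * (L * L) * S₁ ^ 2 := by ring
      rw [this]
      gcongr
    have h6 : 0 ≤ D ^ 2 * (L / r) * S₁ ^ 2 := by positivity
    have e1 : T / r * S₂ = T * (1 / r * S₂) := by ring
    have e2 : (C₃ * CT + 2 * D * B + B ^ 2 + D ^ 2) * L / r * S₁ ^ 2 =
        CT / r * (C₃ * L * S₁ ^ 2) +
        2 * (D / r * S₁ * (B * L * S₁)) + B ^ 2 * (L * (1 / r)) * S₁ ^ 2 +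
        D ^ 2 * (L / r) * S₁ ^ 2 := by ring
    have e3 : (X + B * L * S₁) ^ 2 = X ^ 2 + 2 * (X * (B * L * S₁)) + (B * L * S₁) ^ 2 := by ring
    have e4 : T * (1 / r * S₂ + C₃ * L * S₁ ^ 2) =
        T * (1 / r * S₂) + T * (C₃ * L * S₁ ^ 2) := by ring
    rw [e1, e2]
    rw [e3] at h1
    rw [e4] at hX
    linarith
  · have h1 : Y ^ 2 ≤ (D / r * S₁) ^ 2 := pow_le_pow_left₀ hY0 hYD 2
    have h2 : (D / r * S₁) ^ 2 ≤ D ^ 2 * (L / r) * S₁ ^ 2 := by
      have : (D / r * S₁) ^ 2 = D ^ 2 * (1 / r * (1 / r)) * S₁ ^ 2 := by ring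
      rw [this]
      have h3 : 1 / r * (1 / r) ≤ L / r := by
        rw [div_eq_mul_one_div L r]
        exact mul_le_mul_of_nonneg_right h.le (by positivity)
      gcongr
    have h6 : 0 ≤ (C₃ * CT + 2 * D * B + B ^ 2) * (L / r) * S₁ ^ 2 := by positivity
    have e2 : (C₃ * CT + 2 * D * B + B ^ 2 + D ^ 2) * L / r * S₁ ^ 2 =
        (C₃ * CT + 2 * D * B + B ^ 2) * (L / r) * S₁ ^ 2 +
        D ^ 2 * (L / r) * S₁ ^ 2 := by ring
    rw [e2]
    linarith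

/-- The trivial bound of the prime sums. -/
lemma norm_CRL_le88 {K : Type u} [Field K] [NumberField K] {A δ : ℝ} (hδ : 0 < δ)
    (h : ∑' v : HeightOneSpectrum (𝓞 K), wl δ v ≤ A / δ) {c : HeightOneSpectrum (𝓞 K) → ℝ}
    (hc : ∀ v, |c v| ≤ 2) {f : HeightOneSpectrum (𝓞 K) → ℂ} (hf : ∀ v, ‖f v‖ ≤ 1) (t : ℝ) :
    ‖CRL c f δ t‖ ≤ 2 * A / δ := by
  have hs := (summable_wl (K := K) hδ).mul_right 2
  refine (tsum_of_norm_bounded hs.hasSum fun v => ?_).trans ?_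
  · rw [norm_mul, Complex.norm_real, Real.norm_eq_abs, abs_of_nonneg (wl_nonneg δ v), norm_mul,
      norm_mul, LT73.norm_ph, mul_one, Complex.norm_real]
    refine mul_le_mul_of_nonneg_left ?_ (wl_nonneg δ v)
    calc |c v| * ‖f v‖ ≤ 2 * 1 := mul_le_mul (hc v) (hf v) (norm_nonneg _) (by norm_num)
      _ = 2 := by norm_num
  · rw [tsum_mul_right]
    have e : 2 * A / δ = A / δ * 2 := by ring
    rw [e]
    linarith

/-- The discriminant is at least one. -/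
lemma one_le_dK88 (K : Type u) [Field K] [NumberField K] : 1 ≤ dK K := by
  have h : discr K ≠ 0 := discr_ne_zero K
  have h1 : 1 ≤ |discr K| := Int.one_le_abs h
  rw [dK]
  exact_mod_cast h1

/-- The number of the infinite places. -/
lemma card_places_le88 (K : Type u) [Field K] [NumberField K] :
    Fintype.card (InfinitePlace K) ≤ Module.finrank ℚ K := by
  have h1 := InfinitePlace.card_add_two_mul_card_eq_rank K
  have h2 : Fintype.card (InfinitePlace K) =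
      InfinitePlace.nrRealPlaces K + InfinitePlace.nrComplexPlaces K := by
    rw [InfinitePlace.card_eq_nrRealPlaces_add_nrComplexPlaces]
  omega

end Pool.Agent.Lib.MP_bf61d2_nt.Artin.Ray
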