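import Mathlib
import Pool.Agent.Lib.MP_bf61d2_nt.Trim.Artin.L.INTL3
import Pool.Agent.Lib.MP_bf61d2_nt.Trim.Artin.L.StmtsL63
import Pool.Agent.Lib.MP_bf61d2_nt.Trim.Artin.R.DefsR
import Pool.Agent.Lib.MP_bf61d2_nt.Trim.Artin.UK.CST36
import Pool.Agent.Lib.MP_bf61d2_nt.Trim.Artin.UK.INTLU88
import Pool.Agent.Lib.MP_bf61d2_nt.Trim.Artin.UK.MAINLU88
import Pool.Agent.Lib.MP_bf61d2_nt.Trim.Artin.UK.StmtsU84
import Pool.Agent.Lib.MP_bf61d2_nt.Trim.Artin.UK.WL1U36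
import Pool.Agent.Lib.MP_bf61d2_nt.Trim.Line
import Pool.Agent.Lib.MP_bf61d2_nt.Trim.Structure

set_option autoImplicit false

/-!
UNIF (MP_bf61d2_nt): the logarithm of the twisted L-function of `E` and its variation along a
horizontal line, with constants that depend only on the degree of the field.
-/

namespace NumberField
end NumberField

namespace Pool.Agent.Lib.MP_bf61d2_nt.Zeta
end Pool.Agent.Lib.MP_bf61d2_nt.Zeta

namespace Pool.Agent.Lib.MP_bf61d2_nt.Artin.Ray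

open NumberField IsDedekindDomain Filter Topology Module

open Pool.Agent.Lib.MP_bf61d2_nt.Zeta

open scoped Classical

universe u

/-- LOGRU: the logarithm of the twisted L-function of `E`. -/
def StLOGRU (n : ℕ) : Prop := ∃ A : ℝ, 0 ≤ A ∧
  ∀ (K : Type u) [Field K] [NumberField K], finrank ℚ K = n →
  ∀ (E : WeierstrassCurve K) (f : HeightOneSpectrum (𝓞 K) → ℂ), (∀ v, ‖f v‖ ≤ 1) →
  ∀ δ t : ℝ, 0 < δ →
    |Real.log ‖LE E f ((3 / 2 + δ : ℝ) + t * Complex.I)‖ - (CR (fun v => cc E v) f δ t).re| ≤ A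

/-- LOGRU. -/
theorem stLOGRU (n : ℕ) : StLOGRU.{u} n := by
  obtain ⟨R, hR, hRB⟩ := RB_le88.{u}
  refine ⟨n * R, by positivity, fun K _ _ hK E f hf δ t hδ => ?_⟩
  have h1 := hRB K
  rw [hK] at h1
  exact (logr_cst88 K E f hf δ t hδ).trans h1

/-- CRU: the trivial bound. -/
def StCRU (n : ℕ) : Prop := ∃ A : ℝ, 0 ≤ A ∧
  ∀ (K : Type u) [Field K] [NumberField K], finrank ℚ K = n →
  ∀ (c : HeightOneSpectrum (𝓞 K) → ℝ), (∀ v, |c v| ≤ 2) →
  ∀ (f : HeightOneSpectrum (𝓞 K) → ℂ), (∀ v, ‖f v‖ ≤ 1) → ∀ x u : ℝ, 0 < x → x ≤ 1 →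
    ‖CR c f x u‖ ≤ 2 * n * Real.log (1 / x) + A

/-- CRU. -/
theorem stCRU (n : ℕ) : StCRU.{u} n := by
  obtain ⟨A, hA, h⟩ := norm_CR_le88.{u}
  refine ⟨2 * n * A, by positivity, fun K _ _ hK c hc f hf x u hx hx1 => ?_⟩
  have h1 := h K c hc f hf x u hx hx1
  rw [hK] at h1
  refine h1.trans (le_of_eq ?_)
  ring

/-- LOGDU: the variation of the logarithm along a horizontal line. -/
def StLOGDU (n : ℕ) : Prop := ∃ C : ℝ, 0 ≤ C ∧
  ∀ (K : Type u) [Field K] [NumberField K], finrank ℚ K = n →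
  ∀ (E : WeierstrassCurve K) (f : HeightOneSpectrum (𝓞 K) → ℂ), (∀ v, ‖f v‖ ≤ 1) →
  ∀ δ δ' t : ℝ, 0 < δ → δ ≤ δ' → δ' ≤ 1 →
    |Real.log ‖LE E f ((3 / 2 + δ' : ℝ) + t * Complex.I)‖ -
      Real.log ‖LE E f ((3 / 2 + δ : ℝ) + t * Complex.I)‖| ≤ C * Real.log (δ' / δ)

/-- LOGDU. -/
theorem stLOGDU_of (n : ℕ) (hLE : StLELOGU.{u} n) (hWL : StWL1U.{u} n) : StLOGDU.{u} n := by
  obtain ⟨A, hA, hLE⟩ := hLE
  obtain ⟨B, hB, hWL⟩ := hWL
  refine ⟨2 * B + A, by positivity, fun K _ _ hK E f hf δ δ' t hδ hδδ hδ1 => ?_⟩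
  have key := abs_le_of_deriv3 (G := fun x => Real.log ‖LE E f ((3 / 2 + x : ℝ) + t * Complex.I)‖)
    (G' := fun x => (logDeriv (LE E f) ((3 / 2 + x : ℝ) + t * Complex.I)).re) (α := 2 * B + A)
    (β := 0) hδ hδδ (fun x hx1 hx2 => ?_) (fun x hx1 hx2 => ?_)
  · rw [Real.log_div (by linarith) (by linarith)]
    simpa using key
  · obtain ⟨h1, h2, -⟩ := hLE K hK E f hf x t (by linarith)
    exact hasDerivAt_log_norm3 h1 h2
  · have hx0 : 0 < x := by linarith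
    rw [zero_div, add_zero]
    refine (Complex.abs_re_le_norm _).trans ?_
    have h1 := (hLE K hK E f hf x t hx0).2.2
    have h2 := norm_CRL_le88 hx0 (hWL K hK x hx0 (by linarith)) (c := fun v => cc E v)
      (fun v => abs_cc_le _ v) hf t
    have h3 := norm_sub_norm_le (logDeriv (LE E f) ((3 / 2 + x : ℝ) + t * Complex.I))
      (-CRL (fun v => cc E v) f x t)
    rw [sub_neg_eq_add, norm_neg] at h3
    have h4 : A ≤ A / x := by
      rw [le_div_iff₀ hx0]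
      nlinarith
    rw [add_div]
    linarith

/-- LOGDU, without hypotheses. -/
theorem stLOGDU (n : ℕ) : StLOGDU.{u} n := stLOGDU_of n (stLELOGU n) (stWL1U n)

end Pool.Agent.Lib.MP_bf61d2_nt.Artin.Ray
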