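import Mathlib
import Pool.Agent.Lib.MP_bf61d2_nt.Trim.Artin.H.DefsH
import Pool.Agent.Lib.MP_bf61d2_nt.Trim.Artin.L.INTL3
import Pool.Agent.Lib.MP_bf61d2_nt.Trim.Artin.L.StmtsL63
import Pool.Agent.Lib.MP_bf61d2_nt.Trim.Artin.R.DefsR
import Pool.Agent.Lib.MP_bf61d2_nt.Trim.Artin.T.DefsT84
import Pool.Agent.Lib.MP_bf61d2_nt.Trim.Artin.UK.LOGRU88
import Pool.Agent.Lib.MP_bf61d2_nt.Trim.Artin.UK.MAINLU88
import Pool.Agent.Lib.MP_bf61d2_nt.Trim.Artin.UK.StmtsU84
import Pool.Agent.Lib.MP_bf61d2_nt.Trim.Joint.Main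
import Pool.Agent.Lib.MP_bf61d2_nt.Trim.Structure

set_option autoImplicit false

/-!
UNIF (MP_bf61d2_nt), module INTLUD: the integrated form, with the logarithm of the logarithm of the
size once and the one of the discriminant `n - 1` times.
-/

namespace NumberField
end NumberField

namespace Pool.Agent.Lib.MP_bf61d2_nt.Zeta
end Pool.Agent.Lib.MP_bf61d2_nt.Zeta

namespace Pool.Agent.Lib.MP_bf61d2_nt.Artin.Ray

open NumberField IsDedekindDomain Filter Topology Module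

open Pool.Agent.Lib.MP_bf61d2_nt.Zeta

open scoped Classical

universe u

/-- INTLUD: the integrated form, uniform in the field. -/
def StINTLUD (n₀ : ℕ) : Prop := ∃ C : ℝ, 0 ≤ C ∧
  ∀ (K : Type u) [Field K] [NumberField K], finrank ℚ K = n₀ →
  ∀ Q : ℝ, 20 ≤ Q → dK K ≤ Q →
  ∀ (E : WeierstrassCurve K) [E.IsElliptic] (δ : ℝ), 0 < δ → δ ≤ 1 / Real.log Q →
  ∀ (n : ℕ) (d : Fin n → ℕ) (𝔪 : Fin n → Ideal (𝓞 K)) (a : Fin n → TA K) (b : Fin n → TB K)
    (ψ : Fin n → (Ideal (𝓞 K) →*₀ ℂ)) (t : Fin n → ℝ), OkFam K Q n d 𝔪 a b ψ t →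
    (∀ i j, i ≠ j → SameTw K (d i) (d j) (𝔪 i) (𝔪 j) (ψ i) (ψ j) →
      1 / Real.log Q ≤ |t i - t j|) →
    ∀ g : Fin n → ℝ, (∀ i, 0 ≤ g i) →
    |∑ i, g i * Real.log ‖LE (qt E (d i : K)) (fun v => ψ i v.asIdeal)
        ((3 / 2 + δ : ℝ) + t i * Complex.I)‖| ≤
      2 * (Real.log (1 / δ) - lq Q) * Real.sqrt (∑ i, g i ^ 2) +
        (2 * lq Q + 2 * (n₀ - 1) * Real.log (Real.log (20 * dK K)) + C) * ∑ i, g i

/-- EDU: the trivial bound for the logarithm, uniform in the field. -/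
def StEDU (n : ℕ) : Prop := ∃ C : ℝ, 0 ≤ C ∧
  ∀ (K : Type u) [Field K] [NumberField K], finrank ℚ K = n →
  ∀ (E : WeierstrassCurve K) (f : HeightOneSpectrum (𝓞 K) → ℂ), (∀ v, ‖f v‖ ≤ 1) →
  ∀ δ t : ℝ, 0 < δ → δ ≤ 2 / Real.log (20 * dK K) →
    |Real.log ‖LE E f ((3 / 2 + δ : ℝ) + t * Complex.I)‖| ≤
      2 * Real.log (1 / δ) + 2 * (n - 1) * Real.log (Real.log (20 * dK K)) + C

/-- EDU. -/
theorem stEDU_of (n : ℕ) (hLE : StLELOGU.{u} n) (hD : StDLU.{u} n) : StEDU.{u} n := by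
  obtain ⟨A₁, hA₁, hLE⟩ := hLE
  obtain ⟨A₂, hA₂, hD⟩ := hD
  obtain ⟨A₃, hA₃, hLOG⟩ := stLOGRU.{u} n
  obtain ⟨A₄, hA₄, hCR⟩ := stCRU.{u} n
  refine ⟨A₃ + A₄ + 2 * n * Real.log 2 + 2 * (2 * A₂ + A₁), by
    have := Real.log_nonneg (show (1 : ℝ) ≤ 2 by norm_num)
    positivity, fun K _ _ hK E f hf δ t hδ hδ2 => ?_⟩
  have hn1 : (1 : ℝ) ≤ n := by
    have : 0 < finrank ℚ K := finrank_pos
    rw [hK] at this
    exact_mod_cast this
  have hd1 := one_le_dK88 K
  set l : ℝ := Real.log (20 * dK K) with hl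
  have hl2 : 2 ≤ l := by
    have h1 : Real.log 20 ≤ l := Real.log_le_log (by norm_num) (by linarith)
    have h2 : (2 : ℝ) ≤ Real.log 20 := by
      rw [Real.le_log_iff_exp_le (by norm_num)]
      have h3 : Real.exp 2 = Real.exp 1 * Real.exp 1 := by rw [← Real.exp_add]; norm_num
      rw [h3]
      have h4 := Real.exp_one_lt_d9
      have h5 := Real.exp_pos 1
      nlinarith
    linarith
  have hl0 : 0 < l := by linarith
  set r₁ : ℝ := 1 / l with hr₁
  have hr₁0 : 0 < r₁ := by positivity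
  have hr₁1 : r₁ ≤ 1 := by
    rw [hr₁, div_le_one hl0]
    linarith
  have hlog2 : 0 ≤ Real.log 2 := Real.log_nonneg (by norm_num)
  have hlog1 : Real.log (1 / r₁) = Real.log l := by rw [hr₁, one_div_one_div]
  -- the bound at any point
  have hpt : ∀ x : ℝ, 0 < x → x ≤ 1 →
      |Real.log ‖LE E f ((3 / 2 + x : ℝ) + t * Complex.I)‖| ≤
        2 * n * Real.log (1 / x) + A₄ + A₃ := by
    intro x hx hx1
    have h2 := hLOG K hK E f hf x t hx
    have h3 := hCR K hK (fun v => cc E v) (fun v => abs_cc_le _ v) f hf x t hx hx1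
    have h5 := Complex.abs_re_le_norm (CR (fun v => cc E v) f x t)
    have h6 := abs_sub_abs_le_abs_sub
      (Real.log ‖LE E f ((3 / 2 + x : ℝ) + t * Complex.I)‖) (CR (fun v => cc E v) f x t).re
    linarith
  rcases le_or_gt δ r₁ with h | h
  · have key := abs_le_of_deriv3
      (G := fun x => Real.log ‖LE E f ((3 / 2 + x : ℝ) + t * Complex.I)‖)
      (G' := fun x => (logDeriv (LE E f) ((3 / 2 + x : ℝ) + t * Complex.I)).re) (α := 2)
      (β := (2 * (A₂ * l) + A₁) * Real.sqrt r₁) hδ h (fun x hx1 hx2 => ?_) (fun x hx1 hx2 => ?_)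
    · have h1 := hpt r₁ hr₁0 hr₁1
      rw [hlog1] at h1
      have h2 : 2 * ((2 * (A₂ * l) + A₁) * Real.sqrt r₁) * (Real.sqrt r₁ - Real.sqrt δ) ≤
          2 * (2 * A₂ + A₁) := by
        have h3 : 0 ≤ Real.sqrt δ := Real.sqrt_nonneg _
        have h4 : 0 ≤ (2 * (A₂ * l) + A₁) * Real.sqrt r₁ := by positivity
        calc 2 * ((2 * (A₂ * l) + A₁) * Real.sqrt r₁) * (Real.sqrt r₁ - Real.sqrt δ) ≤
              2 * ((2 * (A₂ * l) + A₁) * Real.sqrt r₁) * Real.sqrt r₁ := by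
              refine mul_le_mul_of_nonneg_left (by linarith) (by positivity)
          _ = 2 * ((2 * (A₂ * l) + A₁) * (Real.sqrt r₁ * Real.sqrt r₁)) := by ring
          _ = 2 * ((2 * (A₂ * l) + A₁) * r₁) := by rw [Real.mul_self_sqrt hr₁0.le]
          _ = 2 * (2 * A₂ * (l * r₁) + A₁ * r₁) := by ring
          _ ≤ 2 * (2 * A₂ * 1 + A₁ * 1) := by
              have h5 : l * r₁ = 1 := by rw [hr₁]; field_simp
              rw [h5]
              have := mul_le_mul_of_nonneg_left hr₁1 hA₁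
              linarith
          _ = _ := by ring
      have h6 : |Real.log ‖LE E f ((3 / 2 + δ : ℝ) + t * Complex.I)‖| ≤
          |Real.log ‖LE E f ((3 / 2 + r₁ : ℝ) + t * Complex.I)‖| +
          |Real.log ‖LE E f ((3 / 2 + r₁ : ℝ) + t * Complex.I)‖ -
            Real.log ‖LE E f ((3 / 2 + δ : ℝ) + t * Complex.I)‖| := by
        have := abs_sub_abs_le_abs_sub (Real.log ‖LE E f ((3 / 2 + δ : ℝ) + t * Complex.I)‖)
          (Real.log ‖LE E f ((3 / 2 + r₁ : ℝ) + t * Complex.I)‖)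
        rw [abs_sub_comm] at this
        linarith
      have h7 : Real.log (1 / δ) = -Real.log δ := by rw [one_div, Real.log_inv]
      have h8 : Real.log r₁ = -Real.log l := by rw [hr₁, one_div, Real.log_inv]
      rw [h7]
      rw [h8] at key
      have h9 : 0 ≤ 2 * (n : ℝ) * Real.log 2 := by positivity
      have e5 : 2 * (n : ℝ) * Real.log l = 2 * Real.log l + 2 * (n - 1) * Real.log l := by ring
      linarith
    · obtain ⟨h1, h2, -⟩ := hLE K hK E f hf x t (by linarith)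
      exact hasDerivAt_log_norm3 h1 h2
    · have hx0 : 0 < x := by linarith
      have hx1' : x ≤ 1 := by linarith
      refine (Complex.abs_re_le_norm _).trans ?_
      have h1 := (hLE K hK E f hf x t hx0).2.2
      have h2 := norm_CRL_le88 (A := 1 + A₂ * l * x) hx0 (by
        refine (hD K hK x hx0 hx1').trans (le_of_eq ?_)
        rw [← hl]
        field_simp) (c := fun v => cc E v) (fun v => abs_cc_le _ v) hf t
      have h3 := norm_sub_norm_le (logDeriv (LE E f) ((3 / 2 + x : ℝ) + t * Complex.I))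
        (-CRL (fun v => cc E v) f x t)
      rw [sub_neg_eq_add, norm_neg] at h3
      have h4 : 2 * (1 + A₂ * l * x) / x = 2 / x + 2 * (A₂ * l) := by
        field_simp
      rw [h4] at h2
      have h5 : 2 * (A₂ * l) + A₁ ≤ (2 * (A₂ * l) + A₁) * Real.sqrt r₁ / Real.sqrt x := by
        have h6 : 0 < Real.sqrt x := Real.sqrt_pos.mpr hx0
        rw [le_div_iff₀ h6]
        exact mul_le_mul_of_nonneg_left (Real.sqrt_le_sqrt hx2) (by positivity)
      linarith
  · have hδ2' : δ ≤ 2 * r₁ := by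
      rw [hr₁]
      refine hδ2.trans (le_of_eq ?_)
      ring
    have hδ1 : δ ≤ 1 := by
      have : r₁ ≤ 1 / 2 := by
        rw [hr₁]
        exact one_div_le_one_div_of_le (by norm_num) hl2
      linarith
    have h1 := hpt δ hδ hδ1
    have h7 : Real.log (1 / δ) ≤ Real.log l := by
      refine Real.log_le_log (by positivity) ?_
      rw [div_le_iff₀ hδ]
      have : l * r₁ = 1 := by rw [hr₁]; field_simp
      nlinarith
    have h9 : 0 ≤ 2 * (n : ℝ) * Real.log 2 := by positivity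
    have h10 : (n - 1 : ℝ) * Real.log (1 / δ) ≤ (n - 1) * Real.log l :=
      mul_le_mul_of_nonneg_left h7 (by linarith)
    have e : 2 * (n : ℝ) * Real.log (1 / δ) = 2 * Real.log (1 / δ) +
        2 * ((n - 1) * Real.log (1 / δ)) := by ring
    have h11 : 0 ≤ 2 * (2 * A₂ + A₁) := by positivity
    linarith

end Pool.Agent.Lib.MP_bf61d2_nt.Artin.Ray
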