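import Mathlib
import Pool.Agent.Lib.MP_bf61d2_nt.Trim.Artin.Defs63
import Pool.Agent.Lib.MP_bf61d2_nt.Trim.Artin.H.DefsH
import Pool.Agent.Lib.MP_bf61d2_nt.Trim.Artin.L.BESLT73
import Pool.Agent.Lib.MP_bf61d2_nt.Trim.Artin.L.StmtsL63
import Pool.Agent.Lib.MP_bf61d2_nt.Trim.Artin.R.DefsR
import Pool.Agent.Lib.MP_bf61d2_nt.Trim.Artin.UK.StmtsU84
import Pool.Agent.Lib.MP_bf61d2_nt.Trim.Places

set_option autoImplicit false

/-!
UNIF (MP_bf61d2_nt), modules DLU and BESLU: the sum of the weights and the one sided inequality of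
Bessel, with constants that depend only on the degree of the number field.
-/

namespace NumberField
end NumberField

namespace Pool.Agent.Lib.MP_bf61d2_nt.Artin.Ray

open NumberField IsDedekindDomain Filter Topology Module

open scoped ComplexConjugate

universe u

/-- The discriminant is not zero. -/
lemma one_le_dK73 (K : Type u) [Field K] [NumberField K] : 1 ≤ dK K := by
  rw [dK]
  have h1 : (1 : ℤ) ≤ |discr K| := Int.one_le_abs (discr_ne_zero K)
  exact_mod_cast h1

/-- DLU: the sum of the weights. -/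
theorem stDLU_of (n : ℕ) (hONE : StONELU.{u} n) : StDLU.{u} n := by
  obtain ⟨A, hA, h⟩ := hONE
  refine ⟨A, hA, fun K _ _ hn δ hδ hδ1 => ?_⟩
  have h1 := (h K hn ⊤ 1 (trivL73 K) (isHk_trivL73 K) δ 0 hδ hδ1).1
  have e1 : PSL (trivL73 K) δ 0 = ((∑' v : HeightOneSpectrum (𝓞 K), wl δ v : ℝ) : ℂ) := by
    rw [PSL, WL, Complex.ofReal_tsum]
    refine tsum_congr fun v => ?_
    rw [trivL73_apply K v.ne_bot]
    simp [ph]
  rw [e1, Complex.ofReal_re] at h1
  have e2 : δ / (δ ^ 2 + 0 ^ 2) = 1 / δ := by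
    field_simp
    ring
  rw [e2, Nat.cast_one, one_mul, abs_zero, zero_add] at h1
  rwa [mul_comm (20 : ℝ)]

end Pool.Agent.Lib.MP_bf61d2_nt.Artin.Ray
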