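import Mathlib
import Pool.Agent.Lib.MP_bf61d2_nt.Trim.Zeta.Lattice

set_option autoImplicit false

/-!
UNIF, module COSU: representatives of the cosets of a sublattice of full rank.
-/

namespace NumberField
end NumberField

namespace Pool.Agent.Lib.MP_bf61d2_nt.Zeta
end Pool.Agent.Lib.MP_bf61d2_nt.Zeta

namespace Pool.Agent.Lib.MP_bf61d2_nt.Artin.Ray

open NumberField NumberField.mixedEmbedding NumberField.Units NumberField.InfinitePlace

open IsDedekindDomain Module MeasureTheory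

open Pool.Agent.Lib.MP_bf61d2_nt.Zeta

open scoped Classical nonZeroDivisors

universe u

section General

variable {E : Type*} [NormedAddCommGroup E] [NormedSpace ℝ E]

variable {ι : Type*} [Fintype ι]

/-- The points of the lattice as a group homomorphism. -/
noncomputable def ptH3 (b : Basis ι ℝ E) : (ι → ℤ) →+ E :=
  AddMonoidHom.mk' (pt b) (pt_add b)

lemma pt_sum_zsmul3 {n : ℕ} (b : Basis ι ℝ E) (v : Fin n → (ι → ℤ)) (z : Fin n → ℤ) :
    pt b (∑ i, z i • v i) = ∑ i, (z i : ℝ) • pt b (v i) := by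
  have h := map_sum (ptH3 b) (fun i => z i • v i) Finset.univ
  have h2 : ∀ a, ptH3 b a = pt b a := fun a => rfl
  rw [h2] at h
  rw [h]
  refine Finset.sum_congr rfl fun i _ => ?_
  rw [map_zsmul, h2, Int.cast_smul_eq_zsmul]

/-- Only finitely many lattice points are in a ball. -/
lemma finite_pt_le3 [FiniteDimensional ℝ E] (b : Basis ι ℝ E) (r : ℝ) :
    {a : ι → ℤ | ‖pt b a‖ ≤ r}.Finite := by
  obtain ⟨M, hM⟩ : ∃ M : ℝ, ∀ x : E, ∀ i, |b.repr x i| ≤ M * ‖x‖ := by
    let f : E →ₗ[ℝ] (ι → ℝ) := (b.equivFun : E →ₗ[ℝ] (ι → ℝ))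
    refine ⟨‖LinearMap.toContinuousLinearMap f‖, fun x i => ?_⟩
    have h1 := (LinearMap.toContinuousLinearMap f).le_opNorm x
    have h2 : ‖(LinearMap.toContinuousLinearMap f x) i‖ ≤ ‖LinearMap.toContinuousLinearMap f x‖ :=
      norm_le_pi_norm _ i
    exact le_trans (le_of_eq rfl) (le_trans h2 h1)
  have h3 : {a : ι → ℤ | ‖pt b a‖ ≤ r} ⊆
      Set.pi Set.univ fun _ : ι => Set.Icc (-⌈|M| * r⌉) ⌈|M| * r⌉ := by
    intro a ha i _
    have ha' : ‖pt b a‖ ≤ r := ha
    have h4 : b.repr (pt b a) i = a i := by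
      have : b.repr (∑ j, (a j : ℝ) • b j) i = (fun j => (a j : ℝ)) i := by
        rw [b.repr_sum_self]
      exact this
    have h5 := hM (pt b a) i
    rw [h4] at h5
    have h6 : |(a i : ℝ)| ≤ |M| * r := by
      refine h5.trans ?_
      refine (mul_le_mul_of_nonneg_right (le_abs_self M) (norm_nonneg _)).trans ?_
      exact mul_le_mul_of_nonneg_left ha' (abs_nonneg _)
    have h7 : |(a i : ℝ)| ≤ (⌈|M| * r⌉ : ℝ) := h6.trans (Int.le_ceil _)
    have h8 := abs_le.mp h7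
    exact ⟨by exact_mod_cast h8.1, by exact_mod_cast h8.2⟩
  exact (Set.Finite.pi' fun _ => Set.finite_Icc _ _).subset (by
    intro a ha i
    exact h3 ha i (Set.mem_univ _))

/-- The cosets of a sublattice, general form. -/
theorem cosets3 [FiniteDimensional ℝ E] {n : ℕ} (hn : finrank ℝ E = n) (b : Basis ι ℝ E)
    (v : Fin n → (ι → ℤ)) (hv : LinearIndependent ℝ (fun i => pt b (v i))) (ρ : ℝ)
    (hρ : ∀ i, ‖pt b (v i)‖ ≤ ρ) :
    ∃ (R : Finset (ι → ℤ)) (e : R × (Fin n → ℤ) ≃ (ι → ℤ)),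
      (∀ r z, e (r, z) = (r : ι → ℤ) + ∑ i, z i • v i) ∧ ∀ r ∈ R, ‖pt b r‖ ≤ n * ρ := by
  let B : Basis (Fin n) ℝ E := basisOfLinearIndependentOfCardEqFinrank' _ hv (by simp [hn])
  have hB : ∀ i, B i = pt b (v i) := by
    intro i
    simp [B]
  let c : (ι → ℤ) → Fin n → ℝ := fun a i => B.repr (pt b a) i
  have hc : ∀ a, pt b a = ∑ i, c a i • pt b (v i) := by
    intro a
    conv_lhs => rw [← B.sum_repr (pt b a)]
    exact Finset.sum_congr rfl fun i _ => by rw [hB]
  have hcv : ∀ (a : ι → ℤ) (z : Fin n → ℤ) (i : Fin n),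
      c (a + ∑ j, z j • v j) i = c a i + z i := by
    intro a z i
    have h1 : pt b (a + ∑ j, z j • v j) = pt b a + ∑ j, (z j : ℝ) • B j := by
      rw [pt_add, pt_sum_zsmul3]
      simp only [hB]
    show B.repr (pt b (a + ∑ j, z j • v j)) i = _
    rw [h1, map_add, Finsupp.add_apply, B.repr_sum_self]
  let S : Set (ι → ℤ) := {a | ∀ i, ⌊c a i⌋ = 0}
  have hSn : ∀ a ∈ S, ‖pt b a‖ ≤ n * ρ := by
    intro a ha
    rw [hc a]
    refine (norm_sum_le _ _).trans ?_
    have : ∀ i ∈ (Finset.univ : Finset (Fin n)), ‖c a i • pt b (v i)‖ ≤ ρ := by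
      intro i _
      have h1 := ha i
      rw [Int.floor_eq_zero_iff] at h1
      rw [_root_.norm_smul, Real.norm_eq_abs, abs_of_nonneg h1.1]
      have h2 := norm_nonneg (pt b (v i))
      calc c a i * ‖pt b (v i)‖ ≤ 1 * ‖pt b (v i)‖ :=
            mul_le_mul_of_nonneg_right h1.2.le h2
        _ ≤ ρ := by rw [one_mul]; exact hρ i
    refine (Finset.sum_le_sum this).trans ?_
    simp
  have hSf : S.Finite := (finite_pt_le3 b (n * ρ)).subset hSn
  let R : Finset (ι → ℤ) := hSf.toFinset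
  have hR : ∀ a, a ∈ R ↔ ∀ i, ⌊c a i⌋ = 0 := fun a => by
    simp [R, S]
  let fl : (ι → ℤ) → (Fin n → ℤ) := fun a i => ⌊c a i⌋
  have hrep : ∀ a, a - ∑ i, fl a i • v i ∈ R := by
    intro a
    rw [hR]
    intro i
    have h1 : a - ∑ i, fl a i • v i = a + ∑ j, (fun k => - fl a k) j • v j := by
      rw [sub_eq_add_neg, ← Finset.sum_neg_distrib]
      congr 1
      exact Finset.sum_congr rfl fun j _ => by rw [neg_smul]
    rw [h1, hcv a (fun k => - fl a k) i]
    have h2 : c a i + ((-fl a i : ℤ) : ℝ) = Int.fract (c a i) := by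
      rw [Int.fract]
      push_cast
      simp [fl, sub_eq_add_neg]
    rw [h2, Int.floor_fract]
  have hfl : ∀ (r : ι → ℤ) (_ : r ∈ R) (z : Fin n → ℤ), fl (r + ∑ i, z i • v i) = z := by
    intro r hr z
    funext i
    show ⌊c (r + ∑ j, z j • v j) i⌋ = z i
    rw [hcv, Int.floor_add_intCast, (hR r).mp hr i, zero_add]
  refine ⟨R, ⟨fun p => (p.1 : ι → ℤ) + ∑ i, p.2 i • v i,
    fun a => (⟨a - ∑ i, fl a i • v i, hrep a⟩, fl a), ?_, ?_⟩, ?_, ?_⟩
  · rintro ⟨⟨r, hr⟩, z⟩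
    have h := hfl r hr z
    refine Prod.ext (Subtype.ext ?_) h
    show r + ∑ i, z i • v i - ∑ i, fl (r + ∑ i, z i • v i) i • v i = r
    rw [h]
    abel
  · intro a
    show a - ∑ i, fl a i • v i + ∑ i, fl a i • v i = a
    abel
  · intro r z
    rfl
  · intro r hr
    exact hSn r ((hR r).mp hr)

end General

end Pool.Agent.Lib.MP_bf61d2_nt.Artin.Ray
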