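import Mathlib
import Pool.Agent.Lib.MP_bf61d2_nt.Trim.Artin.H.DefsH
import Pool.Agent.Lib.MP_bf61d2_nt.Trim.Artin.H.StmtsH
import Pool.Agent.Lib.MP_bf61d2_nt.Trim.Artin.R.DefsR
import Pool.Agent.Lib.MP_bf61d2_nt.Trim.Artin.U2.SHORT33
import Pool.Agent.Lib.MP_bf61d2_nt.Trim.Artin.UK.StmtsU84
import Pool.Agent.Lib.MP_bf61d2_nt.Trim.Zeta.ClassSum
import Pool.Agent.Lib.MP_bf61d2_nt.Trim.Zeta.Lattice
import Pool.Agent.Lib.MP_bf61d2_nt.Trim.Zeta.Unfold

set_option autoImplicit false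

/-!
UNIF (MP_bf61d2_nt), module GROWU: the continuation and the growth of the Dirichlet series of a
Hecke character, uniform in the number field of given degree.
-/

namespace NumberField
end NumberField

namespace Pool.Agent.Lib.MP_bf61d2_nt.Zeta
end Pool.Agent.Lib.MP_bf61d2_nt.Zeta

namespace Pool.Agent.Lib.MP_bf61d2_nt.Artin.Ray

open NumberField NumberField.mixedEmbedding NumberField.Units NumberField.InfinitePlace

open NumberField.Units.dirichletUnitTheorem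

open IsDedekindDomain Module

open Pool.Agent.Lib.MP_bf61d2_nt.Zeta

open scoped Classical nonZeroDivisors

universe u

namespace GU38

variable {K : Type u} [Field K] [NumberField K]

lemma sum_mult_ex (y : logSpace K) : ∑ w : InfinitePlace K, (mult w : ℝ) * ex y w = 0 := by
  have hm : ∀ w : InfinitePlace K, (mult w : ℝ) ≠ 0 := fun w => by
    have := mult_pos (w := w)
    positivity
  rw [Fintype.sum_eq_add_sum_subtype_ne _ (w₀ : InfinitePlace K)]
  have h1 : (mult (w₀ : InfinitePlace K) : ℝ) * ex y (w₀ : InfinitePlace K) =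
      -∑ w' : {w : InfinitePlace K // w ≠ w₀}, y w' := by
    rw [ex, dif_neg (by simp), mul_div_cancel₀ _ (hm _)]
  have h2 : ∀ w : {w : InfinitePlace K // w ≠ w₀}, (mult (w : InfinitePlace K) : ℝ) * ex y w =
      y w := fun w => by
    rw [ex, dif_pos w.2, mul_div_cancel₀ _ (hm _)]
  rw [h1, Finset.sum_congr rfl fun w _ => h2 w]
  exact neg_add_cancel _

lemma one_le_dK : 1 ≤ dK K := by
  have h1 : (1 : ℤ) ≤ |discr K| := Int.one_le_abs (discr_ne_zero K)
  rw [dK, ← Int.cast_abs]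
  exact_mod_cast h1

end GU38

theorem stGROWU_of (n : ℕ) (hBAS : ∀ (K : Type u) [Field K] [NumberField K], StBASH K)
    (hPER : ∀ (K : Type u) [Field K] [NumberField K], StPERH K)
    (hUNF : ∀ (K : Type u) [Field K] [NumberField K], StUNFU K)
    (hLI : ∀ (K : Type u) [Field K] [NumberField K], StLIRU K)
    (hLAT : StLATU.{u} n) (hHR : StHRU.{u} n) (hRE : StREPR.{u} n) : StGROWU.{u} n := by
  obtain ⟨A₁, k₁, hA₁, hLAT⟩ := hLAT
  obtain ⟨A₂, k₂, hA₂, hHR⟩ := hHR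
  obtain ⟨A₃, hA₃, hRE⟩ := hRE
  obtain ⟨C₄, hC₄, hSH⟩ := short33.{u} n
  refine ⟨1 / (4 * n + 2), 2 * A₂ * A₃ ^ 2 * A₁ * (C₄ * A₃ ^ (n + 1)) ^ k₁,
    k₂ + 2 + (3 * n + 4) * k₁, by positivity, ?_, ?_, ?_⟩
  · rw [div_lt_one (by positivity)]
    have : (0 : ℝ) ≤ n := Nat.cast_nonneg n
    linarith
  · have h1 : 1 ≤ (C₄ * A₃ ^ (n + 1)) ^ k₁ :=
      one_le_pow₀ (one_le_mul_of_one_le_of_one_le hC₄ (one_le_pow₀ hA₃))
    have h2 : 1 ≤ A₃ ^ 2 := one_le_pow₀ hA₃
    have h3 : 1 ≤ 2 * A₂ := by linarith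
    exact one_le_mul_of_one_le_of_one_le (one_le_mul_of_one_le_of_one_le
      (one_le_mul_of_one_le_of_one_le h3 h2) hA₁) h1
  intro K _ _ hn 𝔪 h𝔪 α' β' ψ hψ
  have hn0 : 0 < n := hn ▸ finrank_pos
  have hnR : (1 : ℝ) ≤ n := by exact_mod_cast hn0
  have hd1 : 1 ≤ dK K := GU38.one_le_dK
  have hgUV : gU n ≤ gV n := by
    unfold gU gV
    have : 1 / (4 * (n : ℝ)) ≤ 1 / (2 * n) :=
      one_div_le_one_div_of_le (by positivity) (by linarith)
    linarith
  have hgV : gV n < 1 - 1 / (4 * n + 2) := by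
    unfold gV
    have : 1 / (4 * (n : ℝ) + 2) < 1 / (4 * n) :=
      one_div_lt_one_div_of_lt (by positivity) (by linarith)
    linarith
  choose J hJ hJN using fun C : ClassGroup (𝓞 K) => hRE K hn C⁻¹
  set bs := fun C => fractionalIdealLatticeBasis K (FractionalIdeal.mk0 K (J C)) with hbs
  have hb : ∀ C, IsBasisOf (J C) (bs C) := fun C => isBasisOf_fractionalIdealLatticeBasis (J C)
  have hN : ∀ C, ∀ a : Free.ChooseBasisIndex ℤ
      (FractionalIdeal.mk0 K (J C) : FractionalIdeal (𝓞 K)⁰ K) → ℤ, a ≠ 0 →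
      1 ≤ mixedEmbedding.norm (pt (bs C) a) := fun C a ha => one_le_norm_pt (hb C) ha
  have hen : ∀ n : ℕ, Differentiable ℂ fun s => en s n := by
    intro n
    unfold en
    fun_prop
  have hw : (torsionOrder K : ℂ) ≠ 0 := Nat.cast_ne_zero.mpr (torsionOrder_ne_zero K)
  have hw1 : (1 : ℝ) ≤ torsionOrder K := by
    exact_mod_cast Nat.one_le_iff_ne_zero.mpr (torsionOrder_ne_zero K)
  obtain ⟨N, Phi, V, y, hbump, hVsum, hunf⟩ := hUNF K
  have hV0 : ∀ j, 0 ≤ V j := fun j => (abs_nonneg _).trans ((hbump j).1 0)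
  obtain ⟨hψ1, -⟩ := hBAS K 𝔪 h𝔪 α' β' ψ hψ
  have hβ0 : ∑ w, β' w = 0 := hψ.1
  have hsz : 1 ≤ sz α' β' := by
    rw [sz]
    have h1 : 0 ≤ ∑ w : {w : InfinitePlace K // w.IsComplex}, |(α' w : ℝ)| :=
      Finset.sum_nonneg fun _ _ => abs_nonneg _
    have h2 : 0 ≤ ∑ w : InfinitePlace K, |β' w| := Finset.sum_nonneg fun _ _ => abs_nonneg _
    linarith
  set m : ℕ := Ideal.absNorm 𝔪 with hm
  have hm0 : m ≠ 0 := by
    rw [hm, Ne, Ideal.absNorm_eq_zero_iff]
    exact h𝔪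
  have hm1 : (1 : ℝ) ≤ m := by exact_mod_cast Nat.one_le_iff_ne_zero.mpr hm0
  choose P hP1 hPT hPI using fun C => hPER K 𝔪 h𝔪 α' β' ψ hψ (J C) _ (bs C) (hb C)
  have hJ0 : ∀ C, (J C : Ideal (𝓞 K)) ≠ ⊥ := fun C => nonZeroDivisors.coe_ne_zero (J C)
  have hmJ0 : ∀ C, 𝔪 * (J C : Ideal (𝓞 K)) ≠ ⊥ := fun C => mul_ne_zero h𝔪 (hJ0 C)
  set ρ : ClassGroup (𝓞 K) → ℝ := fun C =>
    C₄ * (dK K * (Ideal.absNorm (𝔪 * (J C : Ideal (𝓞 K))) : ℝ)) ^ (n + 1) with hρ
  have hNm : ∀ C, (1 : ℝ) ≤ (Ideal.absNorm (𝔪 * (J C : Ideal (𝓞 K))) : ℝ) := fun C => by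
    have : Ideal.absNorm (𝔪 * (J C : Ideal (𝓞 K))) ≠ 0 := by
      rw [Ne, Ideal.absNorm_eq_zero_iff]
      exact hmJ0 C
    exact_mod_cast Nat.one_le_iff_ne_zero.mpr this
  have hρ1 : ∀ C, 1 ≤ ρ C := fun C =>
    one_le_mul_of_one_le_of_one_le hC₄
      (one_le_pow₀ (one_le_mul_of_one_le_of_one_le hd1 (hNm C)))
  -- the short vectors
  choose vv hvm hvi hvn using fun (C : ClassGroup (𝓞 K)) (j : Fin N) =>
    hSH K hn (𝔪 * (J C : Ideal (𝓞 K))) (hmJ0 C) (ex (y j)) (GU38.sum_mult_ex (y j))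
  choose T hT using fun (C : ClassGroup (𝓞 K)) (j : Fin N) (i : Fin n) =>
    (hb C (mixedEmbedding K (vv C j i : K))).mpr
      ⟨vv C j i, Ideal.mul_le_right (hvm C j i), rfl⟩
  have hTli : ∀ C j, LinearIndependent ℝ (fun i => pt (bs C) (T C j i)) := fun C j => by
    have h1 := hLI K n (vv C j) (hvi C j)
    have h2 : (fun i => pt (bs C) (T C j i)) = fun i => mixedEmbedding K (vv C j i : K) :=
      funext (hT C j)
    rw [h2]
    exact h1
  have hTn : ∀ C j i w, normAtPlace w (pt (bs C) (T C j i)) ≤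
      ρ C * Real.exp (ex (y j) w) := fun C j i w => by
    rw [hT C j i, normAtPlace_apply]
    exact hvn C j i w
  have hTP : ∀ C j σ a i, P C σ (a + T C j i) = P C σ a := fun C j σ a i =>
    hPT C σ a _ ⟨vv C j i, hvm C j i, (hT C j i).symm⟩
  choose H hHd hHs hHb using fun (C : ClassGroup (𝓞 K)) (j : Fin N) =>
    hLAT K hn _ (bs C) (hN C) (Phi j) (V j) (y j) (hbump j) (T C j) (hTli C j) (ρ C) (hρ1 C)
      (hTn C j) α' β' hβ0 (P C) (hP1 C) (hTP C j)
  refine ⟨fun s => ∑ C, (torsionOrder K * en s (Ideal.absNorm (J C : Ideal (𝓞 K))))⁻¹ *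
    ∑ j, H C j s, ?_, ?_, ?_⟩
  · refine DifferentiableOn.fun_sum fun C _ => ?_
    refine DifferentiableOn.mul ?_ (DifferentiableOn.fun_sum fun j _ =>
      (hHd C j).mono fun s hs => ?_)
    · refine Differentiable.differentiableOn ?_
      exact (Differentiable.fun_mul (differentiable_const _) (hen _)).fun_inv
        fun s => mul_ne_zero hw (en_ne_zero _ _)
    · have h1 : 1 - 1 / (4 * (n : ℝ) + 2) < s.re := hs
      show gU n < s.re
      linarith
  · intro s hs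
    have u1 := hunf (ψ : Ideal (𝓞 K) → ℂ) hψ1 J hJ _ bs hb
      (fun C a => P C (sgn (pt (bs C) a)) a * lamX α' β' (pt (bs C) a))
      (fun C a α I h0 h1 h2 => hPI C a α I h0 h1 h2) s hs
    rw [u1, Finset.mul_sum]
    refine Finset.sum_congr rfl fun C _ => ?_
    rw [Finset.sum_congr rfl fun j _ => hHs C j s hs, ← Finset.mul_sum]
    ring
  · intro s hs hs2
    have ht1 : 1 ≤ 1 + |s.im| := by linarith [abs_nonneg s.im]
    set Y : ℝ := sz α' β' * (1 + |s.im|) with hY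
    have hY1 : 1 ≤ Y := one_le_mul_of_one_le_of_one_le hsz ht1
    set X : ℝ := dK K * (m * Y) with hX
    have hmY : 1 ≤ m * Y := one_le_mul_of_one_le_of_one_le hm1 hY1
    have hX1 : 1 ≤ X := one_le_mul_of_one_le_of_one_le hd1 hmY
    have hX0 : 0 ≤ X := by linarith
    have hdX : dK K ≤ X := le_mul_of_one_le_right (by linarith) hmY
    have hmX : (m : ℝ) ≤ X :=
      (le_mul_of_one_le_right (by linarith) hY1).trans (le_mul_of_one_le_left (by linarith) hd1)
    have hYX : Y ≤ X :=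
      (le_mul_of_one_le_left (by linarith) hm1).trans (le_mul_of_one_le_left (by linarith) hd1)
    have hd0 : 0 ≤ dK K := by linarith
    -- the radius
    have hρX : ∀ C, ρ C ≤ C₄ * (A₃ * X ^ 3) ^ (n + 1) := fun C => by
      refine mul_le_mul_of_nonneg_left ?_ (by linarith)
      have hNn : (0 : ℝ) ≤ (Ideal.absNorm (𝔪 * (J C : Ideal (𝓞 K))) : ℝ) := Nat.cast_nonneg _
      refine pow_le_pow_left₀ (mul_nonneg hd0 hNn) ?_ _
      rw [map_mul, Nat.cast_mul, ← hm]
      calc dK K * ((m : ℝ) * (Ideal.absNorm (J C : Ideal (𝓞 K)) : ℝ)) ≤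
            X * (X * (A₃ * X)) := by
            refine mul_le_mul hdX ?_ (by positivity) hX0
            refine mul_le_mul hmX ?_ (by positivity) hX0
            exact (hJN C).trans (mul_le_mul_of_nonneg_left hdX (by linarith))
        _ = A₃ * X ^ 3 := by ring
    have hbase : ∀ C, A₁ * (ρ C * Y) ^ k₁ ≤
        A₁ * ((C₄ * A₃ ^ (n + 1)) ^ k₁ * X ^ ((3 * n + 4) * k₁)) := fun C => by
      refine mul_le_mul_of_nonneg_left ?_ (by linarith)
      have hρ0 : 0 ≤ ρ C := by linarith [hρ1 C]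
      have h1 : ρ C * Y ≤ C₄ * A₃ ^ (n + 1) * X ^ (3 * n + 4) := by
        calc ρ C * Y ≤ C₄ * (A₃ * X ^ 3) ^ (n + 1) * X :=
              mul_le_mul (hρX C) hYX (by linarith) (by positivity)
          _ = _ := by
              rw [mul_pow, ← pow_mul]
              ring
      calc (ρ C * Y) ^ k₁ ≤ (C₄ * A₃ ^ (n + 1) * X ^ (3 * n + 4)) ^ k₁ :=
            pow_le_pow_left₀ (mul_nonneg hρ0 (by linarith)) h1 _
        _ = _ := by rw [mul_pow, ← pow_mul]
    set B : ℝ := A₁ * ((C₄ * A₃ ^ (n + 1)) ^ k₁ * X ^ ((3 * n + 4) * k₁)) with hB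
    have hB0 : 0 ≤ B := by positivity
    have hj : ∀ C, ‖∑ j, H C j s‖ ≤ 2 * regulator K * B := fun C => by
      calc ‖∑ j, H C j s‖ ≤ ∑ j, V j * B := by
            refine (norm_sum_le _ _).trans (Finset.sum_le_sum fun j _ => ?_)
            refine (hHb C j s (by linarith) hs2.le).trans ?_
            exact mul_le_mul_of_nonneg_left (hbase C) (hV0 j)
        _ = (∑ j, V j) * B := by rw [Finset.sum_mul]
        _ ≤ 2 * regulator K * B := mul_le_mul_of_nonneg_right hVsum hB0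
    have hC2 : ∀ C, ‖(torsionOrder K * en s (Ideal.absNorm (J C : Ideal (𝓞 K))))⁻¹‖ ≤
        A₃ ^ 2 * X ^ 2 := fun C => by
      have hJ1 : (1 : ℝ) ≤ (Ideal.absNorm (J C : Ideal (𝓞 K)) : ℝ) := by
        have : Ideal.absNorm (J C : Ideal (𝓞 K)) ≠ 0 := by
          rw [Ne, Ideal.absNorm_eq_zero_iff]
          exact hJ0 C
        exact_mod_cast Nat.one_le_iff_ne_zero.mpr this
      have h8 : 0 ≤ Real.log (Ideal.absNorm (J C : Ideal (𝓞 K))) := Real.log_natCast_nonneg _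
      have h9 : (torsionOrder K : ℝ)⁻¹ ≤ 1 := inv_le_one_of_one_le₀ hw1
      rw [norm_inv, norm_mul, Complex.norm_natCast, en, Complex.norm_exp, mul_inv, ← Real.exp_neg]
      have h10 : -(-(s * (Real.log (Ideal.absNorm (J C : Ideal (𝓞 K))) : ℂ))).re =
          s.re * Real.log (Ideal.absNorm (J C : Ideal (𝓞 K))) := by
        rw [Complex.neg_re, neg_neg, Complex.re_mul_ofReal]
      rw [h10]
      calc (torsionOrder K : ℝ)⁻¹ *
            Real.exp (s.re * Real.log (Ideal.absNorm (J C : Ideal (𝓞 K))))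
          ≤ 1 * Real.exp (2 * Real.log (Ideal.absNorm (J C : Ideal (𝓞 K)))) :=
            mul_le_mul h9 (Real.exp_le_exp.mpr (mul_le_mul_of_nonneg_right hs2.le h8))
              (Real.exp_pos _).le zero_le_one
        _ = (Ideal.absNorm (J C : Ideal (𝓞 K)) : ℝ) ^ 2 := by
            rw [one_mul, mul_comm, Real.exp_mul, Real.exp_log (by linarith)]
            norm_num
        _ ≤ (A₃ * X) ^ 2 := by
            refine pow_le_pow_left₀ (by linarith) ?_ _
            exact (hJN C).trans (mul_le_mul_of_nonneg_left hdX (by linarith))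
        _ = _ := by ring
    have hreg : 0 < regulator K := regulator_pos K
    have hfin : ‖∑ C, (torsionOrder K * en s (Ideal.absNorm (J C : Ideal (𝓞 K))))⁻¹ *
        ∑ j, H C j s‖ ≤ (classNumber K : ℝ) * (A₃ ^ 2 * X ^ 2 * (2 * regulator K * B)) := by
      refine (norm_sum_le _ _).trans ?_
      have h1 : ∑ C : ClassGroup (𝓞 K), ‖(torsionOrder K *
          en s (Ideal.absNorm (J C : Ideal (𝓞 K))))⁻¹ * ∑ j, H C j s‖ ≤
          ∑ _C : ClassGroup (𝓞 K), A₃ ^ 2 * X ^ 2 * (2 * regulator K * B) := by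
        refine Finset.sum_le_sum fun C _ => ?_
        rw [norm_mul]
        exact mul_le_mul (hC2 C) (hj C) (norm_nonneg _) (by positivity)
      refine h1.trans (le_of_eq ?_)
      rw [Finset.sum_const, Finset.card_univ, nsmul_eq_mul, classNumber]
    refine hfin.trans ?_
    have hHRK := hHR K hn
    calc (classNumber K : ℝ) * (A₃ ^ 2 * X ^ 2 * (2 * regulator K * B)) =
          ((classNumber K : ℝ) * regulator K) * (2 * A₃ ^ 2 * X ^ 2 * B) := by ring
      _ ≤ (A₂ * X ^ k₂) * (2 * A₃ ^ 2 * X ^ 2 * B) := by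
          refine mul_le_mul_of_nonneg_right (hHRK.trans ?_) (by positivity)
          exact mul_le_mul_of_nonneg_left (pow_le_pow_left₀ hd0 hdX _) (by linarith)
      _ = 2 * A₂ * A₃ ^ 2 * A₁ * (C₄ * A₃ ^ (n + 1)) ^ k₁ *
          X ^ (k₂ + 2 + (3 * n + 4) * k₁) := by
          rw [hB, pow_add, pow_add]
          ring

end Pool.Agent.Lib.MP_bf61d2_nt.Artin.Ray
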