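import Mathlib
import Pool.Agent.Lib.MP_bf61d2_nt.Trim.Artin.H.DefsH
import Pool.Agent.Lib.MP_bf61d2_nt.Trim.Artin.H.LATH49
import Pool.Agent.Lib.MP_bf61d2_nt.Trim.Artin.R.DefsR
import Pool.Agent.Lib.MP_bf61d2_nt.Trim.Artin.UK.COSU3
import Pool.Agent.Lib.MP_bf61d2_nt.Trim.Artin.UK.GROWU38
import Pool.Agent.Lib.MP_bf61d2_nt.Trim.Artin.UK.StmtsU84
import Pool.Agent.Lib.MP_bf61d2_nt.Trim.Zeta.Lattice

set_option autoImplicit false

/-!
UNIF, module LATU: the lattice sums over a whole lattice, from the sums over the cosets of a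
sublattice; the rescaling by `scl`.
-/

namespace NumberField
end NumberField

namespace Pool.Agent.Lib.MP_bf61d2_nt.Zeta
end Pool.Agent.Lib.MP_bf61d2_nt.Zeta

namespace Pool.Agent.Lib.MP_bf61d2_nt.Artin.Ray.SC3
end Pool.Agent.Lib.MP_bf61d2_nt.Artin.Ray.SC3

namespace Pool.Agent.Lib.MP_bf61d2_nt.Artin.Ray

open NumberField NumberField.mixedEmbedding NumberField.Units NumberField.InfinitePlace

open NumberField.mixedEmbedding.fundamentalCone NumberField.Units.dirichletUnitTheorem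

open IsDedekindDomain Module MeasureTheory

open Pool.Agent.Lib.MP_bf61d2_nt.Zeta

open scoped Classical nonZeroDivisors

universe u

namespace SC3

section Scl

variable {K : Type u} [Field K] [NumberField K]

lemma scl_fst (y : logSpace K) (x : mixedSpace K) (w : {w : InfinitePlace K // w.IsReal}) :
    (scl y x).1 w = Real.exp (-(ex y w.1)) * x.1 w := rfl

lemma scl_snd (y : logSpace K) (x : mixedSpace K) (w : {w : InfinitePlace K // w.IsComplex}) :
    (scl y x).2 w = (Real.exp (-(ex y w.1)) : ℂ) * x.2 w := by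
  have : (scl y x).2 w = Real.exp (-(ex y w.1)) • x.2 w := rfl
  rw [this, Complex.real_smul]

lemma normAtPlace_scl (y : logSpace K) (w : InfinitePlace K) (x : mixedSpace K) :
    normAtPlace w (scl y x) = Real.exp (-(ex y w)) * normAtPlace w x := by
  rcases isReal_or_isComplex w with hw | hw
  · rw [normAtPlace_apply_of_isReal hw, normAtPlace_apply_of_isReal hw, scl_fst, norm_mul,
      Real.norm_eq_abs, abs_of_pos (Real.exp_pos _)]
  · rw [normAtPlace_apply_of_isComplex hw, normAtPlace_apply_of_isComplex hw, scl_snd, norm_mul,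
      Complex.norm_real, Real.norm_eq_abs, abs_of_pos (Real.exp_pos _)]

lemma norm_scl (y : logSpace K) (x : mixedSpace K) :
    mixedEmbedding.norm (scl y x) = mixedEmbedding.norm x := by
  rw [mixedEmbedding.norm_apply, mixedEmbedding.norm_apply]
  simp only [normAtPlace_scl, mul_pow, Finset.prod_mul_distrib]
  have h : ∏ w : InfinitePlace K, Real.exp (-(ex y w)) ^ mult w = 1 := by
    have h1 : ∀ w : InfinitePlace K, Real.exp (-(ex y w)) ^ mult w =
        Real.exp (-((mult w : ℝ) * ex y w)) := by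
      intro w
      rw [← Real.exp_nat_mul]
      congr 1
      ring
    simp only [h1]
    rw [← Real.exp_sum, Finset.sum_neg_distrib, GU38.sum_mult_ex, neg_zero, Real.exp_zero]
  rw [h, one_mul]

lemma normAtPlace_ne_zero {x : mixedSpace K} (hx : mixedEmbedding.norm x ≠ 0)
    (w : InfinitePlace K) : normAtPlace w x ≠ 0 := by
  intro h
  apply hx
  rw [mixedEmbedding.norm_apply]
  refine Finset.prod_eq_zero (Finset.mem_univ w) ?_
  rw [h, zero_pow]
  exact mult_ne_zero

lemma logMap_scl (y : logSpace K) {x : mixedSpace K} (hx : mixedEmbedding.norm x ≠ 0) :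
    logMap (scl y x) = logMap x - y := by
  funext w
  have hw : (mult w.1 : ℝ) ≠ 0 := Nat.cast_ne_zero.mpr mult_ne_zero
  have h1 : ex y w.1 = y w / mult w.1 := by
    unfold ex
    rw [dif_pos w.2]
  rw [Pi.sub_apply, logMap_apply, logMap_apply, norm_scl, normAtPlace_scl,
    Real.log_mul (Real.exp_ne_zero _) (normAtPlace_ne_zero hx _), Real.log_exp, h1]
  field_simp
  ring

lemma sgn_scl (y : logSpace K) (x : mixedSpace K) : sgn (scl y x) = sgn x := by
  funext w
  unfold sgn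
  rw [scl_fst]
  have h := Real.exp_pos (-(ex y w.1))
  by_cases h1 : 0 < x.1 w
  · rw [decide_eq_true h1, decide_eq_true (mul_pos h h1)]
  · rw [decide_eq_false h1, decide_eq_false]
    intro h2
    exact h1 ((mul_pos_iff_of_pos_left h).mp h2)

/-- The unimodular constant. -/
noncomputable def ucst (β : TB K) (y : logSpace K) : ℂ :=
  Complex.exp (((-∑ w : InfinitePlace K, β w * ex y w : ℝ) : ℂ) * Complex.I)

lemma norm_ucst (β : TB K) (y : logSpace K) : ‖ucst β y‖ = 1 :=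
  Complex.norm_exp_ofReal_mul_I _

lemma lamX_scl (α : TA K) (β : TB K) (y : logSpace K) {x : mixedSpace K}
    (hx : mixedEmbedding.norm x ≠ 0) :
    lamX α β (scl y x) = ucst β y * lamX α β x := by
  have h1 : ∀ w : {w : InfinitePlace K // w.IsComplex},
      (scl y x).2 w / (‖(scl y x).2 w‖ : ℂ) = x.2 w / (‖x.2 w‖ : ℂ) := by
    intro w
    rw [scl_snd, norm_mul, Complex.norm_real, Real.norm_eq_abs, abs_of_pos (Real.exp_pos _)]
    push_cast
    have : Complex.exp (-(ex y w.1 : ℂ)) ≠ 0 := Complex.exp_ne_zero _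
    rw [mul_div_mul_left _ _ this]
  have h2 : ∑ w : InfinitePlace K, β w * Real.log (normAtPlace w (scl y x)) =
      -∑ w : InfinitePlace K, β w * ex y w +
        ∑ w : InfinitePlace K, β w * Real.log (normAtPlace w x) := by
    rw [← Finset.sum_neg_distrib, ← Finset.sum_add_distrib]
    refine Finset.sum_congr rfl fun w _ => ?_
    rw [normAtPlace_scl, Real.log_mul (Real.exp_ne_zero _) (normAtPlace_ne_zero hx _),
      Real.log_exp]
    ring
  unfold lamX ucst
  simp only [h1]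
  rw [h2]
  push_cast
  rw [add_mul, Complex.exp_add]
  ring

lemma norm_le_of_normAtPlace {x : mixedSpace K} {r : ℝ} (h : ∀ w, normAtPlace w x ≤ r) :
    ‖x‖ ≤ r := by
  rw [norm_eq_sup'_normAtPlace]
  exact Finset.sup'_le _ _ fun w _ => h w

lemma normAtPlace_le_norm (w : InfinitePlace K) (x : mixedSpace K) : normAtPlace w x ≤ ‖x‖ := by
  rw [norm_eq_sup'_normAtPlace]
  exact Finset.le_sup' (fun w => normAtPlace w x) (Finset.mem_univ w)

lemma one_le_norm_of {x : mixedSpace K} (h : 1 ≤ mixedEmbedding.norm x) : 1 ≤ ‖x‖ := by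
  by_contra h1
  push Not at h1
  have h2 : mixedEmbedding.norm x < 1 := by
    rw [mixedEmbedding.norm_apply]
    obtain ⟨w₀⟩ : Nonempty (InfinitePlace K) := inferInstance
    rw [← Finset.prod_erase_mul _ _ (Finset.mem_univ w₀)]
    have h3 : ∏ w ∈ Finset.univ.erase w₀, normAtPlace w x ^ mult w ≤ 1 :=
      Finset.prod_le_one (fun w _ => pow_nonneg (normAtPlace_nonneg w x) _) fun w _ =>
        pow_le_one₀ (normAtPlace_nonneg w x) ((normAtPlace_le_norm w x).trans h1.le)
    have h4 : normAtPlace w₀ x ^ mult w₀ < 1 :=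
      pow_lt_one₀ (normAtPlace_nonneg w₀ x) ((normAtPlace_le_norm w₀ x).trans_lt h1) mult_ne_zero
    have h5 : 0 ≤ normAtPlace w₀ x ^ mult w₀ := pow_nonneg (normAtPlace_nonneg w₀ x) _
    calc _ ≤ 1 * normAtPlace w₀ x ^ mult w₀ := mul_le_mul_of_nonneg_right h3 h5
      _ < 1 := by rwa [one_mul]
  linarith

end Scl

section Sum

variable {K : Type u} [Field K] [NumberField K]

variable {ι : Type u} [Fintype ι]

/-- The basis after the rescaling. -/
lemma pt_map (b : Basis ι ℝ (mixedSpace K)) (y : logSpace K) (a : ι → ℤ) :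
    pt (b.map (scl y)) a = scl y (pt b a) := by
  unfold pt
  rw [map_sum]
  refine Finset.sum_congr rfl fun i _ => ?_
  rw [Basis.map_apply, map_smul]

lemma per_sum {n : ℕ} {P : (ι → ℤ) → ℂ} {v : Fin n → (ι → ℤ)} (hP : ∀ a i, P (a + v i) = P a)
    (a : ι → ℤ) (z : Fin n → ℤ) : P (a + ∑ i, z i • v i) = P a := by
  let S : AddSubgroup (ι → ℤ) :=
    { carrier := {T | ∀ a, P (a + T) = P a}
      zero_mem' := fun a => by rw [add_zero]
      add_mem' := fun {T T'} hT hT' a => by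
        rw [← add_assoc, hT', hT]
      neg_mem' := fun {T} hT a => by
        have := hT (a + -T)
        rw [add_assoc, neg_add_cancel, add_zero] at this
        exact this.symm }
  have h : ∑ i, z i • v i ∈ S := by
    refine S.sum_mem fun i _ => S.zsmul_mem ?_ _
    intro a
    exact hP a i
  exact h a

lemma card_SG_le (K : Type u) [Field K] [NumberField K] :
    (Fintype.card (SG K) : ℝ) ≤ 2 ^ finrank ℚ K := by
  have h1 : Fintype.card (SG K) = 2 ^ Fintype.card {w : InfinitePlace K // w.IsReal} := by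
    rw [Fintype.card_fun, Fintype.card_bool]
  have h2 : Fintype.card {w : InfinitePlace K // w.IsReal} ≤ finrank ℚ K := by
    have h3 := card_add_two_mul_card_eq_rank K
    unfold nrRealPlaces nrComplexPlaces at h3
    omega
  rw [h1]
  push_cast
  exact pow_le_pow_right₀ (by norm_num) h2

end Sum

end SC3

open SC3

/-- The main case: after the rescaling. -/
lemma latu_core3 {n : ℕ} {A C : ℝ} {k : ℕ} (hA : 1 ≤ A) (hC : 1 ≤ C) (K : Type u) [Field K]
    [NumberField K] (hK : finrank ℚ K = n)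
    (hL : ∀ Phi : logSpace K → ℝ, IsBump Phi 1 0 →
      ∀ b : Basis (Fin n) ℝ (mixedSpace K), ∀ ρ : ℝ, 1 ≤ ρ → (∀ i, ‖b i‖ ≤ ρ) →
      (∀ z : Fin n → ℤ, z ≠ 0 → 1 ≤ mixedEmbedding.norm (pt b z)) →
      ∀ x₀ : mixedSpace K, ‖x₀‖ ≤ n * ρ →
      (∀ z : Fin n → ℤ, x₀ + pt b z ≠ 0 → 1 ≤ mixedEmbedding.norm (x₀ + pt b z)) →
      ∀ (α : TA K) (β : TB K), ∑ w, β w = 0 → ∀ σ : SG K,
      (∀ s : ℂ, 1 < s.re → Summable fun z : Fin n → ℤ => hTP Phi α β σ s (x₀ + pt b z)) ∧
      ∃ H : ℂ → ℂ, DifferentiableOn ℂ H {s | gU n < s.re} ∧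
        (∀ s : ℂ, 1 < s.re → H s = (s - 1) *
          ∑' z : Fin n → ℤ, hTP Phi α β σ s (x₀ + pt b z)) ∧
        ∀ s : ℂ, gV n ≤ s.re → s.re ≤ 2 → ‖H s‖ ≤ A * (ρ * (sz α β * (1 + |s.im|))) ^ k)
    (hpk : ∀ S : Finset (mixedSpace K), (∀ x ∈ S, ∀ y ∈ S, x ≠ y → 1 ≤ ‖x - y‖) →
      ∀ r : ℝ, 1 ≤ r → (∀ x ∈ S, ‖x‖ ≤ r) → (S.card : ℝ) ≤ C * r ^ n)
    (ι : Type u) [Fintype ι] (b : Basis ι ℝ (mixedSpace K))
    (hN : ∀ a : ι → ℤ, a ≠ 0 → 1 ≤ mixedEmbedding.norm (pt b a))
    (Phi : logSpace K → ℝ) (hPhi : IsBump Phi 1 0)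
    (v : Fin n → (ι → ℤ)) (hv : LinearIndependent ℝ (fun i => pt b (v i))) (ρ : ℝ) (hρ : 1 ≤ ρ)
    (hρv : ∀ i, ‖pt b (v i)‖ ≤ ρ) (α : TA K) (β : TB K) (hβ : ∑ w, β w = 0)
    (P : SG K → (ι → ℤ) → ℂ) (hP1 : ∀ σ a, ‖P σ a‖ ≤ 1) (hP2 : ∀ σ a i, P σ (a + v i) = P σ a) :
    ∃ H : ℂ → ℂ, DifferentiableOn ℂ H {s | gU n < s.re} ∧
      (∀ s : ℂ, 1 < s.re → H s = (s - 1) *
        ∑' a : ι → ℤ, P (sgn (pt b a)) a * lamX α β (pt b a) * hP Phi s (pt b a)) ∧
      ∀ s : ℂ, gV n ≤ s.re → s.re ≤ 2 →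
        ‖H s‖ ≤ (2 ^ n * (C * n ^ n) * A) * (ρ * (sz α β * (1 + |s.im|))) ^ (k + n) := by
  have hn : 1 ≤ n := by rw [← hK]; exact finrank_pos
  have hn1 : (1 : ℝ) ≤ n := by exact_mod_cast hn
  have hfr : finrank ℝ (mixedSpace K) = n := by rw [mixedEmbedding.finrank, hK]
  obtain ⟨R, e, he, hR⟩ := cosets3 hfr b v hv ρ hρv
  let B : Basis (Fin n) ℝ (mixedSpace K) := basisOfLinearIndependentOfCardEqFinrank' _ hv (by simp [hfr])
  have hB : ∀ i, B i = pt b (v i) := by
    intro i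
    simp [B]
  have hBz : ∀ z : Fin n → ℤ, pt B z = pt b (∑ i, z i • v i) := by
    intro z
    rw [pt_sum_zsmul3]
    unfold pt
    exact Finset.sum_congr rfl fun i _ => by rw [hB]; rfl
  have hBN : ∀ z : Fin n → ℤ, z ≠ 0 → 1 ≤ mixedEmbedding.norm (pt B z) := by
    intro z hz
    rw [hBz]
    refine hN _ fun h => ?_
    have h1 := pt_ne_zero B hz
    rw [hBz, h, pt_zero] at h1
    exact h1 rfl
  have hrz : ∀ (r : R) (z : Fin n → ℤ), pt b (e (r, z)) = pt b (r : ι → ℤ) + pt B z := by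
    intro r z
    rw [he, pt_add, hBz]
  have hxN : ∀ (r : R) (z : Fin n → ℤ), pt b (r : ι → ℤ) + pt B z ≠ 0 →
      1 ≤ mixedEmbedding.norm (pt b (r : ι → ℤ) + pt B z) := by
    intro r z h
    rw [← hrz] at h ⊢
    exact hN _ fun h1 => h (by rw [h1, pt_zero])
  have hX : ∀ (r : R) (σ : SG K), _ := fun r σ =>
    hL Phi hPhi B ρ hρ (fun i => by rw [hB]; exact hρv i) hBN (pt b (r : ι → ℤ)) (hR r r.2)
      (hxN r) α β hβ σ
  choose hsum H hH1 hH2 hH3 using hX
  have hcard : (R.card : ℝ) ≤ C * (n * ρ) ^ n := by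
    have hinj : Set.InjOn (pt b) (R : Set (ι → ℤ)) := fun a _ a' _ h => pt_injective b h
    have h1 := hpk (R.image (pt b)) (by
      intro x hx y hy hxy
      obtain ⟨a, _, rfl⟩ := Finset.mem_image.mp hx
      obtain ⟨a', _, rfl⟩ := Finset.mem_image.mp hy
      have h2 : pt b a - pt b a' = pt b (a - a') := by
        rw [sub_eq_iff_eq_add, ← pt_add, sub_add_cancel]
      rw [h2]
      refine one_le_norm_of (hN _ (sub_ne_zero.mpr fun h => hxy (by rw [h])))) (n * ρ)
      (by nlinarith) (by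
        intro x hx
        obtain ⟨a, ha, rfl⟩ := Finset.mem_image.mp hx
        exact hR a ha)
    rwa [Finset.card_image_of_injOn hinj] at h1
  have hsumP : ∀ (σ : SG K) (s : ℂ), 1 < s.re →
      HasSum (fun a : ι → ℤ => P σ a * hTP Phi α β σ s (pt b a))
        (∑ r : R, P σ (r : ι → ℤ) *
          ∑' z : Fin n → ℤ, hTP Phi α β σ s (pt b (r : ι → ℤ) + pt B z)) := by
    intro σ s hs
    rw [← e.hasSum_iff]
    have h1 : (fun a : ι → ℤ => P σ a * hTP Phi α β σ s (pt b a)) ∘ e =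
        fun q : R × (Fin n → ℤ) => P σ (q.1 : ι → ℤ) *
          hTP Phi α β σ s (pt b (q.1 : ι → ℤ) + pt B q.2) := by
      funext q
      obtain ⟨r, z⟩ := q
      show P σ (e (r, z)) * hTP Phi α β σ s (pt b (e (r, z))) = _
      rw [hrz, he, per_sum (fun a i => hP2 σ a i)]
    rw [h1]
    have h2 : ∀ r : R, HasSum (fun z : Fin n → ℤ => P σ (r : ι → ℤ) *
        hTP Phi α β σ s (pt b (r : ι → ℤ) + pt B z)) (P σ (r : ι → ℤ) *
          ∑' z : Fin n → ℤ, hTP Phi α β σ s (pt b (r : ι → ℤ) + pt B z)) := fun r =>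
      ((hsum r σ s hs).hasSum).mul_left _
    have h3 : Summable fun q : R × (Fin n → ℤ) => P σ (q.1 : ι → ℤ) *
          hTP Phi α β σ s (pt b (q.1 : ι → ℤ) + pt B q.2) := by
      refine Summable.of_norm ?_
      rw [summable_prod_of_nonneg fun q => norm_nonneg _]
      exact ⟨fun r => (h2 r).summable.norm, (hasSum_fintype _).summable⟩
    have h4 := h3.hasSum.prod_fiberwise h2
    have h5 := hasSum_fintype fun r : R => P σ (r : ι → ℤ) *
          ∑' z : Fin n → ℤ, hTP Phi α β σ s (pt b (r : ι → ℤ) + pt B z)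
    rw [← h4.unique h5]
    exact h3.hasSum
  refine ⟨fun s => ∑ σ : SG K, ∑ r : R, P σ (r : ι → ℤ) * H r σ s, ?_, ?_, ?_⟩
  · exact DifferentiableOn.fun_sum fun σ _ => DifferentiableOn.fun_sum fun r _ =>
      (hH1 r σ).const_mul _
  · intro s hs
    have h1 : (fun a : ι → ℤ => P (sgn (pt b a)) a * lamX α β (pt b a) * hP Phi s (pt b a)) =
        fun a => ∑ σ : SG K, P σ a * hTP Phi α β σ s (pt b a) := by
      funext a
      rw [Finset.sum_eq_single (sgn (pt b a))]
      · rw [hTP, if_pos rfl, mul_assoc]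
      · intro σ _ hσ
        rw [hTP, if_neg (fun h => hσ h.symm), mul_zero, mul_zero]
      · intro h
        exact absurd (Finset.mem_univ _) h
    rw [h1, (hasSum_sum fun σ _ => hsumP σ s hs).tsum_eq, Finset.mul_sum]
    refine Finset.sum_congr rfl fun σ _ => ?_
    rw [Finset.mul_sum]
    refine Finset.sum_congr rfl fun r _ => ?_
    rw [hH2 r σ s hs]
    ring
  · intro s hs1 hs2
    set X : ℝ := sz α β * (1 + |s.im|) with hX
    have hz1 : 1 ≤ sz α β := LATH49.one_le_sz α β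
    have hX1 : 1 ≤ X := by
      have := abs_nonneg s.im
      rw [hX]
      nlinarith
    have hb1 : ∀ σ : SG K, ‖∑ r : R, P σ (r : ι → ℤ) * H r σ s‖ ≤
        (C * (n * ρ) ^ n) * (A * (ρ * X) ^ k) := by
      intro σ
      have h1 : ∀ r ∈ (Finset.univ : Finset R), ‖P σ (r : ι → ℤ) * H r σ s‖ ≤
          A * (ρ * X) ^ k := by
        intro r _
        rw [norm_mul]
        exact (mul_le_of_le_one_left (norm_nonneg _) (hP1 σ _)).trans (hH3 r σ s hs1 hs2)
      refine (norm_sum_le _ _).trans ((Finset.sum_le_sum h1).trans ?_)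
      rw [Finset.sum_const, nsmul_eq_mul, Finset.card_univ, Fintype.card_coe]
      exact mul_le_mul_of_nonneg_right hcard (by positivity)
    refine (norm_sum_le _ _).trans ((Finset.sum_le_sum fun σ _ => hb1 σ).trans ?_)
    rw [Finset.sum_const, nsmul_eq_mul, Finset.card_univ]
    have h2 := card_SG_le K
    rw [hK] at h2
    have h3 : 0 ≤ (C * (n * ρ) ^ n) * (A * (ρ * X) ^ k) := by positivity
    refine (mul_le_mul_of_nonneg_right h2 h3).trans ?_
    have h4 : ρ ^ n ≤ (ρ * X) ^ n :=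
      pow_le_pow_left₀ (by linarith) (le_mul_of_one_le_right (by linarith) hX1) n
    calc (2 : ℝ) ^ n * ((C * (n * ρ) ^ n) * (A * (ρ * X) ^ k)) =
          (2 ^ n * (C * n ^ n) * A) * (ρ * X) ^ k * ρ ^ n := by rw [mul_pow]; ring
      _ ≤ (2 ^ n * (C * n ^ n) * A) * (ρ * X) ^ k * (ρ * X) ^ n :=
          mul_le_mul_of_nonneg_left h4 (by positivity)
      _ = _ := by rw [pow_add]; ring

/-- LATU. -/
theorem stLATU_of (n : ℕ) (hL : StLCOS.{u} n) (hpk : StPACK.{u} n) : StLATU.{u} n := by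
  obtain ⟨A, k, hA, hL⟩ := hL
  obtain ⟨C, hC, hpk⟩ := hpk
  refine ⟨2 ^ n * (C * (n + 1) ^ n) * A, k + n, ?_, ?_⟩
  · have h1 : (1 : ℝ) ≤ 2 ^ n := one_le_pow₀ (by norm_num)
    have h2 : (1 : ℝ) ≤ ((n : ℝ) + 1) ^ n := one_le_pow₀ (by linarith [n.cast_nonneg (α := ℝ)])
    have h3 : 1 ≤ C * ((n : ℝ) + 1) ^ n := one_le_mul_of_one_le_of_one_le hC h2
    exact one_le_mul_of_one_le_of_one_le (one_le_mul_of_one_le_of_one_le h1 h3) hA
  intro K _ _ hK ι _ b hN Phi V y₀ hPhi v hv ρ hρ hρv α β hβ P hP1 hP2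
  have hV : 0 ≤ V := (abs_nonneg _).trans (hPhi.1 0)
  rcases hV.eq_or_lt with hV0 | hV0
  · have h0 : ∀ z, Phi z = 0 := by
      intro z
      have := hPhi.1 z
      rw [← hV0] at this
      exact abs_eq_zero.mp (le_antisymm this (abs_nonneg _))
    refine ⟨fun _ => 0, differentiableOn_const _, fun s _ => ?_, fun s _ _ => ?_⟩
    · have h1 : (fun a : ι → ℤ => P (sgn (pt b a)) a * lamX α β (pt b a) *
          hP Phi s (pt b a)) = fun _ => 0 := by
        funext a
        rw [hP, h0]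
        split_ifs <;> simp
      rw [h1, tsum_zero, mul_zero]
    · rw [← hV0, zero_mul, norm_zero]
  set Ψ : logSpace K → ℝ := fun z => Phi (z + y₀) / V with hΨ
  have hΨb : IsBump Ψ 1 0 := by
    refine ⟨fun z => ?_, fun z z' => ?_, fun z hz => ?_⟩
    · rw [hΨ]
      simp only
      rw [abs_div, abs_of_pos hV0, div_le_one hV0]
      exact hPhi.1 _
    · rw [hΨ]
      simp only
      rw [← sub_div, abs_div, abs_of_pos hV0, div_le_iff₀ hV0]
      refine (hPhi.2.1 _ _).trans (le_of_eq ?_)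
      rw [add_sub_add_right_eq_sub]
      ring
    · rw [hΨ] at hz
      simp only at hz
      have h1 : Phi (z + y₀) ≠ 0 := fun h => hz (by rw [h, zero_div])
      have h2 := hPhi.2.2 _ h1
      rw [add_sub_cancel_right] at h2
      rwa [sub_zero]
  have hmap : ∀ a, pt (b.map (scl y₀)) a = scl y₀ (pt b a) := pt_map b y₀
  obtain ⟨H, hH1, hH2, hH3⟩ := latu_core3 hA hC K hK (hL K hK) (fun S hS => (hpk K hK S hS).1)
    ι (b.map (scl y₀)) (fun a ha => by rw [hmap, norm_scl]; exact hN a ha) Ψ hΨb v (by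
      simp only [hmap]
      exact hv.map' (scl y₀).toLinearMap (LinearEquiv.ker _)) ρ hρ (fun i => by
      rw [hmap]
      refine norm_le_of_normAtPlace fun w => ?_
      rw [normAtPlace_scl]
      refine (mul_le_mul_of_nonneg_left (hρv i w) (Real.exp_pos _).le).trans (le_of_eq ?_)
      rw [mul_left_comm, ← Real.exp_add, neg_add_cancel, Real.exp_zero, mul_one])
    α β hβ P hP1 hP2
  have hu : ‖ucst β y₀‖ = 1 := norm_ucst β y₀
  have hu0 : ucst β y₀ ≠ 0 := by
    intro h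
    rw [h, norm_zero] at hu
    exact zero_ne_one hu
  have hVc : (V : ℂ) ≠ 0 := Complex.ofReal_ne_zero.mpr hV0.ne'
  refine ⟨fun s => (V * (ucst β y₀)⁻¹) * H s, hH1.const_mul _, fun s hs => ?_,
    fun s hs1 hs2 => ?_⟩
  · have h1 : ∀ a : ι → ℤ, P (sgn (pt b a)) a * lamX α β (pt b a) * hP Phi s (pt b a) =
        (V * (ucst β y₀)⁻¹) * (P (sgn (pt (b.map (scl y₀)) a)) a *
          lamX α β (pt (b.map (scl y₀)) a) * hP Ψ s (pt (b.map (scl y₀)) a)) := by
      intro a
      rw [hmap, sgn_scl]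
      by_cases hx : mixedEmbedding.norm (pt b a) = 0
      · rw [hP, if_pos hx, hP, norm_scl, if_pos hx]
        ring
      · rw [hP, if_neg hx, hP, norm_scl, if_neg hx, lamX_scl α β y₀ hx, logMap_scl y₀ hx, hΨ]
        simp only [sub_add_cancel]
        push_cast
        field_simp
    simp only [h1, hH2 s hs]
    rw [tsum_mul_left]
    ring
  · rw [norm_mul, norm_mul, norm_inv, hu, inv_one, mul_one, Complex.norm_real, Real.norm_eq_abs,
      abs_of_pos hV0]
    refine mul_le_mul_of_nonneg_left ((hH3 s hs1 hs2).trans ?_) hV0.le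
    have hz1 : 1 ≤ sz α β := LATH49.one_le_sz α β
    have h5 : (0 : ℝ) ≤ (ρ * (sz α β * (1 + |s.im|))) ^ (k + n) := by positivity
    refine mul_le_mul_of_nonneg_right ?_ h5
    refine mul_le_mul_of_nonneg_right ?_ (by linarith)
    refine mul_le_mul_of_nonneg_left ?_ (by positivity)
    refine mul_le_mul_of_nonneg_left ?_ (by linarith)
    exact pow_le_pow_left₀ (Nat.cast_nonneg _) (by linarith) _

end Pool.Agent.Lib.MP_bf61d2_nt.Artin.Ray
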