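import Mathlib
import Pool.Agent.Lib.MP_bf61d2_nt.Trim.Artin.H.DefsH
import Pool.Agent.Lib.MP_bf61d2_nt.Trim.Artin.H.LATH49
import Pool.Agent.Lib.MP_bf61d2_nt.Trim.Artin.H.LIPH90
import Pool.Agent.Lib.MP_bf61d2_nt.Trim.Artin.R.DefsR
import Pool.Agent.Lib.MP_bf61d2_nt.Trim.Artin.R.LAT49
import Pool.Agent.Lib.MP_bf61d2_nt.Trim.Artin.R.LIP90
import Pool.Agent.Lib.MP_bf61d2_nt.Trim.Artin.UK.StmtsU84
import Pool.Agent.Lib.MP_bf61d2_nt.Trim.Zeta.Cone
import Pool.Agent.Lib.MP_bf61d2_nt.Trim.Zeta.Dilation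
import Pool.Agent.Lib.MP_bf61d2_nt.Trim.Zeta.Lip

set_option autoImplicit false

/-!
UNIF (MP_bf61d2_nt), module LIPU: the Lipschitz estimate for the function of a bump on the
logarithmic space, with constants which depend only on the degree of the field.
-/

namespace NumberField
end NumberField

namespace Pool.Agent.Lib.MP_bf61d2_nt.Zeta
end Pool.Agent.Lib.MP_bf61d2_nt.Zeta

namespace Pool.Agent.Lib.MP_bf61d2_nt.Artin.ZB69
end Pool.Agent.Lib.MP_bf61d2_nt.Artin.ZB69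

namespace Pool.Agent.Lib.MP_bf61d2_nt.Artin.Ray
end Pool.Agent.Lib.MP_bf61d2_nt.Artin.Ray

namespace Pool.Agent.Lib.MP_bf61d2_nt.Artin.Ray.LU69
end Pool.Agent.Lib.MP_bf61d2_nt.Artin.Ray.LU69

namespace Pool.Agent.Lib.MP_bf61d2_nt.Artin.Ray.LU69

open NumberField NumberField.mixedEmbedding NumberField.Units NumberField.InfinitePlace

open NumberField.mixedEmbedding.fundamentalCone NumberField.Units.dirichletUnitTheorem

open Module Filter Topology

open Pool.Agent.Lib.MP_bf61d2_nt.Zeta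

open Pool.Agent.Lib.MP_bf61d2_nt.Artin.ZB69

open Pool.Agent.Lib.MP_bf61d2_nt.Artin.Ray

open scoped Classical nonZeroDivisors

universe u v

section Basic

variable {K : Type*} [Field K] [NumberField K]

lemma hP_zero (Φ : logSpace K → ℝ) (s : ℂ) : hP Φ s (0 : mixedSpace K) = 0 := by
  rw [hP, if_pos (map_zero _)]

lemma hTP_zero (a : TA K) (b : TB K) (σ : SG K) (Φ : logSpace K → ℝ) (s : ℂ) :
    hTP Φ a b σ s (0 : mixedSpace K) = 0 := by
  rw [hTP, hP_zero, ite_self, mul_zero]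

lemma norm_hTP_le (a : TA K) (b : TB K) (σ : SG K) (Φ : logSpace K → ℝ) (s : ℂ)
    (x : mixedSpace K) : ‖hTP Φ a b σ s x‖ ≤ ‖hP Φ s x‖ := by
  unfold hTP
  rw [norm_mul]
  refine (mul_le_of_le_one_left (norm_nonneg _) (LATH49.norm_lamX_le a b x)).trans ?_
  split_ifs
  · exact le_rfl
  · rw [norm_zero]; exact norm_nonneg _

lemma norm_hP_le_one {Φ : logSpace K → ℝ} (h1 : ∀ z, |Φ z| ≤ 1) {s : ℂ} (hs : 0 ≤ s.re)
    {x : mixedSpace K} (hx : 1 ≤ mixedEmbedding.norm x) : ‖hP Φ s x‖ ≤ 1 := by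
  rw [hP, if_neg (by linarith), norm_mul, Complex.norm_real, Real.norm_eq_abs,
    Complex.norm_exp, Complex.neg_re, Complex.re_mul_ofReal]
  refine mul_le_one₀ (h1 _) (Real.exp_pos _).le (Real.exp_le_one_iff.mpr ?_)
  have := Real.log_nonneg hx
  nlinarith

omit [NumberField K] in
lemma sgn_smul {m : ℕ} (hm : m ≠ 0) (x : mixedSpace K) : sgn ((m : ℝ) • x) = sgn x := by
  funext w
  have hm' : (0 : ℝ) < m := by exact_mod_cast Nat.pos_of_ne_zero hm
  have h1 : ((m : ℝ) • x).1 w = m * x.1 w := rfl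
  unfold sgn
  rw [h1]
  have : (0 < (m : ℝ) * x.1 w) ↔ 0 < x.1 w := by
    rw [mul_pos_iff_of_pos_left hm']
  simp only [this]

lemma hP_smul (Φ : logSpace K → ℝ) {m : ℕ} (hm : m ≠ 0) (s : ℂ) (x : mixedSpace K) :
    hP Φ s ((m : ℝ) • x) = Zeta.fac K m s * hP Φ s x := by
  have hm' : (m : ℝ) ≠ 0 := Nat.cast_ne_zero.mpr hm
  by_cases hx : mixedEmbedding.norm x = 0
  · rw [hP, hP, if_pos hx, if_pos (by rw [mixedEmbedding.norm_smul, hx, mul_zero]), mul_zero]
  · have h1 : mixedEmbedding.norm ((m : ℝ) • x) = (m : ℝ) ^ finrank ℚ K * mixedEmbedding.norm x := by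
      rw [mixedEmbedding.norm_smul, abs_of_nonneg (Nat.cast_nonneg _)]
    have h2 : mixedEmbedding.norm ((m : ℝ) • x) ≠ 0 := by
      rw [h1]; exact mul_ne_zero (pow_ne_zero _ hm') hx
    rw [hP, hP, if_neg hx, if_neg h2, logMap_real_smul hx hm', h1,
      Real.log_mul (pow_ne_zero _ hm') hx, Real.log_pow, Zeta.fac]
    have e : -(s * (((finrank ℚ K : ℝ) * Real.log m + Real.log (mixedEmbedding.norm x) : ℝ) : ℂ)) =
        -(s * ((finrank ℚ K * Real.log m : ℝ) : ℂ)) +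
          -(s * (Real.log (mixedEmbedding.norm x) : ℂ)) := by push_cast; ring
    rw [e, Complex.exp_add]
    ring

lemma hTP_smul {a : TA K} {b : TB K} (hb : ∑ w, b w = 0) (Φ : logSpace K → ℝ) {m : ℕ} (hm : m ≠ 0)
    (σ : SG K) (s : ℂ) (x : mixedSpace K) :
    hTP Φ a b σ s ((m : ℝ) • x) = Zeta.fac K m s * hTP Φ a b σ s x := by
  by_cases hx : mixedEmbedding.norm x = 0
  · have h1 : hP Φ s x = 0 := by rw [hP, if_pos hx]
    unfold hTP
    rw [hP_smul Φ hm, h1]
    simp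
  · unfold hTP
    rw [hP_smul Φ hm, sgn_smul hm, LATH49.lamX_smul hb hm hx]
    split_ifs <;> ring

lemma differentiable_hP (Φ : logSpace K → ℝ) (x : mixedSpace K) :
    Differentiable ℂ fun s => hP Φ s x := by
  unfold hP
  split_ifs with h
  · exact differentiable_const _
  · fun_prop

lemma differentiable_hG (a : TA K) (b : TB K) (σ : SG K) (Φ : logSpace K → ℝ) (x : mixedSpace K) :
    Differentiable ℂ fun s => hTP Φ a b σ s x := by
  unfold hTP
  refine Differentiable.const_mul ?_ _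
  split_ifs with h
  · exact differentiable_hP Φ x
  · exact differentiable_const _

/-! ### Comparable coordinates -/

/-- The comparison constant. -/
noncomputable def kap (n : ℕ) : ℝ := Real.exp (-(4 * n : ℝ))

lemma kap_pos (n : ℕ) : 0 < kap n := Real.exp_pos _

lemma kap_le_one (n : ℕ) : kap n ≤ 1 := Real.exp_le_one_iff.mpr (by
  have : (0 : ℝ) ≤ 4 * n := by positivity
  linarith)

lemma abs_rl_le {x : mixedSpace K} (hN : mixedEmbedding.norm x ≠ 0) (hx : ‖logMap x‖ ≤ 2)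
    (w : InfinitePlace K) : |rl x w| ≤ 2 * finrank ℚ K := by
  have hmult : ∀ w : InfinitePlace K, (1 : ℝ) ≤ w.mult := fun w => by exact_mod_cast one_le_mult
  have hsum : ∑ w : InfinitePlace K, (w.mult : ℝ) = finrank ℚ K := by
    exact_mod_cast sum_mult_eq
  have hcard : (Fintype.card (InfinitePlace K) : ℝ) ≤ finrank ℚ K := by
    rw [← hsum]
    calc (Fintype.card (InfinitePlace K) : ℝ) = ∑ _w : InfinitePlace K, (1 : ℝ) := by simp
      _ ≤ _ := Finset.sum_le_sum fun w _ => hmult w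
  have hn : (1 : ℝ) ≤ finrank ℚ K := by exact_mod_cast finrank_pos
  have h2 : ∀ w : InfinitePlace K, w ≠ w₀ → |(w.mult : ℝ) * rl x w| ≤ 2 := by
    intro w hw
    have := (norm_le_pi_norm (logMap x) ⟨w, hw⟩).trans hx
    rwa [Real.norm_eq_abs, logMap_apply] at this
  have h3 : |(w.mult : ℝ) * rl x w| ≤ 2 * finrank ℚ K := by
    by_cases hw : w = w₀
    · have h4 := sum_rl hN
      rw [← Finset.add_sum_erase _ _ (Finset.mem_univ w)] at h4
      have h5 : (w.mult : ℝ) * rl x w = -∑ w' ∈ Finset.univ.erase w, (w'.mult : ℝ) * rl x w' := by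
        linarith
      rw [h5, abs_neg]
      refine (Finset.abs_sum_le_sum_abs _ _).trans ?_
      calc ∑ w' ∈ Finset.univ.erase w, |(w'.mult : ℝ) * rl x w'| ≤
          ∑ w' ∈ Finset.univ.erase w, (2 : ℝ) := Finset.sum_le_sum fun w' hw' => h2 w' (by
            rw [← hw]; exact Finset.ne_of_mem_erase hw')
        _ = (Finset.univ.erase w).card * 2 := by rw [Finset.sum_const, nsmul_eq_mul]
        _ ≤ Fintype.card (InfinitePlace K) * 2 := by
            refine mul_le_mul_of_nonneg_right ?_ (by norm_num)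
            exact_mod_cast (Finset.card_le_univ _)
        _ ≤ _ := by linarith
    · exact (h2 w hw).trans (by linarith)
  rw [abs_mul, abs_of_nonneg (by linarith [hmult w])] at h3
  have := mul_le_mul_of_nonneg_right (hmult w) (abs_nonneg (rl x w))
  linarith

lemma kap_le {x : mixedSpace K} (hN : mixedEmbedding.norm x ≠ 0) (hx : ‖logMap x‖ ≤ 2)
    (w : InfinitePlace K) : kap (finrank ℚ K) * ‖x‖ ≤ normAtPlace w x := by
  have hpos : ∀ w, 0 < normAtPlace w x := fun w =>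
    lt_of_le_of_ne (normAtPlace_nonneg w x) (mixedEmbedding.norm_ne_zero_iff.mp hN w).symm
  have h1 : ∀ w', normAtPlace w' x ≤ Real.exp (4 * finrank ℚ K) * normAtPlace w x := by
    intro w'
    have h2 := abs_le.mp (abs_rl_le hN hx w)
    have h3 := abs_le.mp (abs_rl_le hN hx w')
    rw [← Real.exp_log (hpos w'), ← Real.exp_log (hpos w), ← Real.exp_add]
    apply Real.exp_le_exp.mpr
    simp only [rl] at h2 h3
    linarith [h2.1, h3.2]
  have h4 : ‖x‖ ≤ Real.exp (4 * finrank ℚ K) * normAtPlace w x := by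
    rw [norm_eq_sup'_normAtPlace]
    exact Finset.sup'_le _ _ fun w' _ => h1 w'
  calc kap (finrank ℚ K) * ‖x‖ ≤ kap (finrank ℚ K) *
        (Real.exp (4 * finrank ℚ K) * normAtPlace w x) :=
        mul_le_mul_of_nonneg_left h4 (kap_pos _).le
    _ = normAtPlace w x := by
        rw [kap, ← mul_assoc, ← Real.exp_add, neg_add_cancel, Real.exp_zero, one_mul]

lemma comparableP {Φ : logSpace K → ℝ} (hΦ : ∀ z, Φ z ≠ 0 → ‖z‖ ≤ 2) {c : ℝ} {x y : mixedSpace K}
    (hx : mixedEmbedding.norm x ≠ 0) (hy : mixedEmbedding.norm y ≠ 0)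
    (hxy : ‖x - y‖ ≤ c) (hc : 8 * c ≤ kap (finrank ℚ K) * ‖x‖)
    (h : Φ (logMap x) ≠ 0 ∨ Φ (logMap y) ≠ 0) (w : InfinitePlace K) :
    kap (finrank ℚ K) / 4 * ‖x‖ ≤ normAtPlace w x ∧ kap (finrank ℚ K) / 4 * ‖x‖ ≤ normAtPlace w y := by
  set κ := kap (finrank ℚ K) with hκ
  have hκ0 : 0 < κ := kap_pos _
  have hκ1 : κ ≤ 1 := kap_le_one _
  have hX0 : 0 ≤ ‖x‖ := norm_nonneg _
  have h1 := abs_le.mp ((abs_normAtPlace_sub_le w x y).trans hxy)
  have hkX : 0 ≤ κ * ‖x‖ := by positivity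
  rcases h with h | h
  · have h2 := kap_le hx (hΦ _ h) w
    rw [← hκ] at h2
    constructor <;> linarith [h1.1, h1.2]
  · have h2 := kap_le hy (hΦ _ h) w
    rw [← hκ] at h2
    have h3 : ‖x‖ - c ≤ ‖y‖ := by
      have := norm_sub_norm_le x y
      linarith
    have h4 : κ * (‖x‖ - c) ≤ normAtPlace w y := (mul_le_mul_of_nonneg_left h3 hκ0.le).trans h2
    have h5 : κ * c ≤ c := by
      have hc0 : 0 ≤ c := (norm_nonneg _).trans hxy
      exact mul_le_of_le_one_left hc0 hκ1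
    constructor <;> nlinarith [h1.1, h1.2]

/-! ### The Lipschitz estimate -/

lemma exp_sub_le_of_le {s : ℂ} {σ₀ L u t : ℝ} (hσ : 0 ≤ σ₀) (hs : σ₀ ≤ s.re) (hL : 0 ≤ L)
    (hu : L ≤ u) (ht : L ≤ t) :
    ‖Complex.exp (-(s * (u : ℂ))) - Complex.exp (-(s * (t : ℂ)))‖ ≤
      ‖s‖ * Real.exp (-(σ₀ * L)) * |u - t| := by
  have hd : ∀ r ∈ Set.Ici L, HasDerivWithinAt (fun r : ℝ => Complex.exp (-(s * (r : ℂ))))
      (Complex.exp (-(s * (r : ℂ))) * (-(s * 1))) (Set.Ici L) r := by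
    intro r _
    have h1 : HasDerivAt (fun r : ℝ => (r : ℂ)) 1 r := Complex.ofRealCLM.hasDerivAt
    exact ((h1.const_mul s).neg.cexp).hasDerivWithinAt
  have hb : ∀ r ∈ Set.Ici L, ‖Complex.exp (-(s * (r : ℂ))) * (-(s * 1))‖ ≤
      ‖s‖ * Real.exp (-(σ₀ * L)) := by
    intro r hr
    rw [norm_mul, norm_neg, mul_one, Complex.norm_exp, Complex.neg_re, Complex.re_mul_ofReal,
      mul_comm]
    refine mul_le_mul_of_nonneg_left (Real.exp_le_exp.mpr ?_) (norm_nonneg _)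
    have hr' : L ≤ r := hr
    have : σ₀ * L ≤ s.re * r := mul_le_mul hs hr' hL (hσ.trans hs)
    linarith
  have := Convex.norm_image_sub_le_of_norm_hasDerivWithin_le hd hb (convex_Ici L)
    (Set.mem_Ici.mpr ht) (Set.mem_Ici.mpr hu)
  rwa [Real.norm_eq_abs] at this

/-- The Lipschitz estimate, with constants which depend on the degree only. -/
theorem lipG {n : ℕ} (hn : finrank ℚ K = n) {σ₀ : ℝ} (hσ : 0 < σ₀) {Φ : logSpace K → ℝ}
    (hΦ1 : ∀ z, |Φ z| ≤ 1) (hΦ2 : ∀ z z', |Φ z - Φ z'| ≤ ‖z - z'‖)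
    (hΦ3 : ∀ z, Φ z ≠ 0 → ‖z‖ ≤ 2) {c : ℝ} {x y : mixedSpace K}
    (hx : mixedEmbedding.norm x ≠ 0) (hy : mixedEmbedding.norm y ≠ 0) (hxy : ‖x - y‖ ≤ c)
    (hX : 8 * c ≤ kap n * ‖x‖) (hX1 : 4 ≤ kap n * ‖x‖) (a : TA K) (b : TB K) (σ : SG K) {s : ℂ}
    (hs : σ₀ ≤ s.re) : ‖hTP Φ a b σ s y - hTP Φ a b σ s x‖ ≤
      (6 + n) * (kap n / 4) ^ (-(n * σ₀ + 1)) * (sz a b * (1 + ‖s‖)) * c *
        ‖x‖ ^ (-(n * σ₀ + 1)) := by
  subst hn
  set n : ℝ := (finrank ℚ K : ℝ) with hn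
  set κ := kap (finrank ℚ K) with hκ
  have hκ0 : 0 < κ := kap_pos _
  have hn1 : (1 : ℝ) ≤ n := by rw [hn]; exact_mod_cast finrank_pos
  have hc0 : 0 ≤ c := (norm_nonneg _).trans hxy
  have hsz := L90.one_le_sz a b
  have hs0 := norm_nonneg s
  have hXpos : 0 < ‖x‖ := by
    by_contra h
    have h' : ‖x‖ = 0 := le_antisymm (not_lt.mp h) (norm_nonneg _)
    rw [h', mul_zero] at hX1
    linarith
  have hZ : 0 ≤ sz a b * (1 + ‖s‖) := by positivity
  have hrhs : 0 ≤ (6 + n) * (κ / 4) ^ (-(n * σ₀ + 1)) * (sz a b * (1 + ‖s‖)) * c *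
        ‖x‖ ^ (-(n * σ₀ + 1)) := by positivity
  by_cases hP : Φ (logMap x) ≠ 0 ∨ Φ (logMap y) ≠ 0
  swap
  · push Not at hP
    have e1 : Ray.hP Φ s x = 0 := by rw [Ray.hP, if_neg hx, hP.1]; simp
    have e2 : Ray.hP Φ s y = 0 := by rw [Ray.hP, if_neg hy, hP.2]; simp
    rw [hTP, hTP, e1, e2, ite_self, ite_self, mul_zero, mul_zero, sub_zero, norm_zero]
    exact hrhs
  have hcmp := comparableP hΦ3 hx hy hxy hX hP
  set m : ℝ := κ / 4 * ‖x‖ with hm
  have hm1 : 1 ≤ m := by rw [hm]; linarith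
  have hm0 : 0 < m := by linarith
  have hcm : c < m := by rw [hm]; linarith
  have hsg : sgn x = sgn y := sgn_eq hxy hcm fun w => (hcmp w).1
  have hxe : hTP Φ a b σ s x = if sgn x = σ then lamX a b x * ((Φ (logMap x) : ℂ) *
      Complex.exp (-(s * (Real.log (mixedEmbedding.norm x) : ℂ)))) else 0 := by
    rw [hTP, Ray.hP, if_neg hx, mul_ite, mul_zero]
  have hye : hTP Φ a b σ s y = if sgn x = σ then lamX a b y * ((Φ (logMap y) : ℂ) *
      Complex.exp (-(s * (Real.log (mixedEmbedding.norm y) : ℂ)))) else 0 := by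
    rw [hTP, Ray.hP, if_neg hy, mul_ite, mul_zero, hsg]
  rw [hxe, hye]
  by_cases hσg : sgn x = σ
  swap
  · rw [if_neg hσg, if_neg hσg, sub_zero, norm_zero]
    exact hrhs
  rw [if_pos hσg, if_pos hσg]
  set ε : ℝ := c / m with hε
  have hε0 : 0 ≤ ε := div_nonneg hc0 hm0.le
  -- logarithms at places
  have h1 : ∀ w, |Real.log (normAtPlace w x) - Real.log (normAtPlace w y)| ≤ ε := by
    intro w
    refine (abs_log_sub_le hm0 (hcmp w).1 (hcmp w).2).trans ?_
    exact div_le_div_of_nonneg_right ((abs_normAtPlace_sub_le w x y).trans hxy) hm0.le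
  have h2 : |Real.log (mixedEmbedding.norm x) - Real.log (mixedEmbedding.norm y)| ≤ n * ε := by
    rw [log_norm_eq hx, log_norm_eq hy, ← Finset.sum_sub_distrib]
    refine (Finset.abs_sum_le_sum_abs _ _).trans ?_
    have e : n = ∑ w : InfinitePlace K, (w.mult : ℝ) := by
      rw [hn]; exact_mod_cast (sum_mult_eq (K := K)).symm
    rw [e, Finset.sum_mul]
    refine Finset.sum_le_sum fun w _ => ?_
    rw [← mul_sub, abs_mul, abs_of_nonneg (Nat.cast_nonneg _)]
    exact mul_le_mul_of_nonneg_left (h1 w) (Nat.cast_nonneg _)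
  have h3 : ‖logMap y - logMap x‖ ≤ 4 * ε := by
    rw [norm_sub_rev]
    refine (pi_norm_le_iff_of_nonneg (by positivity)).mpr fun w => ?_
    rw [Pi.sub_apply, logMap_apply, logMap_apply, ← mul_sub, Real.norm_eq_abs, abs_mul,
      abs_of_nonneg (Nat.cast_nonneg _)]
    have e : Real.log (normAtPlace w.1 x) - Real.log (mixedEmbedding.norm x) * n⁻¹ -
        (Real.log (normAtPlace w.1 y) - Real.log (mixedEmbedding.norm y) * n⁻¹) =
        (Real.log (normAtPlace w.1 x) - Real.log (normAtPlace w.1 y)) -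
          (Real.log (mixedEmbedding.norm x) - Real.log (mixedEmbedding.norm y)) * n⁻¹ := by ring
    have hn0 : 0 < n := by linarith
    have h4 : |Real.log (normAtPlace w.1 x) - Real.log (mixedEmbedding.norm x) * n⁻¹ -
        (Real.log (normAtPlace w.1 y) - Real.log (mixedEmbedding.norm y) * n⁻¹)| ≤ 2 * ε := by
      rw [e]
      refine (abs_sub _ _).trans ?_
      rw [abs_mul, abs_of_pos (inv_pos.mpr hn0)]
      have h5 := mul_le_mul_of_nonneg_right h2 (inv_pos.mpr hn0).le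
      have h6 : n * ε * n⁻¹ = ε := by field_simp
      linarith [h1 w.1]
    calc (w.1.mult : ℝ) * _ ≤ 2 * (2 * ε) :=
          mul_le_mul (mult_le_two _) h4 (abs_nonneg _) (by norm_num)
      _ = 4 * ε := by ring
  have h4 : |Φ (logMap y) - Φ (logMap x)| ≤ 4 * ε := (hΦ2 _ _).trans h3
  have h5 := L90.lamX_sub_le (a := a) (b := b) hm0 hxy (fun w => (hcmp w).1) fun w => (hcmp w).2
  rw [← hε] at h5
  -- the exponentials
  set L : ℝ := n * Real.log m with hL
  have hL0 : 0 ≤ L := by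
    rw [hL]
    exact mul_nonneg (by linarith) (Real.log_nonneg hm1)
  have hlog : ∀ z : mixedSpace K, (∀ w, m ≤ normAtPlace w z) →
      L ≤ Real.log (mixedEmbedding.norm z) := by
    intro z hz
    have h5 := pow_le_norm hm0.le hz
    have := Real.log_le_log (by positivity) h5
    rwa [Real.log_pow] at this
  have hLx := hlog x fun w => (hcmp w).1
  have hLy := hlog y fun w => (hcmp w).2
  have hmL : Real.exp (-(σ₀ * L)) = m ^ (-(n * σ₀)) := by
    rw [Real.rpow_def_of_pos hm0, hL]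
    congr 1
    ring
  set ex := Complex.exp (-(s * (Real.log (mixedEmbedding.norm x) : ℂ))) with hex
  set ey := Complex.exp (-(s * (Real.log (mixedEmbedding.norm y) : ℂ))) with hey
  have hNx : ‖ex‖ ≤ m ^ (-(n * σ₀)) := by
    rw [hex, Complex.norm_exp, Complex.neg_re, Complex.re_mul_ofReal, ← hmL]
    refine Real.exp_le_exp.mpr ?_
    have : σ₀ * L ≤ s.re * Real.log (mixedEmbedding.norm x) :=
      mul_le_mul hs hLx hL0 (hσ.le.trans hs)
    linarith
  have hdiff : ‖ey - ex‖ ≤ ‖s‖ * m ^ (-(n * σ₀)) * (n * ε) := by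
    have h6 := exp_sub_le_of_le hσ.le hs hL0 hLy hLx
    rw [hmL] at h6
    refine h6.trans (mul_le_mul_of_nonneg_left ?_ (by positivity))
    rw [abs_sub_comm]
    exact h2
  set M : ℝ := m ^ (-(n * σ₀)) with hM
  have hM0 : 0 < M := Real.rpow_pos_of_pos hm0 _
  set px : ℝ := Φ (logMap x) with hpx
  set py : ℝ := Φ (logMap y) with hpy
  set ax := lamX a b x with hax
  set ay := lamX a b y with hay
  have e0 : ay * ((py : ℂ) * ey) - ax * ((px : ℂ) * ex) =
      (ay - ax) * ((px : ℂ) * ex) + ay * (((py - px : ℝ) : ℂ) * ex + (py : ℂ) * (ey - ex)) := by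
    push_cast
    ring
  have hay1 : ‖ay‖ ≤ 1 := LATH49.norm_lamX_le _ _ _
  have hpx1 : ‖(px : ℂ)‖ ≤ 1 := by rw [Complex.norm_real, Real.norm_eq_abs]; exact hΦ1 _
  have hpy1 : ‖(py : ℂ)‖ ≤ 1 := by rw [Complex.norm_real, Real.norm_eq_abs]; exact hΦ1 _
  have t1 : ‖(ay - ax) * ((px : ℂ) * ex)‖ ≤ sz a b * (2 * ε) * M := by
    rw [norm_mul, norm_mul]
    refine mul_le_mul h5 ?_ (by positivity) (by positivity)
    exact (mul_le_of_le_one_left (norm_nonneg _) hpx1).trans hNx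
  have t2 : ‖((py - px : ℝ) : ℂ) * ex‖ ≤ 4 * ε * M := by
    rw [norm_mul, Complex.norm_real, Real.norm_eq_abs]
    exact mul_le_mul h4 hNx (norm_nonneg _) (by positivity)
  have t3 : ‖(py : ℂ) * (ey - ex)‖ ≤ ‖s‖ * M * (n * ε) := by
    rw [norm_mul]
    exact (mul_le_of_le_one_left (norm_nonneg _) hpy1).trans hdiff
  have t4 : ‖ay * (((py - px : ℝ) : ℂ) * ex + (py : ℂ) * (ey - ex))‖ ≤
      4 * ε * M + ‖s‖ * M * (n * ε) := by
    rw [norm_mul]
    refine (mul_le_of_le_one_left (norm_nonneg _) hay1).trans ?_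
    exact (norm_add_le _ _).trans (add_le_add t2 t3)
  rw [e0]
  refine (norm_add_le _ _).trans ((add_le_add t1 t4).trans ?_)
  have hεM : ε * M = (κ / 4) ^ (-(n * σ₀ + 1)) * c * ‖x‖ ^ (-(n * σ₀ + 1)) := by
    have e1 : m ^ (-(n * σ₀ + 1)) = m⁻¹ * M := by
      rw [neg_add, Real.rpow_add hm0, Real.rpow_neg_one]
      ring
    have e2 : m ^ (-(n * σ₀ + 1)) = (κ / 4) ^ (-(n * σ₀ + 1)) * ‖x‖ ^ (-(n * σ₀ + 1)) := by
      rw [hm, Real.mul_rpow (by positivity) hXpos.le]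
    calc ε * M = c * (m⁻¹ * M) := by rw [hε]; ring
      _ = _ := by rw [← e1, e2]; ring
  have hεM0 : 0 ≤ ε * M := by positivity
  have hfin : sz a b * (2 * ε) * M + (4 * ε * M + ‖s‖ * M * (n * ε)) ≤
      (6 + n) * (sz a b * (1 + ‖s‖)) * (ε * M) := by
    have e1 : sz a b * (2 * ε) * M + (4 * ε * M + ‖s‖ * M * (n * ε)) =
        (2 * sz a b + 4 + n * ‖s‖) * (ε * M) := by ring
    rw [e1]
    refine mul_le_mul_of_nonneg_right ?_ hεM0
    have e2 : 0 ≤ (sz a b - 1) * ‖s‖ := mul_nonneg (by linarith) hs0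
    have e3 : 0 ≤ n * ((sz a b - 1) * ‖s‖) := by positivity
    have e4 : 0 ≤ n * sz a b := by positivity
    have e5 : 0 ≤ sz a b * ‖s‖ := by positivity
    have e6 : (6 + n) * (sz a b * (1 + ‖s‖)) = 6 * sz a b + 6 * (sz a b * ‖s‖) + n * sz a b +
        n * ((sz a b - 1) * ‖s‖) + n * ‖s‖ := by ring
    rw [e6]
    linarith
  refine hfin.trans (le_of_eq ?_)
  rw [hεM]
  ring

lemma mul_gU {n : ℕ} (hn : n ≠ 0) : (n : ℝ) * gU n + 1 = n + 1 / 2 := by
  have : (n : ℝ) ≠ 0 := Nat.cast_ne_zero.mpr hn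
  unfold gU
  field_simp
  ring

lemma gU_pos {n : ℕ} (hn : n ≠ 0) : 0 < gU n := by
  have h1 : (1 : ℝ) ≤ n := by exact_mod_cast Nat.one_le_iff_ne_zero.mpr hn
  have h2 : 1 / (2 * (n : ℝ)) ≤ 1 / 2 := by
    apply div_le_div_of_nonneg_left (by norm_num) (by norm_num) (by linarith)
  unfold gU
  linarith

end Basic

end Pool.Agent.Lib.MP_bf61d2_nt.Artin.Ray.LU69

namespace Pool.Agent.Lib.MP_bf61d2_nt.Artin.Ray

open NumberField NumberField.mixedEmbedding NumberField.Units NumberField.InfinitePlace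

open NumberField.mixedEmbedding.fundamentalCone NumberField.Units.dirichletUnitTheorem

open Module LU69

open scoped Classical nonZeroDivisors

universe u

/-- **UNIF, module LIPU.** -/
theorem stLIPU (n : ℕ) : StLIPU.{u} n := by
  set D : ℝ := (6 + n) * (kap n / 4) ^ (-((n : ℝ) + 1 / 2)) with hD
  have hκ := kap_pos n
  have hD0 : 0 < D := by positivity
  refine ⟨max (max (8 / kap n) D) 1, le_max_right _ _, ?_⟩
  set C : ℝ := max (max (8 / kap n) D) 1 with hC
  have hC1 : 8 / kap n ≤ C := (le_max_left _ _).trans (le_max_left _ _)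
  have hC2 : D ≤ C := (le_max_right _ _).trans (le_max_left _ _)
  intro K _ _ hn Phi hPhi c R hc hR x y hx hy hxy hX a b σ s hs hZ
  have hn0 : n ≠ 0 := by rw [← hn]; exact finrank_pos.ne'
  obtain ⟨h1, h2, h3⟩ := hPhi
  have hcR : 1 ≤ c * R := by nlinarith
  have h8 : 8 * (c * R) ≤ kap n * ‖x‖ := by
    have := (mul_le_mul_of_nonneg_right hC1 (show (0 : ℝ) ≤ c * R by linarith)).trans hX
    rw [div_mul_eq_mul_div, div_le_iff₀ hκ] at this
    linarith
  have hcc : c ≤ c * R := by nlinarith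
  have h4 := lipG hn (gU_pos hn0) h1 (by simpa using h2) (by simpa using h3) hx hy hxy
    (by linarith) (by linarith) a b σ hs
  rw [mul_gU hn0, ← hD] at h4
  refine h4.trans ?_
  refine mul_le_mul_of_nonneg_right ?_ (by positivity)
  have h5 : sz a b * (1 + ‖s‖) * c ≤ c * R := by
    rw [mul_comm c R]
    exact mul_le_mul_of_nonneg_right hZ (by linarith)
  have h6 : 0 ≤ sz a b * (1 + ‖s‖) * c := by
    have := L90.one_le_sz a b
    positivity
  calc D * (sz a b * (1 + ‖s‖)) * c = D * (sz a b * (1 + ‖s‖) * c) := by ring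
    _ ≤ C * (c * R) := mul_le_mul hC2 h5 h6 (hD0.le.trans hC2)

end Pool.Agent.Lib.MP_bf61d2_nt.Artin.Ray
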