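import Mathlib
import Pool.Agent.Lib.MP_bf61d2_nt.Trim.Artin.UK.StmtsU84
import Pool.Agent.Lib.MP_bf61d2_nt.Trim.Zeta.Lattice

set_option autoImplicit false

/-!
UNIF (MP_bf61d2_nt), module PACK: sums over separated points of a normed space, with
constants which depend on the dimension only.
-/

namespace Pool.Agent.Lib.MP_bf61d2_nt.Zeta
end Pool.Agent.Lib.MP_bf61d2_nt.Zeta

namespace NumberField
end NumberField

namespace Pool.Agent.Lib.MP_bf61d2_nt.Artin.Ray.LU69
end Pool.Agent.Lib.MP_bf61d2_nt.Artin.Ray.LU69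

namespace Pool.Agent.Lib.MP_bf61d2_nt.Artin.Ray.LU69

open MeasureTheory Metric Module

open Pool.Agent.Lib.MP_bf61d2_nt.Zeta

open scoped ENNReal

section Pack

variable {E : Type*} [NormedAddCommGroup E] [NormedSpace ℝ E] [FiniteDimensional ℝ E]

/-- The number of separated points of a ball. -/
theorem card_le_of_sep {T : ℝ} (hT : 0 ≤ T) (s : Finset E) (hs : ∀ c ∈ s, ‖c‖ ≤ T)
    (h : ∀ c ∈ s, ∀ d ∈ s, c ≠ d → 1 ≤ ‖c - d‖) : (s.card : ℝ) ≤ (2 * T + 1) ^ finrank ℝ E := by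
  borelize E
  let μ : Measure E := Measure.addHaar
  set δ : ℝ := (1 : ℝ) / 2 with hδ
  set ρ : ℝ := T + 1 / 2 with hρ
  have δpos : 0 < δ := by norm_num
  have ρpos : 0 < ρ := by positivity
  set A := ⋃ c ∈ s, ball (c : E) δ with hA
  have D : Set.Pairwise (s : Set E) (Function.onFun Disjoint fun c => ball (c : E) δ) := by
    rintro c hc d hd hcd
    apply ball_disjoint_ball
    rw [dist_eq_norm]
    have := h c hc d hd hcd
    rw [hδ]
    linarith
  have A_subset : A ⊆ ball (0 : E) ρ := by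
    refine Set.iUnion₂_subset fun x hx => ?_
    apply ball_subset_ball'
    rw [dist_zero_right, hδ, hρ]
    linarith [hs x hx]
  have I :
    (s.card : ℝ≥0∞) * ENNReal.ofReal (δ ^ finrank ℝ E) * μ (ball 0 1) ≤
      ENNReal.ofReal (ρ ^ finrank ℝ E) * μ (ball 0 1) :=
    calc
      (s.card : ℝ≥0∞) * ENNReal.ofReal (δ ^ finrank ℝ E) * μ (ball 0 1) = μ A := by
        rw [hA, measure_biUnion_finset D fun c _ => measurableSet_ball]
        simp only [μ.addHaar_ball_of_pos _ δpos]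
        simp only [Finset.sum_const, nsmul_eq_mul, mul_assoc]
      _ ≤ μ (ball (0 : E) ρ) := measure_mono A_subset
      _ = ENNReal.ofReal (ρ ^ finrank ℝ E) * μ (ball 0 1) := by
        simp only [μ.addHaar_ball_of_pos _ ρpos]
  have J : (s.card : ℝ≥0∞) * ENNReal.ofReal (δ ^ finrank ℝ E) ≤ ENNReal.ofReal (ρ ^ finrank ℝ E) :=
    (ENNReal.mul_le_mul_iff_left (measure_ball_pos _ _ zero_lt_one).ne' measure_ball_lt_top.ne).1 I
  have K : (s.card : ℝ) * δ ^ finrank ℝ E ≤ ρ ^ finrank ℝ E := by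
    have := ENNReal.toReal_le_of_le_ofReal (pow_nonneg ρpos.le _) J
    rwa [ENNReal.toReal_mul, ENNReal.toReal_natCast,
      ENNReal.toReal_ofReal (pow_nonneg δpos.le _)] at this
  have e1 : ρ ^ finrank ℝ E = (2 * T + 1) ^ finrank ℝ E * δ ^ finrank ℝ E := by
    rw [← mul_pow]
    congr 1
    rw [hρ, hδ]
    ring
  rw [e1] at K
  exact le_of_mul_le_mul_right K (pow_pos δpos _)

/-- The packing constant. -/
noncomputable def Cpack (n : ℕ) : ℝ := 5 ^ n * (1 - (2 : ℝ) ^ (-(1 / 2 : ℝ)))⁻¹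

lemma half_pow_lt : (2 : ℝ) ^ (-(1 / 2 : ℝ)) < 1 :=
  Real.rpow_lt_one_of_one_lt_of_neg (by norm_num) (by norm_num)

lemma Cpack_pos (n : ℕ) : 0 < Cpack n := by
  have := half_pow_lt
  have h : 0 < 1 - (2 : ℝ) ^ (-(1 / 2 : ℝ)) := by linarith
  unfold Cpack
  positivity

theorem sum_rpow_le {ι : Type*} (f : ι → E) (hf : ∀ i j, i ≠ j → 1 ≤ ‖f i - f j‖) (S : Finset ι)
    (hS : ∀ i ∈ S, 1 ≤ ‖f i‖) {e : ℝ} (he : (finrank ℝ E : ℝ) + 1 / 2 ≤ e) :
    ∑ i ∈ S, ‖f i‖ ^ (-e) ≤ Cpack (finrank ℝ E) := by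
  classical
  set n := finrank ℝ E with hn
  set r : ℝ := (2 : ℝ) ^ (-(1 / 2 : ℝ)) with hr
  have hr0 : 0 ≤ r := by positivity
  have hr1 : r < 1 := half_pow_lt
  set g : ι → ℕ := fun i => Nat.log 2 ⌊‖f i‖⌋₊ with hg
  have he0 : 0 ≤ e := by
    have : (0 : ℝ) ≤ n := Nat.cast_nonneg _
    linarith
  have hlow : ∀ i ∈ S, (2 : ℝ) ^ g i ≤ ‖f i‖ := by
    intro i hi
    have h1 : ⌊‖f i‖⌋₊ ≠ 0 := by
      have := (Nat.one_le_floor_iff (‖f i‖)).mpr (hS i hi)
      omega
    have h2 := Nat.pow_log_le_self 2 h1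
    have h3 : ((2 ^ g i : ℕ) : ℝ) ≤ (⌊‖f i‖⌋₊ : ℝ) := by exact_mod_cast h2
    push_cast at h3
    exact h3.trans (Nat.floor_le (norm_nonneg _))
  have hup : ∀ i ∈ S, ‖f i‖ ≤ (2 : ℝ) ^ (g i + 1) := by
    intro i hi
    have h2 := Nat.lt_pow_succ_log_self (b := 2) (by norm_num) ⌊‖f i‖⌋₊
    have h3 : ((⌊‖f i‖⌋₊ + 1 : ℕ) : ℝ) ≤ ((2 ^ (g i + 1) : ℕ) : ℝ) := by exact_mod_cast h2
    push_cast at h3
    exact (Nat.lt_floor_add_one _).le.trans h3
  set N : ℕ := S.sup g + 1 with hN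
  have hmaps : ∀ i ∈ S, g i ∈ Finset.range N := by
    intro i hi
    rw [Finset.mem_range, hN]
    exact Nat.lt_succ_of_le (Finset.le_sup hi)
  rw [← Finset.sum_fiberwise_of_maps_to hmaps]
  have hfib : ∀ k ∈ Finset.range N, ∑ i ∈ S with g i = k, ‖f i‖ ^ (-e) ≤ 5 ^ n * r ^ k := by
    intro k _
    have h2k : (0 : ℝ) < 2 ^ k := by positivity
    have h12k : (1 : ℝ) ≤ 2 ^ k := one_le_pow₀ (by norm_num)
    have hcard : ((S.filter fun i => g i = k).card : ℝ) ≤ (5 * 2 ^ k) ^ n := by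
      have hinj : Set.InjOn f ((S.filter fun i => g i = k) : Set ι) := by
        intro i _ j _ hij
        by_contra hne
        have := hf i j hne
        rw [hij, sub_self, norm_zero] at this
        linarith
      have h1 := card_le_of_sep (T := 2 ^ (k + 1)) (by positivity)
        ((S.filter fun i => g i = k).image f) (by
          intro c hc
          obtain ⟨i, hi, rfl⟩ := Finset.mem_image.mp hc
          rw [Finset.mem_filter] at hi
          have := hup i hi.1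
          rwa [hi.2] at this) (by
          intro c hc d hd hcd
          obtain ⟨i, hi, rfl⟩ := Finset.mem_image.mp hc
          obtain ⟨j, hj, rfl⟩ := Finset.mem_image.mp hd
          exact hf i j fun h => hcd (by rw [h]))
      rw [Finset.card_image_of_injOn hinj] at h1
      refine h1.trans (pow_le_pow_left₀ (by positivity) ?_ _)
      rw [pow_succ]
      linarith
    calc ∑ i ∈ S with g i = k, ‖f i‖ ^ (-e) ≤ ∑ i ∈ S with g i = k, ((2 : ℝ) ^ k) ^ (-e) := by
          refine Finset.sum_le_sum fun i hi => ?_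
          rw [Finset.mem_filter] at hi
          have h1 := hlow i hi.1
          rw [hi.2] at h1
          exact Real.rpow_le_rpow_of_nonpos h2k h1 (by linarith)
      _ = ((S.filter fun i => g i = k).card : ℝ) * ((2 : ℝ) ^ k) ^ (-e) := by
          rw [Finset.sum_const, nsmul_eq_mul]
      _ ≤ (5 * 2 ^ k) ^ n * ((2 : ℝ) ^ k) ^ (-e) :=
          mul_le_mul_of_nonneg_right hcard (by positivity)
      _ = 5 ^ n * (((2 : ℝ) ^ k) ^ (n : ℝ) * ((2 : ℝ) ^ k) ^ (-e)) := by
          rw [mul_pow, Real.rpow_natCast]; ring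
      _ = 5 ^ n * ((2 : ℝ) ^ k) ^ ((n : ℝ) + -e) := by rw [Real.rpow_add h2k]
      _ ≤ 5 ^ n * ((2 : ℝ) ^ k) ^ (-(1 / 2 : ℝ)) := by
          refine mul_le_mul_of_nonneg_left ?_ (by positivity)
          exact Real.rpow_le_rpow_of_exponent_le h12k (by linarith)
      _ = 5 ^ n * r ^ k := by
          congr 1
          rw [hr, ← Real.rpow_natCast (2 : ℝ) k, ← Real.rpow_natCast _ k,
            ← Real.rpow_mul (by norm_num), ← Real.rpow_mul (by norm_num), mul_comm (k : ℝ)]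
  refine (Finset.sum_le_sum hfib).trans ?_
  rw [← Finset.mul_sum]
  refine mul_le_mul_of_nonneg_left ?_ (by positivity)
  have h1 := (summable_geometric_of_lt_one hr0 hr1).sum_le_tsum (Finset.range N)
    fun i _ => by positivity
  rwa [tsum_geometric_of_lt_one hr0 hr1] at h1

theorem tsum_pt_le {ι : Type*} [Fintype ι] (b : Basis ι ℝ E)
    (hb : ∀ a : ι → ℤ, a ≠ 0 → 1 ≤ ‖pt b a‖) {e : ℝ} (he : (finrank ℝ E : ℝ) + 1 / 2 ≤ e) :
    ∑' a : ι → ℤ, ‖pt b a‖ ^ (-e) ≤ Cpack (finrank ℝ E) := by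
  classical
  have he0 : 0 < e := by
    have : (0 : ℝ) ≤ finrank ℝ E := Nat.cast_nonneg _
    linarith
  have hsum := summable_pt b (ρ := e) (by linarith)
  refine hsum.tsum_le_of_sum_le fun S => ?_
  have h1 : ∑ a ∈ S, ‖pt b a‖ ^ (-e) = ∑ a ∈ S with a ≠ 0, ‖pt b a‖ ^ (-e) := by
    rw [Finset.sum_filter]
    refine Finset.sum_congr rfl fun a _ => ?_
    split_ifs with h
    · rfl
    · push Not at h
      rw [h, pt_zero, norm_zero, Real.zero_rpow (by linarith)]
  rw [h1]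
  refine sum_rpow_le (pt b) (fun i j hij => ?_) _ (fun i hi => ?_) he
  · have h2 : pt b i - pt b j = pt b (i - j) := by
      rw [sub_eq_iff_eq_add, ← pt_add, sub_add_cancel]
    rw [h2]
    exact hb _ (sub_ne_zero.mpr hij)
  · rw [Finset.mem_filter] at hi
    exact hb i hi.2

end Pack

end Pool.Agent.Lib.MP_bf61d2_nt.Artin.Ray.LU69

namespace Pool.Agent.Lib.MP_bf61d2_nt.Artin.Ray

open NumberField NumberField.mixedEmbedding NumberField.Units NumberField.InfinitePlace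

open NumberField.mixedEmbedding.fundamentalCone NumberField.Units.dirichletUnitTheorem

open Module LU69

open scoped Classical nonZeroDivisors

universe u

/-- **UNIF, module PACK.** -/
theorem stPACK (n : ℕ) : StPACK.{u} n := by
  refine ⟨max (3 ^ n) (Cpack n), le_trans (one_le_pow₀ (by norm_num)) (le_max_left _ _), ?_⟩
  intro K _ _ hn S hS
  have hfr : finrank ℝ (mixedSpace K) = n := by rw [mixedEmbedding.finrank, hn]
  refine ⟨fun r hr hSr => ?_, fun h1 => ?_⟩
  · have h2 := card_le_of_sep (T := r) (by linarith) S hSr hS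
    rw [hfr] at h2
    refine h2.trans ?_
    calc (2 * r + 1) ^ n ≤ (3 * r) ^ n := pow_le_pow_left₀ (by linarith) (by linarith) _
      _ = 3 ^ n * r ^ n := mul_pow _ _ _
      _ ≤ _ := mul_le_mul_of_nonneg_right (le_max_left _ _) (by positivity)
  · have h2 := sum_rpow_le (fun x : S => (x : mixedSpace K)) (fun i j hij => hS _ i.2 _ j.2
      (fun h => hij (Subtype.ext h))) Finset.univ (fun i _ => h1 _ i.2) (e := (n : ℝ) + 1 / 2)
      (by rw [hfr])
    rw [hfr] at h2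
    have h3 : ∑ x ∈ S, ‖x‖ ^ (-((n : ℝ) + 1 / 2)) =
        ∑ i : S, ‖(i : mixedSpace K)‖ ^ (-((n : ℝ) + 1 / 2)) :=
      (Finset.sum_coe_sort S fun x => ‖x‖ ^ (-((n : ℝ) + 1 / 2))).symm
    rw [h3]
    exact h2.trans (le_max_right _ _)

end Pool.Agent.Lib.MP_bf61d2_nt.Artin.Ray
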