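import Mathlib
import Pool.Agent.Lib.MP_bf61d2_nt.Trim.Artin.H.DefsH
import Pool.Agent.Lib.MP_bf61d2_nt.Trim.Artin.H.LIPH90
import Pool.Agent.Lib.MP_bf61d2_nt.Trim.Artin.R.DefsR
import Pool.Agent.Lib.MP_bf61d2_nt.Trim.Artin.T.ZM84
import Pool.Agent.Lib.MP_bf61d2_nt.Trim.Artin.UK.LIPU69
import Pool.Agent.Lib.MP_bf61d2_nt.Trim.Artin.UK.PACK69
import Pool.Agent.Lib.MP_bf61d2_nt.Trim.Artin.UK.StmtsU84
import Pool.Agent.Lib.MP_bf61d2_nt.Trim.Artin.ZB69
import Pool.Agent.Lib.MP_bf61d2_nt.Trim.Zeta.Dilation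
import Pool.Agent.Lib.MP_bf61d2_nt.Trim.Zeta.Lattice
import Pool.Agent.Lib.MP_bf61d2_nt.Trim.Zeta.Lip

set_option autoImplicit false

/-!
UNIF (MP_bf61d2_nt), module LCOS: the sum over one coset of a lattice continues to a half plane to
the left of `Re s = 1` and is of polynomial growth there, with constants which depend only on the
degree of the field.
-/

namespace NumberField
end NumberField

namespace Pool.Agent.Lib.MP_bf61d2_nt.Zeta
end Pool.Agent.Lib.MP_bf61d2_nt.Zeta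

namespace Pool.Agent.Lib.MP_bf61d2_nt.Artin.ZB69
end Pool.Agent.Lib.MP_bf61d2_nt.Artin.ZB69

namespace Pool.Agent.Lib.MP_bf61d2_nt.Artin.Ray
end Pool.Agent.Lib.MP_bf61d2_nt.Artin.Ray

namespace Pool.Agent.Lib.MP_bf61d2_nt.Artin.Ray.LU69
end Pool.Agent.Lib.MP_bf61d2_nt.Artin.Ray.LU69

namespace Pool.Agent.Lib.MP_bf61d2_nt.Artin.Ray.LU69

open NumberField NumberField.mixedEmbedding NumberField.Units NumberField.InfinitePlace

open NumberField.mixedEmbedding.fundamentalCone NumberField.Units.dirichletUnitTheorem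

open Module Filter Topology

open Pool.Agent.Lib.MP_bf61d2_nt.Zeta

open Pool.Agent.Lib.MP_bf61d2_nt.Artin.ZB69

open Pool.Agent.Lib.MP_bf61d2_nt.Artin.Ray

open scoped Classical nonZeroDivisors

universe u

lemma gU_lt_gV {n : ℕ} (hn : n ≠ 0) : gU n < gV n := by
  have h1 : (0 : ℝ) < n := by exact_mod_cast Nat.pos_of_ne_zero hn
  unfold gU gV
  have h2 : 1 / (4 * (n : ℝ)) < 1 / (2 * (n : ℝ)) := by
    apply div_lt_div_of_pos_left (by norm_num) (by positivity) (by linarith)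
  linarith

lemma gV_lt_one {n : ℕ} (hn : n ≠ 0) : gV n < 1 := by
  have h1 : (0 : ℝ) < n := by exact_mod_cast Nat.pos_of_ne_zero hn
  unfold gV
  have h2 : 0 < 1 / (4 * (n : ℝ)) := by positivity
  linarith

lemma gU_lt_one {n : ℕ} (hn : n ≠ 0) : gU n < 1 := (gU_lt_gV hn).trans (gV_lt_one hn)

/-- The polynomial bound, with a constant which depends on the degree only. -/
theorem cont_boundU (n : ℕ) (hn : n ≠ 0) (k : ℕ) : ∃ A : ℝ, 0 < A ∧
    ∀ (K : Type u) [Field K] [NumberField K], finrank ℚ K = n → ∀ C : ℝ, 0 < C →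
      ∀ (D H : ℂ → ℂ), DifferentiableOn ℂ H {s | gU n < s.re} →
      (∀ s, gU n < s.re → H s * Qk K 1 s = D s) →
      (∀ s, gU n < s.re → ‖D s‖ ≤ C * (1 + ‖s‖) ^ k) →
      ∀ s : ℂ, gV n ≤ s.re → s.re ≤ 2 → ‖H s‖ ≤ A * C * (1 + |s.im|) ^ (k + 1) := by
  have hn0 : (0 : ℝ) < n := by exact_mod_cast Nat.pos_of_ne_zero hn
  set L : ℝ := n * Real.log (1 + 1 : ℕ) with hLdef
  have hL : 0 < L := mul_pos hn0 (Real.log_pos (by norm_num))
  set a : ℝ := gU n with hadef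
  set b : ℝ := gV n with hbdef
  have ha : a < b := gU_lt_gV hn
  have hb : b < 1 := gV_lt_one hn
  have hb0 : 0 < b := (gU_pos hn).trans ha
  have hc1 : 0 < Real.exp ((1 - b) * L) - 1 := by
    have : 0 < (1 - b) * L := mul_pos (by linarith) hL
    linarith [Real.add_one_lt_exp this.ne']
  have hc2 : 0 < 1 - Real.exp (-((2 - 1) * L)) := by
    have : Real.exp (-((2 - 1) * L)) < Real.exp 0 := Real.exp_lt_exp.mpr (by linarith)
    rw [Real.exp_zero] at this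
    linarith
  obtain ⟨c, hc0, hcl', hcr, hch⟩ : ∃ c : ℝ, 0 < c ∧ c ≤ Real.exp ((1 - b) * L) - 1 ∧
      c ≤ 1 - Real.exp (-((2 - 1) * L)) ∧ c ≤ 1 :=
    ⟨min (min (Real.exp ((1 - b) * L) - 1) (1 - Real.exp (-((2 - 1) * L)))) 1,
      lt_min (lt_min hc1 hc2) one_pos, (min_le_left _ _).trans (min_le_left _ _),
      (min_le_left _ _).trans (min_le_right _ _), min_le_right _ _⟩
  set W : ℝ := 3 + 2 * Real.pi / L with hW
  have hW0 : 3 ≤ W := by
    have : 0 ≤ 2 * Real.pi / L := by positivity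
    linarith
  refine ⟨1 / c * W ^ (k + 1), by positivity, ?_⟩
  intro K _ _ hK C hC D H hH hQ hD s hs1 hs2
  have hLK : L2 K = L := by rw [L2, hK]
  have hkey : ∀ s : ℂ, a < s.re → c ≤ ‖qk K 1 s‖ → ‖H s‖ ≤ C / c * (1 + ‖s‖) ^ (k + 1) := by
    intro s hs hcs
    have h1 : H s * qk K 1 s = (s - 1) * D s := by
      rw [← hQ s hs, ← mul_Qk]
      ring
    have h2 : ‖H s‖ * ‖qk K 1 s‖ = ‖s - 1‖ * ‖D s‖ := by
      rw [← norm_mul, h1, norm_mul]
    have h3 : ‖s - 1‖ ≤ 1 + ‖s‖ := by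
      have := norm_sub_le s 1
      rw [norm_one] at this
      linarith
    have h4 : ‖s - 1‖ * ‖D s‖ ≤ (1 + ‖s‖) * (C * (1 + ‖s‖) ^ k) :=
      mul_le_mul h3 (hD s hs) (norm_nonneg _) (by positivity)
    have h5 : ‖H s‖ * c ≤ C * (1 + ‖s‖) ^ (k + 1) := by
      calc ‖H s‖ * c ≤ ‖H s‖ * ‖qk K 1 s‖ := mul_le_mul_of_nonneg_left hcs (norm_nonneg _)
        _ ≤ (1 + ‖s‖) * (C * (1 + ‖s‖) ^ k) := by rw [h2]; exact h4
        _ = _ := by ring
    rw [div_mul_eq_mul_div, le_div_iff₀ hc0]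
    exact h5
  set j : ℤ := round (s.im * L / (2 * Real.pi)) with hj
  set τ : ℝ := 2 * Real.pi * j / L with hτ
  have hpi := Real.pi_pos
  have hsτ : |s.im - τ| ≤ Real.pi / L := by
    have h1 := abs_sub_round (s.im * L / (2 * Real.pi))
    rw [← hj] at h1
    have h2 : s.im - τ = (s.im * L / (2 * Real.pi) - j) * (2 * Real.pi / L) := by
      rw [hτ]; field_simp
    rw [h2, abs_mul, abs_of_pos (show 0 < 2 * Real.pi / L by positivity)]
    calc _ ≤ 1 / 2 * (2 * Real.pi / L) := mul_le_mul_of_nonneg_right h1 (by positivity)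
      _ = Real.pi / L := by ring
  have hb2 : b < 2 := by linarith
  have hττ : τ - Real.pi / L < τ + Real.pi / L := by
    have : 0 < Real.pi / L := by positivity
    linarith
  set U : Set ℂ := Set.Ioo b 2 ×ℂ Set.Ioo (τ - Real.pi / L) (τ + Real.pi / L) with hU
  have hcl : closure U = Set.Icc b 2 ×ℂ Set.Icc (τ - Real.pi / L) (τ + Real.pi / L) := by
    rw [hU, Complex.closure_reProdIm, closure_Ioo hb2.ne, closure_Ioo hττ.ne]
  have hsU : s ∈ closure U := by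
    rw [hcl, Complex.mem_reProdIm]
    have := abs_le.mp hsτ
    exact ⟨⟨hs1, hs2⟩, by linarith, by linarith⟩
  have hsub : closure U ⊆ {z : ℂ | a < z.re} := by
    rw [hcl]
    intro z hz
    rw [Complex.mem_reProdIm] at hz
    exact lt_of_lt_of_le ha hz.1.1
  have hbd : Bornology.IsBounded U :=
    (Metric.isBounded_Ioo _ _).reProdIm (Metric.isBounded_Ioo _ _)
  have hdc : DiffContOnCl ℂ H U :=
    ⟨hH.mono (subset_closure.trans hsub), hH.continuousOn.mono hsub⟩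
  have hnorm : ∀ z ∈ closure U, 1 + ‖z‖ ≤ W * (1 + |s.im|) := by
    intro z hz
    rw [hcl, Complex.mem_reProdIm] at hz
    have h1 := Complex.norm_le_abs_re_add_abs_im z
    have h2 : |z.re| ≤ 2 := abs_le.mpr ⟨by linarith [hz.1.1], hz.1.2⟩
    have h3 : |z.im - s.im| ≤ 2 * Real.pi / L := by
      have h4 := abs_le.mp hsτ
      have h5 : 2 * Real.pi / L = Real.pi / L + Real.pi / L := by ring
      rw [abs_le, h5]
      exact ⟨by linarith [hz.2.1], by linarith [hz.2.2]⟩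
    have h4 : |z.im| ≤ |s.im| + 2 * Real.pi / L := by
      have h5 : z.im = s.im + (z.im - s.im) := by ring
      rw [h5]
      exact (abs_add_le _ _).trans (by linarith)
    have h6 : 0 ≤ |s.im| := abs_nonneg _
    have h7 : 0 ≤ (W - 1) * |s.im| := mul_nonneg (by linarith) h6
    calc 1 + ‖z‖ ≤ W + |s.im| := by rw [hW]; linarith
      _ ≤ W * (1 + |s.im|) := by linarith
  have hfr : ∀ z ∈ frontier U, ‖H z‖ ≤ C / c * W ^ (k + 1) * (1 + |s.im|) ^ (k + 1) := by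
    intro z hz
    have hzc : z ∈ closure U := frontier_subset_closure hz
    have h1 : c ≤ ‖qk K 1 z‖ := by
      rw [hU, Complex.frontier_reProdIm, closure_Ioo hb2.ne, closure_Ioo hττ.ne,
        frontier_Ioo hb2, frontier_Ioo hττ] at hz
      rcases hz with hz | hz
      · rw [Complex.mem_reProdIm] at hz
        rcases hz.2 with h | h
        · refine hch.trans (norm_q_horizontal K (j := j - 1) ?_)
          rw [h, hτ, hLK]
          push_cast
          field_simp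
          ring
        · refine hch.trans (norm_q_horizontal K (j := j) ?_)
          rw [Set.mem_singleton_iff] at h
          rw [h, hτ, hLK]
          field_simp
      · rw [Complex.mem_reProdIm] at hz
        rcases hz.1 with h | h
        · refine hcl'.trans ?_
          have := norm_q_left K (s := z)
          rwa [h, hLK] at this
        · rw [Set.mem_singleton_iff] at h
          refine hcr.trans ?_
          have := norm_q_right K (s := z)
          rwa [h, hLK] at this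
    refine (hkey z (hsub hzc) h1).trans ?_
    have h2 := pow_le_pow_left₀ (by positivity) (hnorm z hzc) (k + 1)
    rw [mul_pow] at h2
    calc C / c * (1 + ‖z‖) ^ (k + 1) ≤ C / c * (W ^ (k + 1) * (1 + |s.im|) ^ (k + 1)) :=
          mul_le_mul_of_nonneg_left h2 (by positivity)
      _ = _ := by ring
  refine (Complex.norm_le_of_forall_mem_frontier_norm_le hbd hdc hfr hsU).trans (le_of_eq ?_)
  ring

section Sum

variable {K : Type u} [Field K] [NumberField K]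

/-- the size of the function, from the comparison of the coordinates -/
lemma norm_hP_le {Φ : logSpace K → ℝ} (hΦ1 : ∀ z, |Φ z| ≤ 1) (hΦ3 : ∀ z, Φ z ≠ 0 → ‖z‖ ≤ 2)
    {s : ℂ} (hs : 0 ≤ s.re) {x : mixedSpace K} (hx : mixedEmbedding.norm x ≠ 0) :
    ‖hP Φ s x‖ ≤ kap (finrank ℚ K) ^ (-(finrank ℚ K * s.re)) * ‖x‖ ^ (-(finrank ℚ K * s.re)) := by
  set κ := kap (finrank ℚ K) with hκ
  have hκ0 : 0 < κ := kap_pos _
  have hx0 : x ≠ 0 := by rintro rfl; exact hx (map_zero _)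
  have hX : 0 < ‖x‖ := norm_pos_iff.mpr hx0
  by_cases hP : Φ (logMap x) = 0
  · rw [Ray.hP, if_neg hx, hP]
    simp only [Complex.ofReal_zero, zero_mul, norm_zero]
    positivity
  · have h1 := pow_le_norm (m := κ * ‖x‖) (by positivity) (kap_le hx (hΦ3 _ hP))
    have h2 : 0 < (κ * ‖x‖) ^ finrank ℚ K := by positivity
    rw [Ray.hP, if_neg hx, norm_mul, Complex.norm_real, Real.norm_eq_abs,
      Complex.norm_exp, Complex.neg_re, Complex.re_mul_ofReal]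
    refine (mul_le_of_le_one_left (Real.exp_pos _).le (hΦ1 _)).trans ?_
    rw [← Real.mul_rpow hκ0.le hX.le, Real.rpow_def_of_pos (by positivity)]
    apply Real.exp_le_exp.mpr
    have h3 := Real.log_le_log h2 h1
    rw [Real.log_pow] at h3
    nlinarith

variable {n : ℕ} (b : Basis (Fin n) ℝ (mixedSpace K))

lemma summable_hTP (hn : finrank ℚ K = n)
    (hN : ∀ a : Fin n → ℤ, a ≠ 0 → 1 ≤ mixedEmbedding.norm (pt b a))
    {Φ : logSpace K → ℝ} (hΦ1 : ∀ z, |Φ z| ≤ 1) (hΦ3 : ∀ z, Φ z ≠ 0 → ‖z‖ ≤ 2)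
    (α : TA K) (β : TB K) (σ : SG K) {s : ℂ} (hs : 1 < s.re) :
    Summable fun a : Fin n → ℤ => hTP Φ α β σ s (pt b a) := by
  have hn1 : (0 : ℝ) < finrank ℚ K := by exact_mod_cast finrank_pos
  have h1 := summable_pt b (ρ := finrank ℚ K * s.re) (by
    rw [mixedEmbedding.finrank]; nlinarith)
  refine Summable.of_norm_bounded
    (h1.mul_left (kap (finrank ℚ K) ^ (-(finrank ℚ K * s.re)))) fun a => ?_
  by_cases ha : a = 0
  · rw [ha, pt_zero, hTP_zero, norm_zero]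
    have := kap_pos (finrank ℚ K)
    positivity
  · exact (norm_hTP_le _ _ _ _ _ _).trans
      (norm_hP_le hΦ1 hΦ3 (by linarith) (by linarith [hN a ha]))

/-- The difference sum. -/
noncomputable def DG (Φ : logSpace K → ℝ) (α : TA K) (β : TB K) (σ : SG K) (m : ℕ)
    (c : mixedSpace K) (s : ℂ) : ℂ :=
  ∑' z : Fin n → ℤ, (hTP Φ α β σ s ((m : ℝ) • pt b z + c) - hTP Φ α β σ s ((m : ℝ) • pt b z))

/-- One term of the difference sum. -/
lemma dterm {C : ℝ} (hC1 : 1 ≤ C) (hn : finrank ℚ K = n) {Φ : logSpace K → ℝ}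
    (hL : ∀ c R : ℝ, 1 ≤ c → 1 ≤ R → ∀ x y : mixedSpace K, mixedEmbedding.norm x ≠ 0 →
      mixedEmbedding.norm y ≠ 0 → ‖x - y‖ ≤ c → C * (c * R) ≤ ‖x‖ →
      ∀ (a : TA K) (b : TB K) (σ : SG K) (s : ℂ), gU n ≤ s.re → sz a b * (1 + ‖s‖) ≤ R →
        ‖hTP Φ a b σ s y - hTP Φ a b σ s x‖ ≤ C * (c * R) * ‖x‖ ^ (-(n + 1 / 2) : ℝ))
    (hN : ∀ a : Fin n → ℤ, a ≠ 0 → 1 ≤ mixedEmbedding.norm (pt b a))
    (hΦ1 : ∀ z, |Φ z| ≤ 1) {α : TA K} {β : TB K} (hβ : ∑ w, β w = 0) (σ : SG K)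
    {m : ℕ} (hm : m ≠ 0) {M : ℝ} (hM : 1 ≤ M) {c : mixedSpace K} (hc : ‖c‖ ≤ m * M)
    {z : Fin n → ℤ} (hz : z ≠ 0)
    (hcz : (m : ℝ) • pt b z + c ≠ 0 → 1 ≤ mixedEmbedding.norm ((m : ℝ) • pt b z + c))
    {s : ℂ} (hs : gU n ≤ s.re) {R : ℝ} (hR : sz α β * (1 + ‖s‖) ≤ R) :
    ‖hTP Φ α β σ s ((m : ℝ) • pt b z + c) - hTP Φ α β σ s ((m : ℝ) • pt b z)‖ ≤
      3 * (2 * C) ^ (n + 1) * (M * R) ^ (n + 1) * ‖pt b z‖ ^ (-(n + 1 / 2) : ℝ) := by
  have hn0 : n ≠ 0 := by rw [← hn]; exact finrank_pos.ne'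
  have hgU := gU_pos hn0
  have hsz := L90.one_le_sz α β
  have hs0 := norm_nonneg s
  have hR1 : 1 ≤ R := by nlinarith
  have hm1 : (1 : ℝ) ≤ m := by exact_mod_cast Nat.one_le_iff_ne_zero.mpr hm
  have hmp : (0 : ℝ) < m := by linarith
  have hMR : 1 ≤ M * R := by nlinarith
  set x := pt b z with hx
  have hx0 : 0 < ‖x‖ := norm_pos_iff.mpr (pt_ne_zero b hz)
  have hNx := hN z hz
  rw [← hx] at hNx
  set e : ℝ := (n : ℝ) + 1 / 2 with he
  have he0 : 0 < e := by positivity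
  have he1 : e ≤ ((n + 1 : ℕ) : ℝ) := by push_cast; linarith
  have hpow : (0 : ℝ) < ‖x‖ ^ (-e) := Real.rpow_pos_of_pos hx0 _
  have hB0 : 0 ≤ (M * R) ^ (n + 1) := by positivity
  rcases le_or_gt (2 * C * (M * R)) ‖x‖ with h | h
  · set c' := (m : ℝ)⁻¹ • c with hc'
    have hc'M : ‖c'‖ ≤ M := by
      rw [hc', _root_.norm_smul, norm_inv, Real.norm_natCast, inv_mul_le_iff₀ hmp]
      exact hc
    have hmx : (m : ℝ) • x + c = (m : ℝ) • (x + c') := by
      rw [smul_add, hc', smul_smul, mul_inv_cancel₀ hmp.ne', one_smul]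
    have hxc : x + c' ≠ 0 := by
      intro h0
      have h1 : x = -c' := eq_neg_of_add_eq_zero_left h0
      have h2 : ‖x‖ ≤ M := by rw [h1, norm_neg]; exact hc'M
      have h3 : M ≤ M * R := le_mul_of_one_le_right (by linarith) hR1
      have h4 : 2 * (M * R) ≤ 2 * C * (M * R) :=
        mul_le_mul_of_nonneg_right (by linarith) (by linarith)
      linarith
    have hne : (m : ℝ) • x + c ≠ 0 := by
      rw [hmx]
      exact smul_ne_zero hmp.ne' hxc
    have hNxc : mixedEmbedding.norm (x + c') ≠ 0 := by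
      intro h0
      have h1 := hcz hne
      rw [hmx, mixedEmbedding.norm_smul, h0, mul_zero] at h1
      linarith
    have h1 := hL M R hM hR1 x (x + c') (by linarith) hNxc (by
      rw [sub_add_cancel_left, norm_neg]; exact hc'M) (by nlinarith) α β σ s hs hR
    have h2 : ‖hTP Φ α β σ s ((m : ℝ) • x + c) - hTP Φ α β σ s ((m : ℝ) • x)‖ ≤
        ‖hTP Φ α β σ s (x + c') - hTP Φ α β σ s x‖ := by
      rw [hmx, hTP_smul hβ Φ hm, hTP_smul hβ Φ hm, ← mul_sub, norm_mul]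
      exact mul_le_of_le_one_left (norm_nonneg _) (ZM84.norm_fac_le (by linarith))
    refine (h2.trans h1).trans ?_
    refine mul_le_mul_of_nonneg_right ?_ hpow.le
    have h3 : C ≤ 3 * (2 * C) ^ (n + 1) := by
      have h4 : 2 * C ≤ (2 * C) ^ (n + 1) := le_self_pow₀ (by linarith) (Nat.succ_ne_zero n)
      nlinarith
    have h5 : M * R ≤ (M * R) ^ (n + 1) := le_self_pow₀ hMR (Nat.succ_ne_zero n)
    exact mul_le_mul h3 h5 (by linarith) (by positivity)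
  · have hone : ∀ y : mixedSpace K, (y ≠ 0 → 1 ≤ mixedEmbedding.norm y) →
        ‖hTP Φ α β σ s y‖ ≤ 1 := by
      intro y hy
      by_cases hy0 : y = 0
      · rw [hy0, hTP_zero, norm_zero]; norm_num
      · exact (norm_hTP_le _ _ _ _ _ _).trans (norm_hP_le_one hΦ1 (by linarith) (hy hy0))
    have h1 : 1 ≤ mixedEmbedding.norm ((m : ℝ) • x) := by
      rw [mixedEmbedding.norm_smul, abs_of_nonneg hmp.le]
      exact one_le_mul_of_one_le_of_one_le (one_le_pow₀ hm1) hNx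
    have h2 : ‖hTP Φ α β σ s ((m : ℝ) • x + c) - hTP Φ α β σ s ((m : ℝ) • x)‖ ≤ 2 := by
      refine (norm_sub_le _ _).trans ?_
      linarith [hone _ hcz, hone ((m : ℝ) • x) fun _ => h1]
    have h3 : 1 ≤ (2 * C * (M * R)) ^ (n + 1) * ‖x‖ ^ (-e) := by
      have h4 : ‖x‖ ^ e ≤ (2 * C * (M * R)) ^ e := Real.rpow_le_rpow hx0.le h.le he0.le
      have h5 : (2 * C * (M * R)) ^ e ≤ (2 * C * (M * R)) ^ (n + 1) := by
        rw [← Real.rpow_natCast]
        exact Real.rpow_le_rpow_of_exponent_le (by nlinarith) he1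
      calc (1 : ℝ) = ‖x‖ ^ e * ‖x‖ ^ (-e) := by
            rw [← Real.rpow_add hx0, add_neg_cancel, Real.rpow_zero]
        _ ≤ _ := mul_le_mul_of_nonneg_right (h4.trans h5) hpow.le
    rw [mul_pow (2 * C)] at h3
    have h6 : 0 ≤ (2 * C) ^ (n + 1) * (M * R) ^ (n + 1) * ‖x‖ ^ (-e) := by positivity
    calc _ ≤ (2 : ℝ) := h2
      _ ≤ 3 * ((2 * C) ^ (n + 1) * (M * R) ^ (n + 1) * ‖x‖ ^ (-e)) := by linarith
      _ = _ := by ring

/-- The difference sums: summable, analytic, with an explicit bound. -/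
theorem DG_props {C : ℝ} (hC1 : 1 ≤ C) (hn : finrank ℚ K = n) {Φ : logSpace K → ℝ}
    (hL : ∀ c R : ℝ, 1 ≤ c → 1 ≤ R → ∀ x y : mixedSpace K, mixedEmbedding.norm x ≠ 0 →
      mixedEmbedding.norm y ≠ 0 → ‖x - y‖ ≤ c → C * (c * R) ≤ ‖x‖ →
      ∀ (a : TA K) (b : TB K) (σ : SG K) (s : ℂ), gU n ≤ s.re → sz a b * (1 + ‖s‖) ≤ R →
        ‖hTP Φ a b σ s y - hTP Φ a b σ s x‖ ≤ C * (c * R) * ‖x‖ ^ (-(n + 1 / 2) : ℝ))
    (hN : ∀ a : Fin n → ℤ, a ≠ 0 → 1 ≤ mixedEmbedding.norm (pt b a))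
    (hΦ1 : ∀ z, |Φ z| ≤ 1) {α : TA K} {β : TB K} (hβ : ∑ w, β w = 0) (σ : SG K)
    {m : ℕ} (hm : m ≠ 0) {M : ℝ} (hM : 1 ≤ M) {c : mixedSpace K} (hc : ‖c‖ ≤ m * M)
    (hcz : ∀ z : Fin n → ℤ, (m : ℝ) • pt b z + c ≠ 0 →
      1 ≤ mixedEmbedding.norm ((m : ℝ) • pt b z + c)) :
    DifferentiableOn ℂ (DG b Φ α β σ m c) {s | gU n < s.re} ∧
    (∀ s : ℂ, gU n < s.re → Summable fun z : Fin n → ℤ =>
      hTP Φ α β σ s ((m : ℝ) • pt b z + c) - hTP Φ α β σ s ((m : ℝ) • pt b z)) ∧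
    ∀ s : ℂ, gU n < s.re → ‖DG b Φ α β σ m c s‖ ≤
      3 * (2 * C) ^ (n + 1) * (M * (sz α β * (1 + ‖s‖))) ^ (n + 1) * Cpack n + 1 := by
  have hn0 : n ≠ 0 := by rw [← hn]; exact finrank_pos.ne'
  have hgU := gU_pos hn0
  have hsz := L90.one_le_sz α β
  have hfr : finrank ℝ (mixedSpace K) = n := by rw [mixedEmbedding.finrank, hn]
  have hs1 := summable_pt b (ρ := (n : ℝ) + 1 / 2) (by rw [hfr]; linarith)
  have hpack : ∑' z : Fin n → ℤ, ‖pt b z‖ ^ (-((n : ℝ) + 1 / 2)) ≤ Cpack n := by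
    have h1 := tsum_pt_le b (e := (n : ℝ) + 1 / 2) (fun a ha => by
      have h2 := hN a ha
      by_contra hlt
      push Not at hlt
      have h3 : mixedEmbedding.norm (pt b a) ≤ ‖pt b a‖ ^ finrank ℚ K := by
        rw [mixedEmbedding.norm_apply, ← sum_mult_eq (K := K), ← Finset.prod_pow_eq_pow_sum]
        exact Finset.prod_le_prod (fun w _ => pow_nonneg (normAtPlace_nonneg _ _) _)
          fun w _ => pow_le_pow_left₀ (normAtPlace_nonneg _ _) (normAtPlace_le_norm w _) _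
      have h4 : ‖pt b a‖ ^ finrank ℚ K < 1 := pow_lt_one₀ (norm_nonneg _) hlt finrank_pos.ne'
      linarith) (by rw [hfr])
    rwa [hfr] at h1
  have hs2 : Summable fun y : Fin n → ℤ => if y = 0 then (1 : ℝ) else 0 :=
    summable_of_ne_finset_zero (s := {0}) fun y hy => by
      rw [if_neg (by simpa using hy)]
  have hterm : ∀ R : ℝ, ∀ z : Fin n → ℤ, ∀ s : ℂ, gU n < s.re → sz α β * (1 + ‖s‖) ≤ R →
      ‖hTP Φ α β σ s ((m : ℝ) • pt b z + c) - hTP Φ α β σ s ((m : ℝ) • pt b z)‖ ≤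
        3 * (2 * C) ^ (n + 1) * (M * R) ^ (n + 1) * ‖pt b z‖ ^ (-((n : ℝ) + 1 / 2)) +
          if z = 0 then (1 : ℝ) else 0 := by
    intro R z s hs hsR
    have hs0 := norm_nonneg s
    have hR0 : 0 ≤ R := by nlinarith
    by_cases hz : z = 0
    · rw [if_pos hz]
      have h1 : ‖hTP Φ α β σ s ((m : ℝ) • pt b z + c)‖ ≤ 1 := by
        by_cases hy0 : (m : ℝ) • pt b z + c = 0
        · rw [hy0, hTP_zero, norm_zero]; norm_num
        · exact (norm_hTP_le _ _ _ _ _ _).trans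
            (norm_hP_le_one hΦ1 (by linarith) (hcz z hy0))
      have h2 : hTP Φ α β σ s ((m : ℝ) • pt b z) = 0 := by
        rw [hz, pt_zero, smul_zero, hTP_zero]
      rw [h2, sub_zero]
      have h3 : 0 ≤ 3 * (2 * C) ^ (n + 1) * (M * R) ^ (n + 1) *
        ‖pt b z‖ ^ (-((n : ℝ) + 1 / 2)) := by positivity
      linarith
    · rw [if_neg hz, add_zero]
      exact dterm b hC1 hn hL hN hΦ1 hβ σ hm hM hc hz (hcz z) hs.le hsR
  have hdiffR : ∀ R : ℝ, 0 < R →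
      DifferentiableOn ℂ (DG b Φ α β σ m c) ({s | gU n < s.re} ∩ {s | ‖s‖ < R}) := by
    intro R hR
    have hUo : IsOpen ({s : ℂ | gU n < s.re} ∩ {s : ℂ | ‖s‖ < R}) :=
      (isOpen_lt continuous_const Complex.continuous_re).inter
        (isOpen_lt continuous_norm continuous_const)
    have hs3 := (hs1.mul_left (3 * (2 * C) ^ (n + 1) * (M * (sz α β * (1 + R))) ^ (n + 1))).add hs2
    refine Complex.differentiableOn_tsum_of_summable_norm hs3 (fun y => ?_) hUo fun y s hs => ?_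
    · exact ((differentiable_hG α β σ Φ _).sub (differentiable_hG α β σ Φ _)).differentiableOn
    · refine hterm (sz α β * (1 + R)) y s hs.1 ?_
      have : ‖s‖ < R := hs.2
      exact mul_le_mul_of_nonneg_left (by linarith) (by linarith)
  refine ⟨?_, fun s hs => ?_, fun s hs => ?_⟩
  · intro s hs
    have h1 := hdiffR (‖s‖ + 1) (by linarith [norm_nonneg s]) s ⟨hs, by
      show ‖s‖ < ‖s‖ + 1
      linarith⟩
    have hUo : IsOpen ({s : ℂ | gU n < s.re} ∩ {z : ℂ | ‖z‖ < ‖s‖ + 1}) :=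
      (isOpen_lt continuous_const Complex.continuous_re).inter
        (isOpen_lt continuous_norm continuous_const)
    exact (h1.differentiableAt (hUo.mem_nhds ⟨hs, by
      show ‖s‖ < ‖s‖ + 1
      linarith⟩)).differentiableWithinAt
  · have hs3 := (hs1.mul_left (3 * (2 * C) ^ (n + 1) *
      (M * (sz α β * (1 + ‖s‖))) ^ (n + 1))).add hs2
    exact Summable.of_norm_bounded hs3 fun z => hterm _ z s hs le_rfl
  · have hs3 := (hs1.mul_left (3 * (2 * C) ^ (n + 1) *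
      (M * (sz α β * (1 + ‖s‖))) ^ (n + 1))).add hs2
    have h1 := tsum_of_norm_bounded hs3.hasSum fun z => hterm _ z s hs le_rfl
    have h2 : ∑' z : Fin n → ℤ, (3 * (2 * C) ^ (n + 1) *
        (M * (sz α β * (1 + ‖s‖))) ^ (n + 1) * ‖pt b z‖ ^ (-((n : ℝ) + 1 / 2)) +
          if z = 0 then (1 : ℝ) else 0) =
        3 * (2 * C) ^ (n + 1) * (M * (sz α β * (1 + ‖s‖))) ^ (n + 1) *
          (∑' z : Fin n → ℤ, ‖pt b z‖ ^ (-((n : ℝ) + 1 / 2))) + 1 := by
      rw [(hs1.mul_left _).tsum_add hs2, tsum_mul_left, tsum_ite_eq]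
    rw [h2] at h1
    refine (show ‖DG b Φ α β σ m c s‖ ≤ _ from h1).trans ?_
    have hs0 := norm_nonneg s
    have h3 : 0 ≤ 3 * (2 * C) ^ (n + 1) * (M * (sz α β * (1 + ‖s‖))) ^ (n + 1) := by positivity
    have h4 := mul_le_mul_of_nonneg_left hpack h3
    linarith

lemma norm_pt_le_mul {ρ : ℝ} (hρ : ∀ i, ‖b i‖ ≤ ρ) (m : ℕ) (c : Fin n → Fin m) :
    ‖pt b fun i => ((c i : ℕ) : ℤ)‖ ≤ m * (n * ρ) := by
  rw [pt]
  refine (norm_sum_le _ _).trans ?_
  calc ∑ i, ‖((((c i : ℕ) : ℤ) : ℝ)) • b i‖ ≤ ∑ _i : Fin n, (m : ℝ) * ρ := by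
        refine Finset.sum_le_sum fun i _ => ?_
        rw [_root_.norm_smul, Real.norm_eq_abs, Int.cast_natCast, abs_of_nonneg (Nat.cast_nonneg _)]
        exact mul_le_mul (by exact_mod_cast (c i).2.le) (hρ i) (norm_nonneg _) (Nat.cast_nonneg _)
    _ = m * (n * ρ) := by
        rw [Finset.sum_const, nsmul_eq_mul, Finset.card_univ, Fintype.card_fin]
        ring

end Sum

/-- The lattice sum of one orthant: continuation and polynomial bound. -/
theorem latU (n : ℕ) (hn0 : n ≠ 0) {C : ℝ} (hC1 : 1 ≤ C) : ∃ A : ℝ, 0 < A ∧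
    ∀ (K : Type u) [Field K] [NumberField K], finrank ℚ K = n →
    ∀ Φ : logSpace K → ℝ, (∀ z, |Φ z| ≤ 1) → (∀ z, Φ z ≠ 0 → ‖z‖ ≤ 2) →
    (∀ c R : ℝ, 1 ≤ c → 1 ≤ R → ∀ x y : mixedSpace K, mixedEmbedding.norm x ≠ 0 →
      mixedEmbedding.norm y ≠ 0 → ‖x - y‖ ≤ c → C * (c * R) ≤ ‖x‖ →
      ∀ (a : TA K) (b : TB K) (σ : SG K) (s : ℂ), gU n ≤ s.re → sz a b * (1 + ‖s‖) ≤ R →
        ‖hTP Φ a b σ s y - hTP Φ a b σ s x‖ ≤ C * (c * R) * ‖x‖ ^ (-(n + 1 / 2) : ℝ)) →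
    ∀ b : Basis (Fin n) ℝ (mixedSpace K), ∀ ρ : ℝ, 1 ≤ ρ → (∀ i, ‖b i‖ ≤ ρ) →
    (∀ z : Fin n → ℤ, z ≠ 0 → 1 ≤ mixedEmbedding.norm (pt b z)) →
    ∀ (α : TA K) (β : TB K), ∑ w, β w = 0 → ∀ σ : SG K,
    ∃ H : ℂ → ℂ, DifferentiableOn ℂ H {s | gU n < s.re} ∧
      (∀ s : ℂ, 1 < s.re → H s = (s - 1) * ∑' z : Fin n → ℤ, hTP Φ α β σ s (pt b z)) ∧
      ∀ s : ℂ, gV n ≤ s.re → s.re ≤ 2 →
        ‖H s‖ ≤ A * (ρ * (sz α β * (1 + |s.im|))) ^ (n + 2) := by
  obtain ⟨A₀, hA₀, hA⟩ := cont_boundU.{u} n hn0 (n + 1)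
  have hn1 : (1 : ℝ) ≤ n := by exact_mod_cast Nat.one_le_iff_ne_zero.mpr hn0
  set C₅ : ℝ := 3 * (2 * C) ^ (n + 1) * Cpack n with hC₅
  have hC₅0 : 0 < C₅ := by
    have := Cpack_pos n
    positivity
  refine ⟨A₀ * (2 ^ n * (C₅ + 1) * (n : ℝ) ^ (n + 1)), by positivity, ?_⟩
  intro K _ _ hK Φ hΦ1 hΦ3 hL b ρ hρ1 hρ hN α β hβ σ
  have hsz := L90.one_le_sz α β
  have hρ0 : 0 < ρ := by linarith
  have hM : 1 ≤ (n : ℝ) * ρ := by nlinarith
  have hprop := fun (k : ℕ) (c : Fin n → Fin (k + 1)) =>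
    DG_props (α := α) b hC1 hK hL hN hΦ1 hβ σ (m := k + 1) (Nat.succ_ne_zero k) hM
      (c := pt b fun i => ((c i : ℕ) : ℤ)) (norm_pt_le_mul b hρ (k + 1) c) (by
        intro z hz
        have e : (((k + 1 : ℕ) : ℝ)) • pt b z + (pt b fun i => ((c i : ℕ) : ℤ)) =
            pt b (dv (Fin n) (k + 1) (z, c)) := by
          rw [dv_apply, pt_add, pt_mul]
        rw [e] at hz ⊢
        exact hN _ fun h => hz (by rw [h, pt_zero]))
  obtain ⟨H, hH1, hH2, hH3⟩ := exists_cont K (gU_lt_one hn0)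
    (fun k s => ∑ c : Fin n → Fin (k + 1), DG b Φ α β σ (k + 1) (pt b fun i => ((c i : ℕ) : ℤ)) s)
    (fun s => ∑' z : Fin n → ℤ, hTP Φ α β σ s (pt b z))
    (fun k => DifferentiableOn.fun_sum fun c _ => (hprop k c).1)
    (fun k s hs => by
      have hs' : gU n < s.re := (gU_lt_one hn0).trans hs
      have h2 := tsum_dilation (k + 1) (summable_hTP b hK hN hΦ1 hΦ3 α β σ hs)
        (Zeta.fac K (k + 1) s) fun y => by rw [pt_mul, hTP_smul hβ Φ (Nat.succ_ne_zero k)]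
      rw [Fintype.card_fin] at h2
      rw [qk, hK, h2]
      have h3 : ∀ (y : Fin n → ℤ) (c : Fin n → Fin (k + 1)),
          hTP Φ α β σ s (pt b (dv (Fin n) (k + 1) (y, c))) -
            hTP Φ α β σ s (pt b fun i => y i * ((k + 1 : ℕ) : ℤ)) =
          hTP Φ α β σ s (((k + 1 : ℕ) : ℝ) • pt b y + pt b fun i => ((c i : ℕ) : ℤ)) -
            hTP Φ α β σ s (((k + 1 : ℕ) : ℝ) • pt b y) := by
        intro y c
        rw [dv_apply, pt_add, pt_mul]
      simp only [h3]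
      rw [Summable.tsum_finsetSum fun c _ => (hprop k c).2.1 s hs']
      rfl)
  refine ⟨H, hH1, hH2, fun s hs1 hs2 => ?_⟩
  set C_D : ℝ := 2 ^ n * (C₅ + 1) * ((n : ℝ) ^ (n + 1) * (ρ * sz α β) ^ (n + 1)) with hCD
  have hCD0 : 0 < C_D := by
    have : 0 < ρ * sz α β := by positivity
    positivity
  have h3 := hA K hK C_D hCD0 _ H hH1 (hH3 1) (fun s hs => by
    have hs0 := norm_nonneg s
    have hD1 : ∀ c : Fin n → Fin (1 + 1), ‖DG b Φ α β σ (1 + 1)
        (pt b fun i => ((c i : ℕ) : ℤ)) s‖ ≤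
        (C₅ + 1) * ((n : ℝ) ^ (n + 1) * (ρ * sz α β) ^ (n + 1)) * (1 + ‖s‖) ^ (n + 1) := by
      intro c
      refine ((hprop 1 c).2.2 s hs).trans ?_
      have e1 : (n * ρ * (sz α β * (1 + ‖s‖))) ^ (n + 1) =
          ((n : ℝ) ^ (n + 1) * (ρ * sz α β) ^ (n + 1)) * (1 + ‖s‖) ^ (n + 1) := by
        rw [← mul_pow, ← mul_pow]
        congr 1
        ring
      rw [e1]
      have e2 : 1 ≤ ((n : ℝ) ^ (n + 1) * (ρ * sz α β) ^ (n + 1)) * (1 + ‖s‖) ^ (n + 1) := by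
        have h1 : 1 ≤ ρ * sz α β := by nlinarith
        exact one_le_mul_of_one_le_of_one_le
          (one_le_mul_of_one_le_of_one_le (one_le_pow₀ hn1) (one_le_pow₀ h1))
          (one_le_pow₀ (by linarith))
      rw [hC₅]
      nlinarith
    refine (norm_sum_le _ _).trans ((Finset.sum_le_sum fun c _ => hD1 c).trans (le_of_eq ?_))
    rw [Finset.sum_const, nsmul_eq_mul, Finset.card_univ, Fintype.card_fun, Fintype.card_fin,
      Fintype.card_fin, hCD]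
    push_cast
    ring) s hs1 hs2
  refine h3.trans ?_
  have h5 : (1 : ℝ) ≤ 1 + |s.im| := by linarith [abs_nonneg s.im]
  have h6 : 1 ≤ ρ * sz α β := by nlinarith
  have h7 : (ρ * sz α β) ^ (n + 1) ≤ (ρ * sz α β) ^ (n + 2) := pow_le_pow_right₀ h6 (by omega)
  calc A₀ * C_D * (1 + |s.im|) ^ (n + 1 + 1) =
      A₀ * (2 ^ n * (C₅ + 1) * (n : ℝ) ^ (n + 1)) *
        ((ρ * sz α β) ^ (n + 1) * (1 + |s.im|) ^ (n + 2)) := by rw [hCD]; ring
    _ ≤ A₀ * (2 ^ n * (C₅ + 1) * (n : ℝ) ^ (n + 1)) *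
        ((ρ * sz α β) ^ (n + 2) * (1 + |s.im|) ^ (n + 2)) := by
        refine mul_le_mul_of_nonneg_left ?_ (by positivity)
        exact mul_le_mul_of_nonneg_right h7 (by positivity)
    _ = _ := by
        rw [← mul_pow]
        congr 2
        ring

end Pool.Agent.Lib.MP_bf61d2_nt.Artin.Ray.LU69

namespace Pool.Agent.Lib.MP_bf61d2_nt.Artin.Ray

open NumberField NumberField.mixedEmbedding NumberField.Units NumberField.InfinitePlace

open NumberField.mixedEmbedding.fundamentalCone NumberField.Units.dirichletUnitTheorem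

open Module LU69

open Pool.Agent.Lib.MP_bf61d2_nt.Zeta

open Pool.Agent.Lib.MP_bf61d2_nt.Artin.ZB69

open scoped Classical nonZeroDivisors

universe u

/-- **UNIF, module LCOS.** -/
theorem stLCOS_of (n : ℕ) (hLIP : StLIPU.{u} n) : StLCOS.{u} n := by
  obtain ⟨C, hC1, hLip⟩ := hLIP
  by_cases hn0 : n = 0
  · refine ⟨1, 0, le_rfl, fun K _ _ hn => ?_⟩
    exact absurd (hn.trans hn0) finrank_pos.ne'
  obtain ⟨A, hA0, hA⟩ := latU.{u} n hn0 hC1
  have hn1 : (1 : ℝ) ≤ n := by exact_mod_cast Nat.one_le_iff_ne_zero.mpr hn0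
  set C₅ : ℝ := 3 * (2 * C) ^ (n + 1) * Cpack n with hC₅
  have hC₅0 : 0 < C₅ := by
    have := Cpack_pos n
    positivity
  refine ⟨A + 3 * (C₅ + 1) * (3 * (n : ℝ)) ^ (n + 1) + 1, n + 2, ?_, ?_⟩
  · have : 0 < 3 * (C₅ + 1) * (3 * (n : ℝ)) ^ (n + 1) := by positivity
    linarith
  intro K _ _ hK Φ hΦ b ρ hρ1 hρ hN x₀ hx₀ hx₀N α β hβ σ
  have hL := hLip K hK Φ hΦ
  obtain ⟨hΦ1, hΦ2, hΦ3'⟩ := hΦ
  have hΦ3 : ∀ z, Φ z ≠ 0 → ‖z‖ ≤ 2 := by simpa using hΦ3'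
  have hsz := L90.one_le_sz α β
  have hρ0 : 0 < ρ := by linarith
  have hM : 1 ≤ (n : ℝ) * ρ := by nlinarith
  obtain ⟨H₀, hH1, hH2, hH3⟩ := hA K hK Φ hΦ1 hΦ3 hL b ρ hρ1 hρ hN α β hβ σ
  obtain ⟨hD1, hD2, hD3⟩ := DG_props (α := α) b hC1 hK hL hN hΦ1 hβ σ (m := 1) one_ne_zero hM
    (c := x₀) (by simpa using hx₀) (by
      intro z hz
      rw [Nat.cast_one, one_smul, add_comm] at hz ⊢
      exact hx₀N z hz)
  have e0 : ∀ (s : ℂ) (z : Fin n → ℤ), hTP Φ α β σ s (((1 : ℕ) : ℝ) • pt b z + x₀) -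
      hTP Φ α β σ s (((1 : ℕ) : ℝ) • pt b z) =
      hTP Φ α β σ s (x₀ + pt b z) - hTP Φ α β σ s (pt b z) := by
    intro s z
    rw [Nat.cast_one, one_smul, add_comm]
  have hsm0 : ∀ s : ℂ, 1 < s.re → Summable fun z : Fin n → ℤ => hTP Φ α β σ s (pt b z) :=
    fun s hs => summable_hTP b hK hN hΦ1 hΦ3 α β σ hs
  have hsmd : ∀ s : ℂ, gU n < s.re → Summable fun z : Fin n → ℤ =>
      hTP Φ α β σ s (x₀ + pt b z) - hTP Φ α β σ s (pt b z) := by
    intro s hs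
    exact (hD2 s hs).congr fun z => e0 s z
  have hsm : ∀ s : ℂ, 1 < s.re → Summable fun z : Fin n → ℤ => hTP Φ α β σ s (x₀ + pt b z) := by
    intro s hs
    refine ((hsmd s ((gU_lt_one hn0).trans hs)).add (hsm0 s hs)).congr fun z => ?_
    ring
  refine ⟨hsm, fun s => (s - 1) * DG b Φ α β σ 1 x₀ s + H₀ s, ?_, ?_, ?_⟩
  · exact (((differentiable_id.sub_const 1).differentiableOn).mul hD1).add hH1
  · intro s hs
    have h1 : DG b Φ α β σ 1 x₀ s = ∑' z : Fin n → ℤ, hTP Φ α β σ s (x₀ + pt b z) -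
        ∑' z : Fin n → ℤ, hTP Φ α β σ s (pt b z) := by
      rw [DG, ← (hsm s hs).tsum_sub (hsm0 s hs)]
      exact tsum_congr fun z => e0 s z
    simp only
    rw [h1, hH2 s hs]
    ring
  · intro s hs1 hs2
    have hgV : 0 < gV n := (gU_pos hn0).trans (gU_lt_gV hn0)
    have hsU : gU n < s.re := (gU_lt_gV hn0).trans_le hs1
    have ht0 : 0 ≤ |s.im| := abs_nonneg _
    have e3 : 1 + ‖s‖ ≤ 3 * (1 + |s.im|) := by
      have h1 := Complex.norm_le_abs_re_add_abs_im s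
      have h2 : |s.re| ≤ 2 := abs_le.mpr ⟨by linarith, hs2⟩
      linarith
    have e4 : ‖s - 1‖ ≤ 3 * (1 + |s.im|) := by
      have := norm_sub_le s 1
      rw [norm_one] at this
      linarith
    set X : ℝ := ρ * (sz α β * (1 + |s.im|)) with hX
    have hX1 : 1 ≤ X := by
      rw [hX]
      exact one_le_mul_of_one_le_of_one_le hρ1
        (one_le_mul_of_one_le_of_one_le hsz (by linarith))
    have hX2 : 1 + |s.im| ≤ X := by
      rw [hX]
      have h1 : 1 ≤ ρ * sz α β := by nlinarith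
      nlinarith
    have h1 : ‖DG b Φ α β σ 1 x₀ s‖ ≤ (C₅ + 1) * (3 * (n : ℝ)) ^ (n + 1) * X ^ (n + 1) := by
      refine (hD3 s hsU).trans ?_
      have h2 : (n * ρ * (sz α β * (1 + ‖s‖))) ^ (n + 1) ≤ (3 * (n : ℝ)) ^ (n + 1) * X ^ (n + 1) := by
        rw [← mul_pow]
        refine pow_le_pow_left₀ (by have := norm_nonneg s; positivity) ?_ _
        calc n * ρ * (sz α β * (1 + ‖s‖)) ≤ n * ρ * (sz α β * (3 * (1 + |s.im|))) := by gcongr
          _ = 3 * (n : ℝ) * X := by rw [hX]; ring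
      have h3 : 1 ≤ (3 * (n : ℝ)) ^ (n + 1) * X ^ (n + 1) :=
        one_le_mul_of_one_le_of_one_le (one_le_pow₀ (by linarith)) (one_le_pow₀ hX1)
      have h4 : 3 * (2 * C) ^ (n + 1) * (n * ρ * (sz α β * (1 + ‖s‖))) ^ (n + 1) * Cpack n =
          C₅ * (n * ρ * (sz α β * (1 + ‖s‖))) ^ (n + 1) := by rw [hC₅]; ring
      rw [h4]
      have h5 := mul_le_mul_of_nonneg_left h2 hC₅0.le
      linarith
    have h2 : ‖(s - 1) * DG b Φ α β σ 1 x₀ s‖ ≤
        3 * (C₅ + 1) * (3 * (n : ℝ)) ^ (n + 1) * X ^ (n + 2) := by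
      rw [norm_mul]
      have h3 : ‖s - 1‖ ≤ 3 * X := e4.trans (by linarith)
      calc ‖s - 1‖ * ‖DG b Φ α β σ 1 x₀ s‖ ≤
          3 * X * ((C₅ + 1) * (3 * (n : ℝ)) ^ (n + 1) * X ^ (n + 1)) :=
            mul_le_mul h3 h1 (norm_nonneg _) (by positivity)
        _ = _ := by ring
    have h3 := hH3 s hs1 hs2
    rw [← hX] at h3
    refine (norm_add_le _ _).trans ((add_le_add h2 h3).trans ?_)
    have h4 : 0 ≤ X ^ (n + 2) := by positivity
    nlinarith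

/-- **UNIF, LCOS69** without hypotheses. -/
theorem stLCOS (n : ℕ) : StLCOS.{u} n := stLCOS_of n (stLIPU n)

end Pool.Agent.Lib.MP_bf61d2_nt.Artin.Ray
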