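import Mathlib

set_option autoImplicit false

/-!
UNIF (MP_bf61d2_nt): a finite partition of the fundamental domain of the lattice of the units into
cells of diameter at most one, and the cut off functions attached to the cells.
-/

namespace NumberField
end NumberField

namespace Pool.Agent.Lib.MP_bf61d2_nt.Zeta
end Pool.Agent.Lib.MP_bf61d2_nt.Zeta

namespace Pool.Agent.Lib.MP_bf61d2_nt.Artin.Ray

open NumberField NumberField.mixedEmbedding NumberField.Units NumberField.InfinitePlace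

open NumberField.mixedEmbedding.fundamentalCone NumberField.Units.dirichletUnitTheorem

open IsDedekindDomain Module MeasureTheory

open Pool.Agent.Lib.MP_bf61d2_nt.Zeta

open scoped Classical nonZeroDivisors ENNReal

universe u

namespace CELL37

section bump

variable {ι : Type u} [Fintype ι]

/-- The bump of radius `R`. -/
noncomputable def bmp (R : ℝ) (z : ι → ℝ) : ℝ := max 0 (1 - ‖z‖ / R)

lemma bmp_nonneg (R : ℝ) (z : ι → ℝ) : 0 ≤ bmp R z := le_max_left _ _

lemma bmp_le_one {R : ℝ} (hR : 0 < R) (z : ι → ℝ) : bmp R z ≤ 1 :=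
  max_le zero_le_one (by have : 0 ≤ ‖z‖ / R := by positivity
                         linarith)

lemma bmp_ne_zero {R : ℝ} (hR : 0 < R) {z : ι → ℝ} (h : bmp R z ≠ 0) : ‖z‖ ≤ R := by
  by_contra hcon
  push Not at hcon
  refine h (max_eq_left ?_)
  have : 1 ≤ ‖z‖ / R := by
    rw [one_le_div hR]
    exact hcon.le
  linarith

lemma half_le_bmp {R : ℝ} (hR : 0 < R) {z : ι → ℝ} (h : ‖z‖ ≤ R / 2) : 1 / 2 ≤ bmp R z := by
  refine le_trans ?_ (le_max_right _ _)
  have : ‖z‖ / R ≤ 1 / 2 := by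
    rw [div_le_iff₀ hR]
    linarith
  linarith

lemma bmp_sub_le {R : ℝ} (hR : 1 ≤ R) (z z' : ι → ℝ) : |bmp R z - bmp R z'| ≤ ‖z - z'‖ := by
  have h1 : |max 0 (1 - ‖z‖ / R) - max 0 (1 - ‖z'‖ / R)| ≤
      |(1 - ‖z‖ / R) - (1 - ‖z'‖ / R)| := by
    have := abs_max_sub_max_le_abs (1 - ‖z‖ / R) (1 - ‖z'‖ / R) 0
    rwa [max_comm (1 - ‖z‖ / R) 0, max_comm (1 - ‖z'‖ / R) 0] at this
  refine h1.trans ?_
  have h2 : (1 - ‖z‖ / R) - (1 - ‖z'‖ / R) = (‖z'‖ - ‖z‖) / R := by ring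
  have hR0 : 0 < R := by linarith
  rw [h2, abs_div, abs_of_pos hR0, div_le_iff₀ hR0]
  have h3 := abs_norm_sub_norm_le z' z
  rw [norm_sub_rev] at h3
  have := norm_nonneg (z - z')
  nlinarith

lemma continuous_bmp (R : ℝ) : Continuous (bmp (ι := ι) R) := by
  unfold bmp
  fun_prop

lemma hasCompactSupport_bmp {R : ℝ} (hR : 0 < R) : HasCompactSupport (bmp (ι := ι) R) := by
  refine HasCompactSupport.intro (isCompact_closedBall (0 : ι → ℝ) R) fun x hx => ?_
  by_contra h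
  apply hx
  rw [mem_closedBall_zero_iff]
  exact bmp_ne_zero hR h

lemma integrable_bmp {R : ℝ} (hR : 0 < R) : Integrable (bmp (ι := ι) R) :=
  (continuous_bmp R).integrable_of_hasCompactSupport (hasCompactSupport_bmp hR)

lemma half_le_int {R : ℝ} (hR : 1 ≤ R) : 1 / 2 ≤ ∫ z, bmp (ι := ι) R z := by
  have hR0 : 0 < R := by linarith
  have hvol : volume.real (Metric.closedBall (0 : ι → ℝ) (1 / 2)) = 1 := by
    rw [Measure.real, Real.volume_pi_closedBall _ (by norm_num)]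
    norm_num
  have h1 : ∫ _z in Metric.closedBall (0 : ι → ℝ) (1 / 2), (1 / 2 : ℝ) = 1 / 2 := by
    rw [setIntegral_const, hvol, one_smul]
  rw [← h1]
  have hi : IntegrableOn (fun _ : ι → ℝ => (1 / 2 : ℝ)) (Metric.closedBall (0 : ι → ℝ) (1 / 2)) :=
    integrableOn_const (by
      rw [Real.volume_pi_closedBall _ (by norm_num)]
      exact ENNReal.ofReal_ne_top)
  refine (setIntegral_mono_on hi (integrable_bmp hR0).integrableOn measurableSet_closedBall
    fun z hz => half_le_bmp hR0 ?_).trans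
    (setIntegral_le_integral (integrable_bmp hR0) (Filter.Eventually.of_forall fun z =>
      bmp_nonneg R z))
  rw [mem_closedBall_zero_iff] at hz
  linarith

/-- The cells. -/
def cell (S : Set (ι → ℝ)) (n : ι → ℤ) : Set (ι → ℝ) := S ∩ {y | ∀ i, ⌊y i⌋ = n i}

lemma measurableSet_cell {S : Set (ι → ℝ)} (hS : MeasurableSet S) (n : ι → ℤ) :
    MeasurableSet (cell S n) := by
  refine hS.inter ?_
  have : {y : ι → ℝ | ∀ i, ⌊y i⌋ = n i} = ⋂ i, {y : ι → ℝ | ⌊y i⌋ = n i} := by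
    ext y
    simp
  rw [this]
  refine MeasurableSet.iInter fun i => ?_
  exact (Int.measurable_floor.comp (measurable_pi_apply i)) (measurableSet_singleton (n i))

lemma cell_disjoint (S : Set (ι → ℝ)) {n n' : ι → ℤ} (h : n ≠ n') :
    Disjoint (cell S n) (cell S n') := by
  rw [Set.disjoint_left]
  rintro y ⟨-, h1⟩ ⟨-, h2⟩
  apply h
  funext i
  rw [← h1 i, h2 i]

lemma norm_sub_cell {S : Set (ι → ℝ)} {n : ι → ℤ} {y : ι → ℝ} (hy : y ∈ cell S n) :
    ‖y - (fun i => (n i : ℝ))‖ ≤ 1 := by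
  refine (pi_norm_le_iff_of_nonneg zero_le_one).mpr fun i => ?_
  have h1 := hy.2 i
  rw [Pi.sub_apply, Real.norm_eq_abs, ← h1]
  have h0 := Int.floor_le (y i)
  have h2 := Int.lt_floor_add_one (y i)
  rw [abs_le]
  constructor <;> linarith

lemma exists_finset {S : Set (ι → ℝ)} (hS : Bornology.IsBounded S) :
    ∃ T : Finset (ι → ℤ), S = ⋃ n ∈ T, cell S n := by
  obtain ⟨B, hB⟩ := hS.exists_norm_le
  set N : ℤ := ⌈B⌉ + 1 with hN
  refine ⟨Fintype.piFinset fun _ => Finset.Icc (-N) N, ?_⟩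
  refine Set.Subset.antisymm (fun y hy => ?_) ?_
  · simp only [Set.mem_iUnion, exists_prop]
    refine ⟨fun i => ⌊y i⌋, ?_, hy, fun i => rfl⟩
    rw [Fintype.mem_piFinset]
    intro i
    have h1 : |y i| ≤ B := by
      have := (norm_le_pi_norm y i).trans (hB y hy)
      rwa [Real.norm_eq_abs] at this
    have h2 := abs_le.mp h1
    have h3 := Int.floor_le (y i)
    have h4 := Int.lt_floor_add_one (y i)
    have h5 := Int.le_ceil B
    rw [Finset.mem_Icc]
    constructor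
    · have : (-(N : ℝ)) < ⌊y i⌋ + 1 := by
        rw [hN]; push_cast; linarith
      have h6 : (-N : ℤ) < ⌊y i⌋ + 1 := by exact_mod_cast this
      omega
    · have : (⌊y i⌋ : ℝ) ≤ N := by
        rw [hN]; push_cast; linarith
      exact_mod_cast this
  · exact Set.iUnion₂_subset fun n _ => Set.inter_subset_left

/-- The cut off function of a cell. -/
noncomputable def Ph (S : Set (ι → ℝ)) (R : ℝ) (n : ι → ℤ) (z : ι → ℝ) : ℝ :=
  ∫ y in cell S n, bmp R (z - y)

lemma integrableOn_bmp_sub {R : ℝ} (hR : 0 < R) (z : ι → ℝ) (A : Set (ι → ℝ)) :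
    IntegrableOn (fun y => bmp R (z - y)) A :=
  ((integrable_bmp hR).comp_sub_left z).integrableOn

lemma Ph_nonneg (S : Set (ι → ℝ)) (R : ℝ) (n : ι → ℤ) (z : ι → ℝ) : 0 ≤ Ph S R n z :=
  integral_nonneg fun _ => bmp_nonneg _ _

lemma volume_cell_ne_top {S : Set (ι → ℝ)} (hS : Bornology.IsBounded S) (n : ι → ℤ) :
    volume (cell S n) ≠ ∞ :=
  ((hS.subset Set.inter_subset_left).measure_lt_top).ne

lemma Ph_le {S : Set (ι → ℝ)} (hS : Bornology.IsBounded S) (hm : MeasurableSet S) {R : ℝ}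
    (hR : 0 < R) (n : ι → ℤ) (z : ι → ℝ) : Ph S R n z ≤ volume.real (cell S n) := by
  have h1 : ∫ _y in cell S n, (1 : ℝ) = volume.real (cell S n) := by
    rw [setIntegral_const, smul_eq_mul, mul_one]
  rw [← h1]
  exact setIntegral_mono_on (integrableOn_bmp_sub hR z _)
    (integrableOn_const (volume_cell_ne_top hS n)) (measurableSet_cell hm n)
    fun y _ => bmp_le_one hR _

lemma Ph_sub_le {S : Set (ι → ℝ)} (hS : Bornology.IsBounded S) {R : ℝ}
    (hR : 1 ≤ R) (n : ι → ℤ) (z z' : ι → ℝ) :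
    |Ph S R n z - Ph S R n z'| ≤ volume.real (cell S n) * ‖z - z'‖ := by
  have hR0 : 0 < R := by linarith
  rw [Ph, Ph, ← integral_sub (integrableOn_bmp_sub hR0 z _) (integrableOn_bmp_sub hR0 z' _),
    ← Real.norm_eq_abs, mul_comm]
  refine norm_setIntegral_le_of_norm_le_const
    (volume_cell_ne_top hS n).lt_top fun y _ => ?_
  rw [Real.norm_eq_abs]
  refine (bmp_sub_le hR _ _).trans (le_of_eq ?_)
  congr 1
  abel

lemma Ph_ne_zero {S : Set (ι → ℝ)} {R : ℝ} (hR : 0 < R) {n : ι → ℤ} {z : ι → ℝ}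
    (hm : MeasurableSet S)
    (h : Ph S R n z ≠ 0) : ‖z - (fun i => (n i : ℝ))‖ ≤ R + 1 := by
  by_contra hcon
  push Not at hcon
  apply h
  rw [Ph]
  refine setIntegral_eq_zero_of_forall_eq_zero fun y hy => ?_
  by_contra hne
  have h1 := bmp_ne_zero hR hne
  have h2 := norm_sub_cell hy
  have h3 : ‖z - (fun i => (n i : ℝ))‖ ≤ ‖z - y‖ + ‖y - (fun i => (n i : ℝ))‖ :=
    norm_sub_le_norm_sub_add_norm_sub _ _ _
  linarith

lemma sum_Ph {S : Set (ι → ℝ)} (hm : MeasurableSet S) {T : Finset (ι → ℤ)}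
    (hT : S = ⋃ n ∈ T, cell S n) {R : ℝ} (hR : 0 < R) (z : ι → ℝ) :
    ∑ n ∈ T, Ph S R n z = ∫ y in S, bmp R (z - y) := by
  conv_rhs => rw [hT]
  rw [integral_biUnion_finset T (fun n _ => measurableSet_cell hm n)
    (fun n _ n' _ h => cell_disjoint S h) fun n _ => integrableOn_bmp_sub hR z _]
  rfl

lemma sum_vol {S : Set (ι → ℝ)} (hS : Bornology.IsBounded S) (hm : MeasurableSet S)
    {T : Finset (ι → ℤ)} (hT : S = ⋃ n ∈ T, cell S n) :
    ∑ n ∈ T, volume.real (cell S n) = volume.real S := by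
  conv_rhs => rw [hT]
  rw [measureReal_biUnion_finset (fun n _ n' _ h => cell_disjoint S h)
    (fun n _ => measurableSet_cell hm n) fun n _ => volume_cell_ne_top hS n]

end bump

end CELL37

end Pool.Agent.Lib.MP_bf61d2_nt.Artin.Ray
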