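import Mathlib
import Pool.Agent.Lib.MP_bf61d2_nt.Trim.Artin.R.UNF88
import Pool.Agent.Lib.MP_bf61d2_nt.Trim.Artin.UK.StmtsU84
import Pool.Agent.Lib.MP_bf61d2_nt.Trim.Zeta.Cone
import Pool.Agent.Lib.MP_bf61d2_nt.Trim.Zeta.Lattice
import Pool.Agent.Lib.MP_bf61d2_nt.Trim.Zeta.Lip
import Pool.Agent.Lib.MP_bf61d2_nt.Trim.Zeta.Unfold
import Pool.Agent.Lib.MP_bf61d2_nt.Trim.Zeta.UnitSum

set_option autoImplicit false

/-!
UNIF (MP_bf61d2_nt): unfolding over the units by an integral over a fundamental domain of the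
lattice of the units.
-/

namespace NumberField
end NumberField

namespace Pool.Agent.Lib.MP_bf61d2_nt.Zeta
end Pool.Agent.Lib.MP_bf61d2_nt.Zeta

namespace Pool.Agent.Lib.MP_bf61d2_nt.Artin.Ray

open NumberField NumberField.mixedEmbedding NumberField.Units NumberField.InfinitePlace

open NumberField.mixedEmbedding.fundamentalCone NumberField.Units.dirichletUnitTheorem

open IsDedekindDomain Module MeasureTheory

open Pool.Agent.Lib.MP_bf61d2_nt.Zeta

open scoped Classical nonZeroDivisors ENNReal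

universe u

variable {K : Type u} [Field K] [NumberField K]

/-- The fundamental domain of the lattice of the units. -/
noncomputable def FD37 (K : Type u) [Field K] [NumberField K] : Set (logSpace K) :=
  ZSpan.fundamentalDomain (ub K)

namespace UNFA37

/-- The points of the lattice of the units. -/
noncomputable def lu (k : Fin (rank K) → ℤ) : logSpace K := ∑ i, (k i : ℝ) • ub K i

lemma logMap_fu_smul (k : Fin (rank K) → ℤ) {x : mixedSpace K} (hx : mixedEmbedding.norm x ≠ 0) :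
    logMap (fu k • x) = logMap x + lu k := by
  rw [logMap_unit_smul _ hx, logEmbedding_fu, add_comm]
  rfl

lemma hP_fu_smul (Φ : logSpace K → ℝ) (s : ℂ) (k : Fin (rank K) → ℤ) {x : mixedSpace K}
    (hx : mixedEmbedding.norm x ≠ 0) :
    hP Φ s (fu k • x) = (Φ (logMap x + lu k) : ℂ) *
      Complex.exp (-(s * (Real.log (mixedEmbedding.norm x) : ℂ))) := by
  rw [hP, if_neg (by rwa [norm_unit_smul]), norm_unit_smul, logMap_fu_smul k hx]

/-- The span of the basis of the units and the integer vectors. -/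
noncomputable def eqs (K : Type u) [Field K] [NumberField K] :
    (Fin (rank K) → ℤ) ≃ (Submodule.span ℤ (Set.range (ub K))).toAddSubgroup :=
  ((ub K).restrictScalars ℤ).equivFun.symm.toEquiv

lemma eqs_coe (k : Fin (rank K) → ℤ) :
    ((eqs K k : (Submodule.span ℤ (Set.range (ub K))).toAddSubgroup) : logSpace K) = lu k := by
  rw [eqs, lu]
  show (((ub K).restrictScalars ℤ).equivFun.symm k : logSpace K) = _
  rw [Basis.equivFun_symm_apply]
  push_cast
  refine Finset.sum_congr rfl fun i _ => ?_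
  rw [Basis.restrictScalars_apply, Int.cast_smul_eq_zsmul]

/-- Unfolding of the integral in the log space. -/
lemma hasSum_int {φ : logSpace K → ℝ} (hφ : Integrable φ) (z : logSpace K) :
    HasSum (fun k : Fin (rank K) → ℤ => ∫ y in FD37 K, φ (z + lu k - y)) (∫ y, φ y) := by
  have hfd : IsAddFundamentalDomain (Submodule.span ℤ (Set.range (ub K))).toAddSubgroup (FD37 K)
      (volume : Measure (logSpace K)) := ZSpan.isAddFundamentalDomain' (ub K) volume
  have hcount : Countable (Submodule.span ℤ (Set.range (ub K))).toAddSubgroup :=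
    Countable.of_equiv _ (eqs K)
  set f : logSpace K → ℝ := fun y => φ (z - y) with hf
  have hfi : Integrable f := hφ.comp_sub_left z
  have h1 : ∀ k : Fin (rank K) → ℤ, ∫ y in FD37 K, φ (z + lu k - y) =
      ∫ y in FD37 K, f (-(eqs K k) +ᵥ y) := by
    intro k
    refine integral_congr_ae (Filter.Eventually.of_forall fun y => ?_)
    simp only [hf, AddSubgroup.vadd_def, vadd_eq_add, AddSubgroup.coe_neg, eqs_coe]
    congr 1
    abel
  have h1' : ∀ k : Fin (rank K) → ℤ, ∫⁻ y in FD37 K, ‖φ (z + lu k - y)‖ₑ =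
      ∫⁻ y in FD37 K, ‖f (-(eqs K k) +ᵥ y)‖ₑ := by
    intro k
    refine lintegral_congr fun y => ?_
    simp only [hf, AddSubgroup.vadd_def, vadd_eq_add, AddSubgroup.coe_neg, eqs_coe]
    congr 2
    abel
  have hval : ∫ y, φ y = ∑' k : Fin (rank K) → ℤ, ∫ y in FD37 K, φ (z + lu k - y) := by
    have h2 := hfd.integral_eq_tsum' f hfi
    rw [← integral_sub_left_eq_self φ volume z]
    rw [show (∫ y, φ (z - y)) = ∫ y, f y from rfl, h2, ← (eqs K).tsum_eq]
    exact tsum_congr fun k => (h1 k).symm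
  have hL : ∑' k : Fin (rank K) → ℤ, ∫⁻ y in FD37 K, ‖φ (z + lu k - y)‖ₑ ≠ ∞ := by
    have h2 := hfd.lintegral_eq_tsum' (fun y => ‖f y‖ₑ)
    rw [← (eqs K).tsum_eq] at h2
    have h3 : ∑' k : Fin (rank K) → ℤ, ∫⁻ y in FD37 K, ‖φ (z + lu k - y)‖ₑ = ∫⁻ y, ‖f y‖ₑ := by
      rw [h2]
      exact tsum_congr h1'
    rw [h3]
    exact hfi.hasFiniteIntegral.ne
  have hs : Summable fun k : Fin (rank K) → ℤ => ∫ y in FD37 K, φ (z + lu k - y) := by
    refine Summable.of_norm_bounded (ENNReal.summable_toReal hL) fun k => ?_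
    rw [← toReal_enorm]
    refine ENNReal.toReal_mono (ENNReal.ne_top_of_tsum_ne_top hL k) ?_
    exact enorm_integral_le_lintegral_enorm _
  rw [hval]
  exact hs.hasSum

lemma sum_aux {A B : Type*} {g : A → B → ℝ} {q : A → ℂ} {c : ℝ} (hg0 : ∀ x k, 0 ≤ g x k)
    (hg : ∀ x, HasSum (g x) c) (hq : Summable fun x => ‖q x‖) :
    Summable (fun p : A × B => ((g p.1 p.2 : ℝ) : ℂ) * q p.1) ∧
    ∑' p : A × B, ((g p.1 p.2 : ℝ) : ℂ) * q p.1 = (c : ℂ) * ∑' x, q x := by
  have h1 : Summable (fun p : A × B => ((g p.1 p.2 : ℝ) : ℂ) * q p.1) := by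
    refine Summable.of_norm ?_
    have e : ∀ p : A × B, ‖((g p.1 p.2 : ℝ) : ℂ) * q p.1‖ = g p.1 p.2 * ‖q p.1‖ := by
      intro p
      rw [norm_mul, Complex.norm_real, Real.norm_of_nonneg (hg0 _ _)]
    refine Summable.congr ?_ fun p => (e p).symm
    refine (summable_prod_of_nonneg fun p => mul_nonneg (hg0 _ _) (norm_nonneg _)).mpr
      ⟨fun x => ?_, ?_⟩
    · have h2 : Summable fun k => g x k * ‖q x‖ := (hg x).summable.mul_right _
      exact h2
    have e2 : ∀ x : A, ∑' k : B, g x k * ‖q x‖ = c * ‖q x‖ := by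
      intro x
      rw [tsum_mul_right, (hg x).tsum_eq]
    exact (hq.mul_left c).congr fun x => (e2 x).symm
  refine ⟨h1, ?_⟩
  rw [h1.tsum_prod, ← tsum_mul_left]
  refine tsum_congr fun x => ?_
  have h3 : ∑' k : B, ((g x k : ℝ) : ℂ) * q x = (c : ℂ) * q x := by
    rw [tsum_mul_right, ← (hg x).tsum_eq, Complex.ofReal_tsum]
  exact h3

/-- Unfolding with a weight and a partition of unity. -/
theorem unfold_part {F : Ideal (𝓞 K) → ℂ} (hF : ∀ I, ‖F I‖ ≤ 1) {J : (Ideal (𝓞 K))⁰}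
    {C : ClassGroup (𝓞 K)} (hJ : ClassGroup.mk0 J = C⁻¹) {ι : Type*} [Fintype ι]
    {b : Basis ι ℝ (mixedSpace K)} (hb : IsBasisOf J b) {W : (ι → ℤ) → ℂ}
    (hW : ∀ (a : ι → ℤ) (α : 𝓞 K) (I : Ideal (𝓞 K)), α ≠ 0 →
      mixedEmbedding K (α : K) = pt b a → Ideal.span {α} = (J : Ideal (𝓞 K)) * I → W a = F I)
    {Φ : logSpace K → ℝ} {c : ℝ} (hΦ0 : ∀ z, 0 ≤ Φ z)
    (hΦ : ∀ z, HasSum (fun k : Fin (rank K) → ℤ => Φ (z + lu k)) c)
    {s : ℂ} (hs : 1 < s.re) :
    (Summable fun a : ι → ℤ => W a * hP Φ s (pt b a)) ∧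
    ∑' a : ι → ℤ, W a * hP Φ s (pt b a) = (c : ℂ) * ∑' β : idealSet K J,
      F ((U88.eqvC J C hJ β).1.1 : Ideal (𝓞 K)) *
        Complex.exp (-(s * (Real.log (mixedEmbedding.norm (β : mixedSpace K)) : ℂ))) := by
  choose g' hg' using exists_pt_eq (K := K) hb
  have hnorm : ∀ β : idealSet K J, mixedEmbedding.norm (β : mixedSpace K) ≠ 0 := fun β =>
    (norm_pos_of_mem (mem_idealSet.mp β.2).1).ne'
  have hinj : Function.Injective g' := by
    intro p p' h
    have h1 : fu p.2 • (p.1 : mixedSpace K) = fu p'.2 • (p'.1 : mixedSpace K) := by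
      rw [← hg', ← hg', h]
    obtain ⟨h2, h3⟩ := fu_smul_inj (mem_idealSet.mp p.1.2).1 (mem_idealSet.mp p'.1.2).1 h1
    exact Prod.ext (Subtype.ext h3) h2
  have hrange : Function.support (fun a => W a * hP Φ s (pt b a)) ⊆ Set.range g' := by
    intro a ha
    have ha0 : a ≠ 0 := by
      rintro rfl
      apply ha
      simp only
      rw [pt_zero, hP, if_pos (by simp), mul_zero]
    obtain ⟨k, hk⟩ := exists_mem_idealSet hb ha0
    refine ⟨(⟨_, hk⟩, -k), pt_injective b ?_⟩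
    rw [hg']
    simp only [fu_neg, inv_smul_smul]
  have hwt : ∀ p : idealSet K J × (Fin (rank K) → ℤ),
      W (g' p) = F ((U88.eqvC J C hJ p.1).1.1 : Ideal (𝓞 K)) := by
    intro p
    obtain ⟨-, α, hα, h⟩ := mem_idealSet.mp p.1.2
    have h1 := U88.eqvC_spec J C hJ p.1 α h
    have hα0 : α ≠ 0 := by
      rintro rfl
      apply hnorm p.1
      rw [← h]
      simp
    refine hW (g' p) ((fu p.2 : 𝓞 K) * α) _ (mul_ne_zero (Units.ne_zero _) hα0) ?_ ?_
    · rw [hg', ← h, unitSMul_smul, ← map_mul]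
      simp
    · rw [← h1]
      rw [Ideal.span_singleton_mul_left_unit (Units.isUnit _)]
  set q : idealSet K J → ℂ := fun β => F ((U88.eqvC J C hJ β).1.1 : Ideal (𝓞 K)) *
    Complex.exp (-(s * (Real.log (mixedEmbedding.norm (β : mixedSpace K)) : ℂ))) with hq
  have hval : ∀ p, W (g' p) * hP Φ s (pt b (g' p)) =
      ((Φ (logMap (p.1 : mixedSpace K) + lu p.2) : ℝ) : ℂ) * q p.1 := by
    intro p
    rw [hwt, hg', hP_fu_smul Φ s p.2 (hnorm p.1), hq]
    ring
  have hqs : Summable fun β => ‖q β‖ := by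
    refine Summable.of_nonneg_of_le (fun _ => norm_nonneg _) (fun β => ?_)
      (unfold hb hs).1.norm
    rw [hq, norm_mul]
    exact mul_le_of_le_one_left (norm_nonneg _) (hF _)
  obtain ⟨k1, k2⟩ := sum_aux (g := fun (β : idealSet K J) (k : Fin (rank K) → ℤ) =>
    Φ (logMap (β : mixedSpace K) + lu k)) (fun _ _ => hΦ0 _) (fun β => hΦ _) hqs
  have hsum2 : Summable fun p => W (g' p) * hP Φ s (pt b (g' p)) :=
    k1.congr fun p => (hval p).symm
  have h1 : ∑' a : ι → ℤ, W a * hP Φ s (pt b a) =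
      ∑' p, W (g' p) * hP Φ s (pt b (g' p)) := (hinj.tsum_eq hrange).symm
  refine ⟨?_, ?_⟩
  · exact (hinj.summable_iff fun a ha => by
      by_contra hcon
      exact ha (hrange hcon)).mp hsum2
  · rw [h1, ← k2]
    exact tsum_congr hval

end UNFA37

end Pool.Agent.Lib.MP_bf61d2_nt.Artin.Ray
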