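import Mathlib
import Pool.Agent.Lib.MP_bf61d2_nt.Trim.Artin.R.DefsR
import Pool.Agent.Lib.MP_bf61d2_nt.Trim.Artin.R.UNF88
import Pool.Agent.Lib.MP_bf61d2_nt.Trim.Artin.UK.CELL37
import Pool.Agent.Lib.MP_bf61d2_nt.Trim.Artin.UK.StmtsU84
import Pool.Agent.Lib.MP_bf61d2_nt.Trim.Artin.UK.UNFA37
import Pool.Agent.Lib.MP_bf61d2_nt.Trim.Zeta.ClassSum
import Pool.Agent.Lib.MP_bf61d2_nt.Trim.Zeta.Cone
import Pool.Agent.Lib.MP_bf61d2_nt.Trim.Zeta.Lattice
import Pool.Agent.Lib.MP_bf61d2_nt.Trim.Zeta.Unfold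

set_option autoImplicit false

/-!
UNIF (MP_bf61d2_nt), module UNFU: the Dirichlet series of a function of the ideals as a finite sum
of lattice sums with cut off functions of bounded support.
-/

namespace NumberField
end NumberField

namespace Pool.Agent.Lib.MP_bf61d2_nt.Zeta
end Pool.Agent.Lib.MP_bf61d2_nt.Zeta

namespace Pool.Agent.Lib.MP_bf61d2_nt.Artin.Ray.UNFU37
end Pool.Agent.Lib.MP_bf61d2_nt.Artin.Ray.UNFU37

namespace Pool.Agent.Lib.MP_bf61d2_nt.Artin.Ray.UNFA37
end Pool.Agent.Lib.MP_bf61d2_nt.Artin.Ray.UNFA37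

namespace Pool.Agent.Lib.MP_bf61d2_nt.Artin.Ray.CELL37
end Pool.Agent.Lib.MP_bf61d2_nt.Artin.Ray.CELL37

namespace Pool.Agent.Lib.MP_bf61d2_nt.Artin.Ray

open NumberField NumberField.mixedEmbedding NumberField.Units NumberField.InfinitePlace

open NumberField.mixedEmbedding.fundamentalCone NumberField.Units.dirichletUnitTheorem

open IsDedekindDomain Module MeasureTheory

open Pool.Agent.Lib.MP_bf61d2_nt.Zeta

open scoped Classical nonZeroDivisors ENNReal

universe u

namespace UNFU37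

variable {K : Type u} [Field K] [NumberField K]

lemma volume_FD (K : Type u) [Field K] [NumberField K] :
    volume.real (FD37 K) = regulator K := by
  have h := ZLattice.isAddFundamentalDomain (basisUnitLattice K)
    (volume : Measure (logSpace K))
  exact (ZLattice.covolume_eq_measure_fundamentalDomain (unitLattice K) volume h).symm

lemma isBounded_FD (K : Type u) [Field K] [NumberField K] : Bornology.IsBounded (FD37 K) :=
  ZSpan.fundamentalDomain_isBounded (ub K)

lemma measurableSet_FD (K : Type u) [Field K] [NumberField K] : MeasurableSet (FD37 K) :=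
  ZSpan.fundamentalDomain_measurableSet (ub K)

end UNFU37

open UNFU37 UNFA37 CELL37

/-- **UNIF, module UNFU.** -/
theorem stUNFU (K : Type u) [Field K] [NumberField K] : StUNFU K := by
  obtain ⟨T, hT⟩ := exists_finset (isBounded_FD K)
  have hm := measurableSet_FD K
  have hbd := isBounded_FD K
  have h1R : (0 : ℝ) < 1 := one_pos
  set c : ℝ := ∫ z : logSpace K, bmp 1 z with hc
  have hc2 : 1 / 2 ≤ c := half_le_int le_rfl
  have hc0 : 0 < c := by linarith
  have hci : c⁻¹ ≤ 2 := by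
    rw [inv_le_comm₀ hc0 (by norm_num)]
    linarith
  have hci0 : 0 ≤ c⁻¹ := inv_nonneg.mpr hc0.le
  set e := T.equivFin with he
  set Phi : Fin T.card → logSpace K → ℝ := fun j z => c⁻¹ * Ph (FD37 K) 1 (e.symm j).1 z with hPhi
  have hV0 : ∀ n : {w : InfinitePlace K // w ≠ w₀} → ℤ, 0 ≤ volume.real (cell (FD37 K) n) :=
    fun n => measureReal_nonneg
  have hPhi0 : ∀ j z, 0 ≤ Phi j z := fun j z => mul_nonneg hci0 (Ph_nonneg _ _ _ _)
  have hPhiS : ∀ z, ∑ j, Phi j z = c⁻¹ * ∫ y in FD37 K, bmp 1 (z - y) := by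
    intro z
    rw [← sum_Ph hm hT h1R z, Finset.mul_sum, ← Finset.sum_coe_sort T
      (fun n => c⁻¹ * Ph (FD37 K) 1 n z)]
    exact Equiv.sum_comp e.symm fun n : T => c⁻¹ * Ph (FD37 K) 1 n.1 z
  have hPhiH : ∀ z, HasSum (fun k : Fin (rank K) → ℤ => ∑ j, Phi j (z + lu k)) 1 := by
    intro z
    have h2 := (hasSum_int (integrable_bmp h1R) z).mul_left c⁻¹
    rw [← hc, inv_mul_cancel₀ hc0.ne'] at h2
    simpa only [hPhiS] using h2
  refine ⟨T.card, Phi, fun j => 2 * volume.real (cell (FD37 K) (e.symm j).1),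
    fun j i => ((e.symm j).1 i : ℝ), fun j => ⟨fun z => ?_, fun z z' => ?_, fun z hz => ?_⟩, ?_, ?_⟩
  · rw [abs_of_nonneg (hPhi0 j z)]
    exact mul_le_mul hci (Ph_le hbd hm h1R _ z) (Ph_nonneg _ _ _ _) (by norm_num)
  · have h2 := Ph_sub_le hbd le_rfl (e.symm j).1 z z'
    have h3 : Phi j z - Phi j z' =
        c⁻¹ * (Ph (FD37 K) 1 (e.symm j).1 z - Ph (FD37 K) 1 (e.symm j).1 z') := by
      rw [hPhi]
      ring
    rw [h3, abs_mul, abs_of_nonneg hci0, mul_assoc]
    exact mul_le_mul hci h2 (abs_nonneg _) (by norm_num)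
  · have h2 : Ph (FD37 K) 1 (e.symm j).1 z ≠ 0 := fun h => hz (by
      rw [hPhi]
      simp only
      rw [h, mul_zero])
    have h3 := Ph_ne_zero h1R hm h2
    linarith
  · rw [← Finset.mul_sum]
    refine mul_le_mul_of_nonneg_left (le_of_eq ?_) (by norm_num)
    rw [← volume_FD K, ← sum_vol hbd hm hT, ← Finset.sum_coe_sort T
      (fun n => volume.real (cell (FD37 K) n))]
    exact Equiv.sum_comp e.symm fun n : T => volume.real (cell (FD37 K) n.1)
  · intro F hF J hJ ι _ b hb W hW s hs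
    rw [U88.total_F hF hs]
    refine Finset.sum_congr rfl fun C _ => ?_
    obtain ⟨h0, h2⟩ := unfold_part hF (hJ C) (hb C) (hW C) (Φ := fun z => ∑ j, Phi j z)
      (fun z => Finset.sum_nonneg fun j _ => hPhi0 j z) hPhiH hs
    rw [Complex.ofReal_one, one_mul, U88.class_F hF (hJ C) hs] at h2
    have h1 : (torsionOrder K : ℂ) * en s (Ideal.absNorm (J C : Ideal (𝓞 K))) ≠ 0 :=
      mul_ne_zero (Nat.cast_ne_zero.mpr (torsionOrder_ne_zero K)) (en_ne_zero _ _)
    have h3 : ∀ j, Summable fun a : ι C → ℤ => W C a * hP (Phi j) s (pt (b C) a) := by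
      intro j
      refine Summable.of_norm_bounded h0.norm fun a => ?_
      rw [norm_mul, norm_mul]
      refine mul_le_mul_of_nonneg_left ?_ (norm_nonneg _)
      unfold hP
      split_ifs
      · exact le_rfl
      · rw [norm_mul, norm_mul, Complex.norm_real, Complex.norm_real,
          Real.norm_of_nonneg (hPhi0 j _),
          Real.norm_of_nonneg (Finset.sum_nonneg fun j _ => hPhi0 j _)]
        exact mul_le_mul_of_nonneg_right (Finset.single_le_sum (f := fun j => Phi j _)
          (fun j _ => hPhi0 j _) (Finset.mem_univ j)) (norm_nonneg _)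
    have h4 : ∑' a : ι C → ℤ, W C a * hP (fun z => ∑ j, Phi j z) s (pt (b C) a) =
        ∑ j, ∑' a : ι C → ℤ, W C a * hP (Phi j) s (pt (b C) a) := by
      rw [← Summable.tsum_finsetSum fun j _ => h3 j]
      refine tsum_congr fun a => ?_
      rw [← Finset.mul_sum]
      congr 1
      unfold hP
      split_ifs
      · rw [Finset.sum_const_zero]
      · rw [← Finset.sum_mul, Complex.ofReal_sum]
    rw [← h4, h2, ← mul_assoc, inv_mul_cancel₀ h1, one_mul]

end Pool.Agent.Lib.MP_bf61d2_nt.Artin.Ray
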