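import Mathlib
import Pool.Agent.Lib.MP_bf61d2_nt.Trim.Artin.U2.HREG33
import Pool.Agent.Lib.MP_bf61d2_nt.Trim.Artin.UK.StmtsU84

set_option autoImplicit false

/-!
UNIF (MP_bf61d2_nt): HRU, and short vectors in the coordinates `ex`.
-/

namespace NumberField
end NumberField

namespace Pool.Agent.Lib.MP_bf61d2_nt.Artin.Ray

open NumberField NumberField.mixedEmbedding NumberField.Units NumberField.InfinitePlace

open NumberField.mixedEmbedding.fundamentalCone NumberField.Units.dirichletUnitTheorem

open IsDedekindDomain Module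

open scoped Classical nonZeroDivisors

universe u

/-- HRU -/
theorem stHRU (n : ℕ) : StHRU.{u} n := by
  obtain ⟨C, hC, k, h⟩ := hreg33.{u} n
  exact ⟨C, k, hC, fun K _ _ hn => h K hn⟩

section

variable {K : Type u} [Field K] [NumberField K]

end

end Pool.Agent.Lib.MP_bf61d2_nt.Artin.Ray
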