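import Mathlib
import Pool.Agent.Lib.MP_bf61d2_nt.Trim.Artin.UK.StmtsU84

set_option autoImplicit false

/-!
UNIF (MP_bf61d2_nt), module LIRU: linear independence over the reals in the mixed space.
-/

namespace NumberField
end NumberField

namespace Pool.Agent.Lib.MP_bf61d2_nt.Artin.Ray

open NumberField NumberField.mixedEmbedding Module

universe u

/-- **UNIF, module LIRU.** -/
theorem stLIRU (K : Type u) [Field K] [NumberField K] : StLIRU K := by
  classical
  intro n τ hτ
  obtain ⟨g, hg⟩ := LinearMap.exists_leftInverse_of_injective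
    (Fintype.linearCombination ℚ (fun i => (τ i : K)))
    (LinearMap.ker_eq_bot.mpr (linearIndependent_iff_injective_fintypeLinearCombination.mp hτ))
  have hgτ : ∀ i, g (τ i : K) = Pi.single i 1 := by
    intro i
    have h1 := LinearMap.congr_fun hg (Pi.single i 1)
    rw [LinearMap.comp_apply, Fintype.linearCombination_apply_single, one_smul] at h1
    exact h1
  set G : mixedSpace K →ₗ[ℝ] (Fin n → ℝ) := (latticeBasis K).constr ℝ
    (fun j k => ((g (integralBasis K j) k : ℚ) : ℝ)) with hGd
  have hG : ∀ x : K, G (mixedEmbedding K x) = fun k => ((g x k : ℚ) : ℝ) := by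
    intro x
    have h1 := (integralBasis K).sum_repr x
    conv_lhs => rw [← h1]
    conv_rhs => rw [← h1]
    rw [map_sum, map_sum, map_sum]
    funext k
    rw [Finset.sum_apply, Finset.sum_apply, Rat.cast_sum]
    refine Finset.sum_congr rfl fun j _ => ?_
    rw [map_rat_smul, map_rat_smul, map_smul, ← latticeBasis_apply, hGd, Basis.constr_basis]
    simp [Rat.smul_def]
  refine LinearIndependent.of_comp G ?_
  have h2 : (⇑G ∘ fun i => mixedEmbedding K (τ i : K)) = fun i => Pi.single i (1 : ℝ) := by
    funext i
    rw [Function.comp_apply, hG, hgτ]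
    funext k
    by_cases h : k = i
    · subst h; simp
    · simp [h]
  rw [h2]
  have h3 := (Pi.basisFun ℝ (Fin n)).linearIndependent
  have h4 : ⇑(Pi.basisFun ℝ (Fin n)) = fun i => Pi.single i (1 : ℝ) := by
    funext i
    exact Pi.basisFun_apply ℝ (Fin n) i
  rwa [h4] at h3

end Pool.Agent.Lib.MP_bf61d2_nt.Artin.Ray
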