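import Mathlib
import Pool.Agent.Lib.MP_bf61d2_nt.Trim.Artin.U2.HREG33
import Pool.Agent.Lib.MP_bf61d2_nt.Trim.Artin.UK.StmtsU84

set_option autoImplicit false

/-!
UNIF (MP_bf61d2_nt): REPR, representatives of the ideal classes.
-/

namespace NumberField
end NumberField

namespace Pool.Agent.Lib.MP_bf61d2_nt.Artin.Ray

open NumberField NumberField.mixedEmbedding NumberField.Units NumberField.InfinitePlace

open NumberField.mixedEmbedding.fundamentalCone NumberField.Units.dirichletUnitTheorem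

open IsDedekindDomain Module

open scoped Classical nonZeroDivisors

universe u

/-- REPR -/
theorem stREPR (n : ℕ) : StREPR.{u} n := by
  refine ⟨3 ^ n, one_le_pow₀ (by norm_num), fun K _ _ hn c => ?_⟩
  obtain ⟨⟨J, hJ⟩, hJc⟩ := ClassGroup.mk0_surjective (R := 𝓞 K) c⁻¹
  have hJ0 : J ≠ ⊥ := nonZeroDivisors.ne_zero hJ
  have hN0 : (0 : ℝ) < Ideal.absNorm J := by
    have : Ideal.absNorm J ≠ 0 := fun h => hJ0 (Ideal.absNorm_eq_zero_iff.mp h)
    exact_mod_cast Nat.pos_of_ne_zero this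
  obtain ⟨β, hβJ, hβ0, hβn, -⟩ := close33 K hn hJ0 0
  have h1 : J ∣ Ideal.span {β} := by
    rw [Ideal.dvd_iff_le, Ideal.span_singleton_le_iff_mem]
    exact hβJ
  obtain ⟨I, hI⟩ := h1
  have hI0 : I ≠ ⊥ := by
    rintro rfl
    rw [Ideal.mul_bot, Ideal.span_singleton_eq_bot] at hI
    exact hβ0 hI
  have hInz : I ∈ (Ideal (𝓞 K))⁰ := mem_nonZeroDivisors_iff_ne_zero.mpr hI0
  have hd1 : 1 ≤ |(discr K : ℝ)| := by
    have h : (1 : ℤ) ≤ |discr K| := Int.one_le_abs (discr_ne_zero K)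
    exact_mod_cast h
  have hdd : Real.sqrt |(discr K : ℝ)| ≤ |(discr K : ℝ)| := by
    rw [Real.sqrt_le_left (abs_nonneg _)]
    nlinarith
  refine ⟨⟨I, hInz⟩, ?_, ?_⟩
  · have h2 : ClassGroup.mk0 ((⟨J, hJ⟩ : (Ideal (𝓞 K))⁰) * ⟨I, hInz⟩) = 1 := by
      have hp : Submodule.IsPrincipal (J * I) := by
        rw [← hI]
        exact ⟨⟨β, rfl⟩⟩
      exact (ClassGroup.mk0_eq_one_iff (Submonoid.mul_mem _ hJ hInz)).mpr hp
    rw [map_mul, hJc] at h2
    exact (inv_mul_eq_one.mp h2).symm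
  · rw [hI, map_mul] at hβn
    push_cast at hβn
    rw [mul_comm (Ideal.absNorm J : ℝ)] at hβn
    refine (le_of_mul_le_mul_right hβn hN0).trans ?_
    exact mul_le_mul_of_nonneg_left hdd (by positivity)

end Pool.Agent.Lib.MP_bf61d2_nt.Artin.Ray
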