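import Mathlib
import Pool.Agent.Lib.MP_bf61d2_nt.Trim.Artin.H.BASH36
import Pool.Agent.Lib.MP_bf61d2_nt.Trim.Artin.H.PERH39
import Pool.Agent.Lib.MP_bf61d2_nt.Trim.Artin.UK.CST36
import Pool.Agent.Lib.MP_bf61d2_nt.Trim.Artin.UK.GROWU38
import Pool.Agent.Lib.MP_bf61d2_nt.Trim.Artin.UK.HRU33
import Pool.Agent.Lib.MP_bf61d2_nt.Trim.Artin.UK.LIRU88
import Pool.Agent.Lib.MP_bf61d2_nt.Trim.Artin.UK.ONELU63
import Pool.Agent.Lib.MP_bf61d2_nt.Trim.Artin.UK.REPR33
import Pool.Agent.Lib.MP_bf61d2_nt.Trim.Artin.UK.StmtsU84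

set_option autoImplicit false

/-!
UNIF (MP_bf61d2_nt): assembly.
-/

namespace NumberField
end NumberField

namespace Pool.Agent.Lib.MP_bf61d2_nt.Artin.Ray

open NumberField IsDedekindDomain

open scoped Classical

universe u

/-- The one sided bound, uniform in the field, from the unfolding and the lattice sums. -/
theorem stONELU_84 (n : ℕ) (hUNF : ∀ (K : Type u) [Field K] [NumberField K], StUNFU K)
    (hLAT : StLATU.{u} n) : StONELU.{u} n := by
  have hG : StGROWU.{u} n := stGROWU_of n (fun K _ _ => stBASH_36 K)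
    (fun K _ _ => stPERH_39 K (stBASH_36 K)) hUNF (fun K _ _ => stLIRU K) hLAT (stHRU n) (stREPR n)
  exact stONELU_of n hG (stPSLU n) (stWLU n)

end Pool.Agent.Lib.MP_bf61d2_nt.Artin.Ray
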