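import Mathlib
import Pool.Agent.Lib.MP_bf61d2_nt.Trim.Artin.UK.BESLU73
import Pool.Agent.Lib.MP_bf61d2_nt.Trim.Artin.UK.LATU3
import Pool.Agent.Lib.MP_bf61d2_nt.Trim.Artin.UK.LCOS69
import Pool.Agent.Lib.MP_bf61d2_nt.Trim.Artin.UK.PACK69
import Pool.Agent.Lib.MP_bf61d2_nt.Trim.Artin.UK.StmtsU84
import Pool.Agent.Lib.MP_bf61d2_nt.Trim.Artin.UK.UNFU37
import Pool.Agent.Lib.MP_bf61d2_nt.Trim.Artin.UK.UNIF84

set_option autoImplicit false

/-!
UNIF (MP_bf61d2_nt): the unconditional uniform theorems.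
-/

namespace NumberField
end NumberField

namespace Pool.Agent.Lib.MP_bf61d2_nt.Artin.Ray

open NumberField IsDedekindDomain

open scoped Classical

universe u

/-- The lattice sums, uniform in the field. -/
theorem stLATU (n : ℕ) : StLATU.{u} n := stLATU_of n (stLCOS n) (stPACK n)

/-- The one sided bound, uniform in the field. -/
theorem stONELU (n : ℕ) : StONELU.{u} n :=
  stONELU_84 n (fun K _ _ => stUNFU K) (stLATU n)

/-- The difference bound, uniform in the field. -/
theorem stDLU (n : ℕ) : StDLU.{u} n := stDLU_of n (stONELU n)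

end Pool.Agent.Lib.MP_bf61d2_nt.Artin.Ray
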