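import Mathlib
import Pool.Agent.Lib.MP_bf61d2_nt.Trim.Artin.L.BADL73
import Pool.Agent.Lib.MP_bf61d2_nt.Trim.Artin.L.StmtsL63
import Pool.Agent.Lib.MP_bf61d2_nt.Trim.Artin.L.T1M73
import Pool.Agent.Lib.MP_bf61d2_nt.Trim.Artin.T4x63
import Pool.Agent.Lib.MP_bf61d2_nt.Trim.Artin.UK.StmtsU84
import Pool.Agent.Lib.MP_bf61d2_nt.Trim.Places
import Pool.Agent.Lib.MP_bf61d2_nt.Trim.PrimeSum
import Pool.Agent.Lib.MP_bf61d2_nt.Trim.Structure

set_option autoImplicit false

/-!
UNIF (MP_bf61d2_nt): the second moment of the traces, with constants that depend only on the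
degree.
-/

namespace NumberField
end NumberField

namespace Pool.Agent.Lib.MP_bf61d2_nt.Artin.Ray

open NumberField IsDedekindDomain Filter Topology Module

universe u

variable {K : Type u} [Field K] [NumberField K]

lemma absNorm_two25 : (Ideal.absNorm (Ideal.span {(2 : 𝓞 K)}) : ℝ) = 2 ^ finrank ℚ K := by
  have h := Ideal.absNorm_span_natCast (S := 𝓞 K) 2
  rw [RingOfIntegers.rank] at h
  push_cast at h
  exact_mod_cast h

/-- The places above `2`. -/
lemma tsum_two25 :
    ∑' v : HeightOneSpectrum (𝓞 K), (if pr v = 2 then Real.log (nm v) else 0) ≤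
      finrank ℚ K * Real.log 2 := by
  classical
  have hm : Ideal.span {(2 : 𝓞 K)} ≠ ⊥ := by
    rw [Ne, Ideal.span_singleton_eq_bot]
    exact two_ne_zero
  have hN := absNorm_two25 (K := K)
  rw [tsum_eq_sum (s := (finite_two (K := K)).toFinset) fun v hv => ?_]
  · have h1 : ∑ v ∈ (finite_two (K := K)).toFinset, (if pr v = 2 then Real.log (nm v) else 0) =
        ∑ v ∈ (finite_two (K := K)).toFinset, Real.log (nm v) := by
      refine Finset.sum_congr rfl fun v hv => ?_
      have h2 : pr v = 2 := (finite_two (K := K)).mem_toFinset.mp hv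
      rw [if_pos h2]
    rw [h1]
    refine (sum_log_nm_le73 hm _ fun v hv => ?_).trans ?_
    · have h2 : pr v = 2 := (finite_two (K := K)).mem_toFinset.mp hv
      rw [Ideal.span_singleton_le_iff_mem]
      have h3 := pr_mem v
      rw [h2] at h3
      exact_mod_cast h3
    · rw [hN, Real.log_pow]
  · refine if_neg fun h => hv ?_
    rw [Set.Finite.mem_toFinset]
    exact h

lemma one_le_dK25 : 1 ≤ dK K := by
  unfold dK
  have h : (1 : ℤ) ≤ |discr K| := Int.one_le_abs (discr_ne_zero K)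
  exact_mod_cast h

/-- T1U: the second moment of the traces. -/
theorem stT1U25 (n : ℕ) (hDL : StDLU.{u} n) (hWL : StWL1U.{u} n) : StT1U.{u} n := by
  obtain ⟨A, hA, h1⟩ := hDL
  obtain ⟨B, hB, h2⟩ := hWL
  have hl2 : 0 < Real.log 2 := Real.log_pos (by norm_num)
  have hn : (0 : ℝ) ≤ n := n.cast_nonneg
  have hn2 : 0 ≤ (n : ℝ) * Real.log 2 := by positivity
  refine ⟨4 * A + 4 * B + n * Real.log 2, by linarith, fun K _ _ hK E δ hδ hδ1 => ?_⟩
  have hT := T1_facts73 E δ hδ
  have ht := tsum_two25 (K := K)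
  rw [hK] at ht
  have hA1 := h1 K hK δ hδ hδ1
  have hB1 := h2 K hK δ hδ hδ1
  have hw : ∑' v : HeightOneSpectrum (𝓞 K), wl δ v =
      ∑' v : HeightOneSpectrum (𝓞 K), wp (1 + δ) v * Real.log (nm v) := rfl
  rw [hw] at hA1 hB1
  have hd := one_le_dK25 (K := K)
  have hlog : 1 ≤ Real.log (20 * dK K) := by
    have h5 : Real.exp 1 ≤ 20 * dK K := by
      have := Real.exp_one_lt_d9
      linarith
    have h6 := Real.log_le_log (Real.exp_pos 1) h5
    rwa [Real.log_exp] at h6
  refine ⟨hT.1, ?_, ?_⟩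
  · have e : 4 / δ = 4 * (1 / δ) := by ring
    rw [e]
    have h7 : (n : ℝ) * Real.log 2 ≤ n * Real.log 2 * Real.log (20 * dK K) :=
      le_mul_of_one_le_right hn2 hlog
    have h8 : 0 ≤ 4 * B * Real.log (20 * dK K) := by positivity
    nlinarith [hT.2]
  · have e : (4 * A + 4 * B + n * Real.log 2) / δ =
        4 * A / δ + 4 * (B / δ) + n * Real.log 2 / δ := by ring
    rw [e]
    have h7 : (n : ℝ) * Real.log 2 ≤ n * Real.log 2 / δ := by
      rw [le_div_iff₀ hδ]
      exact mul_le_of_le_one_right hn2 hδ1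
    have h8 : 0 ≤ 4 * A / δ := by positivity
    linarith [hT.2]

end Pool.Agent.Lib.MP_bf61d2_nt.Artin.Ray
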