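import Mathlib
import Pool.Agent.Lib.MP_bf61d2_nt.Trim.Artin.L.StmtsL63
import Pool.Agent.Lib.MP_bf61d2_nt.Trim.Artin.U2.CST36
import Pool.Agent.Lib.MP_bf61d2_nt.Trim.Artin.UK.StmtsU84
import Pool.Agent.Lib.MP_bf61d2_nt.Trim.Places
import Pool.Agent.Lib.MP_bf61d2_nt.Trim.PrimeSum

set_option autoImplicit false

/-!
UNIF (MP_bf61d2_nt), module WL1U: the trivial bound of the sum of the weights, uniform in the field.
-/

namespace NumberField
end NumberField

namespace LSeries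
end LSeries

namespace Pool.Agent.Lib.MP_bf61d2_nt.Artin.Ray

open NumberField IsDedekindDomain Module

universe u

namespace WL1U36

open ArithmeticFunction ArithmeticFunction.vonMangoldt DirichletCharacter Complex LSeries

lemma resid_eq (n : ℕ) : residueClass (0 : ZMod 1) n = vonMangoldt n := by
  have h : n ∈ {n : ℕ | (n : ZMod 1) = (0 : ZMod 1)} :=
    Subsingleton.elim (n : ZMod 1) (0 : ZMod 1)
  exact Set.indicator_of_mem h (fun n : ℕ => vonMangoldt n)

lemma tsum_aux : ∃ C : ℝ, ∀ x : ℝ, x ∈ Set.Ioc (1 : ℝ) 2 →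
    ∑' n : ℕ, vonMangoldt n / (n : ℝ) ^ x ≤ C + 1 / (x - 1) := by
  have ha : IsUnit (0 : ZMod 1) := isUnit_of_subsingleton _
  have H {x : ℝ} (hx : 1 < x) :
      ∑' n, residueClass (0 : ZMod 1) n / (n : ℝ) ^ x =
        (LFunctionResidueClassAux (0 : ZMod 1) x).re + ((1 : ℕ).totient : ℝ)⁻¹ / (x - 1) := by
    refine ofReal_injective ?_
    simp only [ofReal_tsum, ofReal_div, ofReal_cpow (Nat.cast_nonneg _), ofReal_natCast,
      ofReal_add, ofReal_inv, ofReal_sub, ofReal_one]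
    simp_rw [← LFunctionResidueClassAux_real ha hx,
      eqOn_LFunctionResidueClassAux ha <| Set.mem_ofPred.mpr (ofReal_re x ▸ hx), sub_add_cancel,
      LSeries, term]
    refine tsum_congr fun n ↦ ?_
    split_ifs with hn
    · simp only [hn, residueClass_apply_zero, ofReal_zero, zero_div]
    · rfl
  have hcont : ContinuousOn (fun x : ℝ ↦ (LFunctionResidueClassAux (0 : ZMod 1) x).re)
      (Set.Icc 1 2) :=
    continuous_re.continuousOn.comp (t := Set.univ)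
      (continuousOn_LFunctionResidueClassAux (0 : ZMod 1))
      (fun ⦃x⦄ a ↦ trivial) |>.comp continuous_ofReal.continuousOn fun x hx ↦ by
        simpa only [Set.mem_ofPred_eq, ofReal_re] using hx.1
  obtain ⟨C, hC⟩ := bddAbove_def.mp <| IsCompact.bddAbove_image isCompact_Icc hcont
  refine ⟨C, fun x hx => ?_⟩
  have h1 := H hx.1
  simp_rw [resid_eq] at h1
  rw [h1]
  have h2 := hC _ (Set.mem_image_of_mem _ (Set.mem_Icc_of_Ioc hx))
  rw [Nat.totient_one, Nat.cast_one, inv_one]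
  linarith

lemma summable_aux {x : ℝ} (hx : 1 < x) : Summable fun n : ℕ => vonMangoldt n / (n : ℝ) ^ x := by
  have h1 : Summable fun n : ℕ => residueClass (0 : ZMod 1) n / (n : ℝ) ^ x :=
    summable_real_of_abscissaOfAbsConv_lt <|
      (abscissaOfAbsConv_residueClass_le_one (0 : ZMod 1)).trans_lt <| mod_cast hx
  simp_rw [resid_eq] at h1
  exact h1

end WL1U36

variable {K : Type u} [Field K] [NumberField K]

/-- The weight of a place is at most the weight of the prime below. -/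
lemma wl_le_vonMangoldt36 {δ : ℝ} (hδ : 0 < δ) (v : HeightOneSpectrum (𝓞 K)) :
    wl δ v ≤ ArithmeticFunction.vonMangoldt (pr v) / ((pr v : ℕ) : ℝ) ^ (1 + δ) := by
  obtain ⟨f, hf, h⟩ := nm_eq v
  have hp := pr_prime v
  have hp0 : (0 : ℝ) < pr v := by exact_mod_cast hp.pos
  have hp2 : (2 : ℝ) ≤ pr v := by exact_mod_cast hp.two_le
  have hl : 0 ≤ Real.log (pr v) := Real.log_nonneg (by linarith)
  rw [ArithmeticFunction.vonMangoldt_apply_prime hp, wl, wp, h]
  push_cast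
  rw [Real.log_pow]
  obtain ⟨g, rfl⟩ : ∃ g, f = g + 1 := ⟨f - 1, by omega⟩
  have hpow : (((pr v : ℕ) : ℝ) ^ (g + 1)) ^ (-(1 + δ)) =
      ((pr v : ℝ) ^ (1 + δ))⁻¹ * (((pr v : ℝ) ^ g) ^ (1 + δ))⁻¹ := by
    rw [pow_succ, Real.mul_rpow (by positivity) hp0.le, Real.rpow_neg (by positivity),
      Real.rpow_neg hp0.le]
    ring
  rw [hpow]
  have h1 : ((g + 1 : ℕ) : ℝ) ≤ ((pr v : ℝ) ^ g) ^ (1 + δ) := by
    have h2 : ((g + 1 : ℕ) : ℝ) ≤ (2 : ℝ) ^ g := by
      exact_mod_cast Nat.lt_two_pow_self (n := g)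
    have h3 : (2 : ℝ) ^ g ≤ (pr v : ℝ) ^ g := pow_le_pow_left₀ (by norm_num) hp2 g
    have h4 : (1 : ℝ) ≤ (pr v : ℝ) ^ g := one_le_pow₀ (by linarith)
    have h5 : (pr v : ℝ) ^ g ≤ ((pr v : ℝ) ^ g) ^ (1 + δ) :=
      Real.self_le_rpow_of_one_le h4 (by linarith)
    linarith
  have h6 : 0 < ((pr v : ℝ) ^ g) ^ (1 + δ) := by positivity
  have h7 : (((pr v : ℝ) ^ g) ^ (1 + δ))⁻¹ * ((g + 1 : ℕ) : ℝ) ≤ 1 := by
    rw [inv_mul_le_iff₀ h6, mul_one]
    exact h1
  calc ((pr v : ℝ) ^ (1 + δ))⁻¹ * (((pr v : ℝ) ^ g) ^ (1 + δ))⁻¹ *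
        (((g + 1 : ℕ) : ℝ) * Real.log (pr v))
      = (Real.log (pr v) / (pr v : ℝ) ^ (1 + δ)) *
        ((((pr v : ℝ) ^ g) ^ (1 + δ))⁻¹ * ((g + 1 : ℕ) : ℝ)) := by
        rw [div_eq_mul_inv]
        ring
    _ ≤ (Real.log (pr v) / (pr v : ℝ) ^ (1 + δ)) * 1 :=
        mul_le_mul_of_nonneg_left h7 (by positivity)
    _ = _ := mul_one _

/-- WL1U: the trivial bound of the sum of the weights. -/
theorem stWL1U (n : ℕ) : StWL1U.{u} n := by
  obtain ⟨C, hC⟩ := WL1U36.tsum_aux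
  refine ⟨n * (|C| + 1) + 1, by have := abs_nonneg C; nlinarith [(Nat.cast_nonneg n : (0:ℝ) ≤ n)],
    ?_⟩
  intro K _ _ hn δ h0 h1
  have hs := WL1U36.summable_aux (x := 1 + δ) (by linarith)
  have hnn : ∀ m : ℕ, 0 ≤ ArithmeticFunction.vonMangoldt m / (m : ℝ) ^ (1 + δ) := fun m =>
    div_nonneg ArithmeticFunction.vonMangoldt_nonneg (by positivity)
  have h2 : ∑' v : HeightOneSpectrum (𝓞 K), wl δ v ≤
      n * ∑' m : ℕ, ArithmeticFunction.vonMangoldt m / (m : ℝ) ^ (1 + δ) := by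
    have hsp := summable_pr (K := K)
      (h := fun m : ℕ => ArithmeticFunction.vonMangoldt m / (m : ℝ) ^ (1 + δ)) hnn hs
    have hle := (summable_wl (K := K) h0).tsum_le_tsum (fun v => wl_le_vonMangoldt36 h0 v) hsp
    refine hle.trans ?_
    rw [← hn]
    exact tsum_pr_le36 K
      (h := fun m : ℕ => ArithmeticFunction.vonMangoldt m / (m : ℝ) ^ (1 + δ)) hnn hs
  have h3 := hC (1 + δ) ⟨by linarith, by linarith⟩
  rw [add_sub_cancel_left] at h3
  have h4 : C + 1 / δ ≤ (|C| + 1) / δ := by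
    have h5 : C ≤ |C| / δ := by
      rw [le_div_iff₀ h0]
      have := le_abs_self C
      have := abs_nonneg C
      nlinarith
    have h6 : (|C| + 1) / δ = |C| / δ + 1 / δ := by ring
    linarith
  have hn0 : (0 : ℝ) ≤ n := Nat.cast_nonneg n
  calc ∑' v : HeightOneSpectrum (𝓞 K), wl δ v ≤ n * ((|C| + 1) / δ) :=
        h2.trans (mul_le_mul_of_nonneg_left (h3.trans h4) hn0)
    _ ≤ (n * (|C| + 1) + 1) / δ := by
        rw [← mul_div_assoc]
        exact div_le_div_of_nonneg_right (by linarith) h0.le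

end Pool.Agent.Lib.MP_bf61d2_nt.Artin.Ray
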